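import Pool.Agent.N252.TV.N

/-!
Project TV (helper252): Gaussian limits and the decorrelation of energy, on the line.
-/

set_option autoImplicit false
open MeasureTheory Filter Topology ProbabilityTheory
open scoped ContDiff ENNReal NNReal BoundedContinuousFunction

namespace Pool.Agent.N252.TV

noncomputable section

/-- an approximate linear differential equation -/
lemma ode_lim {c c' : ℕ → ℝ → ℝ} (hd : ∀ n t, HasDerivAt (c n) (c' n t) t)
    (hc : ∀ n, Continuous (c' n)) {v B : ℝ}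
    (hb : ∀ n t, |c' n t + v * t * c n t| ≤ B * (1 + |t|))
    (h0 : ∀ t, Tendsto (fun n => c' n t + v * t * c n t) atTop (𝓝 0)) {c0 : ℝ}
    (hi : ∀ n, c n 0 = c0) (t : ℝ) :
    Tendsto (fun n => c n t) atTop (𝓝 (c0 * Real.exp (-(v * t ^ 2 / 2)))) := by
  have hde : ∀ s : ℝ, HasDerivAt (fun t : ℝ => Real.exp (v * t ^ 2 / 2))
      (Real.exp (v * s ^ 2 / 2) * (v * (2 * s) / 2)) s := by
    intro s
    have h3 : HasDerivAt (fun t : ℝ => t ^ 2) (2 * s) s := by simpa using hasDerivAt_pow 2 s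
    exact ((h3.const_mul v).div_const 2).exp
  have hk : ∀ n s, HasDerivAt (fun t : ℝ => Real.exp (v * t ^ 2 / 2) * c n t)
      (Real.exp (v * s ^ 2 / 2) * (c' n s + v * s * c n s)) s := by
    intro n s
    have h := (hde s).mul (hd n s)
    have e : Real.exp (v * s ^ 2 / 2) * (c' n s + v * s * c n s) =
        Real.exp (v * s ^ 2 / 2) * (v * (2 * s) / 2) * c n s +
          Real.exp (v * s ^ 2 / 2) * c' n s := by ring
    rw [e]; exact h
  have cn : ∀ n, Continuous (c n) := fun n =>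
    continuous_iff_continuousAt.2 fun s => (hd n s).continuousAt
  have ci : ∀ n, Continuous fun s : ℝ => Real.exp (v * s ^ 2 / 2) * (c' n s + v * s * c n s) := by
    intro n
    have h1 := hc n
    have h2 := cn n
    fun_prop
  have hint : ∀ n, Real.exp (v * t ^ 2 / 2) * c n t - c0 =
      ∫ s in (0 : ℝ)..t, Real.exp (v * s ^ 2 / 2) * (c' n s + v * s * c n s) := by
    intro n
    rw [intervalIntegral.integral_eq_sub_of_hasDerivAt (fun s _ => hk n s)
      ((ci n).intervalIntegrable _ _), hi n]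
    simp
  have lim : Tendsto (fun n => ∫ s in (0 : ℝ)..t, Real.exp (v * s ^ 2 / 2) *
      (c' n s + v * s * c n s)) atTop (𝓝 (∫ _ in (0 : ℝ)..t, (0 : ℝ))) := by
    refine intervalIntegral.tendsto_integral_filter_of_dominated_convergence
      (fun s => Real.exp (v * s ^ 2 / 2) * (B * (1 + |s|)))
      (Eventually.of_forall fun n => (ci n).aestronglyMeasurable)
      (Eventually.of_forall fun n => ae_of_all _ fun s _ => ?_)
      ((by fun_prop : Continuous fun s : ℝ =>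
        Real.exp (v * s ^ 2 / 2) * (B * (1 + |s|))).intervalIntegrable _ _)
      (ae_of_all _ fun s _ => ?_)
    · rw [Real.norm_eq_abs, abs_mul, Real.abs_exp]
      exact mul_le_mul_of_nonneg_left (hb n s) (Real.exp_pos _).le
    · have := (h0 s).const_mul (Real.exp (v * s ^ 2 / 2))
      rwa [mul_zero] at this
  simp only [intervalIntegral.integral_zero] at lim
  have h1 : Tendsto (fun n => Real.exp (v * t ^ 2 / 2) * c n t - c0) atTop (𝓝 0) :=
    lim.congr fun n => (hint n).symm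
  have h2 := (h1.add_const c0).const_mul (Real.exp (-(v * t ^ 2 / 2)))
  have e1 : Real.exp (-(v * t ^ 2 / 2)) * (0 + c0) = c0 * Real.exp (-(v * t ^ 2 / 2)) := by ring
  rw [e1] at h2
  refine h2.congr fun n => ?_
  have e2 : Real.exp (-(v * t ^ 2 / 2)) * Real.exp (v * t ^ 2 / 2) = 1 := by
    rw [← Real.exp_add]; simp
  calc Real.exp (-(v * t ^ 2 / 2)) * (Real.exp (v * t ^ 2 / 2) * c n t - c0 + c0) =
      (Real.exp (-(v * t ^ 2 / 2)) * Real.exp (v * t ^ 2 / 2)) * c n t := by ring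
    _ = c n t := by rw [e2, one_mul]

/-- laws `μ n` and energy laws `e n` on the line -/
structure Pair (μ e : ℕ → Measure ℝ) (V M C : ℝ) (h : ℕ → ℝ) : Prop where
  fμ : ∀ n, IsFiniteMeasure (μ n)
  fe : ∀ n, IsFiniteMeasure (e n)
  V0 : 0 < V
  mass : ∀ n, (μ n).real Set.univ = V
  sq : ∀ n, Integrable (fun x => x ^ 2) (μ n) ∧ ∫ x, x ^ 2 ∂(μ n) ≤ M
  h0 : Tendsto h atTop (𝓝 0)
  hn : ∀ n, 0 ≤ h n
  hb : ∀ n, h n ≤ 1
  C0 : 0 ≤ C
  id : ∀ n, ∀ (f : ℝ → ℝ) (a b : ℝ), ContDiff ℝ ∞ f → (∀ x, |f x| ≤ a) →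
    (∀ x, |deriv f x| ≤ b) → |∫ x, deriv f x ∂(e n) - ∫ x, x * f x ∂(μ n)| ≤ a * (C * h n)
  id2 : ∀ n, |(e n).real Set.univ - ∫ x, x ^ 2 ∂(μ n)| ≤ C * h n
  osc : ∀ δ : ℝ, 0 < δ → ∃ ε : ℝ, 0 < ε ∧ ∀ᶠ n in atTop, Osc (μ n) ε δ

variable {μ e : ℕ → Measure ℝ} {V M C : ℝ} {h : ℕ → ℝ}

lemma cos_d (t : ℝ) : deriv (fun x : ℝ => Real.cos (t * x)) = fun x => -(t * Real.sin (t * x)) := by
  funext x
  have h1 : HasDerivAt (fun x : ℝ => t * x) t x := by simpa using (hasDerivAt_id x).const_mul t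
  have h2 : HasDerivAt (fun x => Real.cos (t * x)) (-Real.sin (t * x) * t) x :=
    (Real.hasDerivAt_cos (t * x)).comp x h1
  rw [h2.deriv]
  ring

lemma sin_d (t : ℝ) : deriv (fun x : ℝ => Real.sin (t * x)) = fun x => t * Real.cos (t * x) := by
  funext x
  have h1 : HasDerivAt (fun x : ℝ => t * x) t x := by simpa using (hasDerivAt_id x).const_mul t
  have h2 : HasDerivAt (fun x => Real.sin (t * x)) (Real.cos (t * x) * t) x :=
    (Real.hasDerivAt_sin (t * x)).comp x h1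
  rw [h2.deriv]
  ring

lemma Pair.id_sin (H : Pair μ e V M C h) (n : ℕ) (t : ℝ) :
    |t * cI (e n) t - xs (μ n) t| ≤ C * h n := by
  have h1 := H.id n (fun x => Real.sin (t * x)) 1 |t| (by fun_prop)
    (fun x => Real.abs_sin_le_one _) (fun x => by
      rw [sin_d]
      show |t * Real.cos (t * x)| ≤ |t|
      rw [abs_mul]
      exact mul_le_of_le_one_right (abs_nonneg _) (Real.abs_cos_le_one _))
  rw [sin_d, one_mul] at h1
  have e1 : ∫ x, t * Real.cos (t * x) ∂(e n) = t * cI (e n) t := integral_const_mul _ _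
  rw [e1] at h1
  exact h1

lemma Pair.id_cos (H : Pair μ e V M C h) (n : ℕ) (t : ℝ) :
    |t * sI (e n) t + xc (μ n) t| ≤ C * h n := by
  have h1 := H.id n (fun x => Real.cos (t * x)) 1 |t| (by fun_prop)
    (fun x => Real.abs_cos_le_one _) (fun x => by
      rw [cos_d]
      show |-(t * Real.sin (t * x))| ≤ |t|
      rw [abs_neg, abs_mul]
      exact mul_le_of_le_one_right (abs_nonneg _) (Real.abs_sin_le_one _))
  rw [cos_d, one_mul] at h1
  have e1 : ∫ x, -(t * Real.sin (t * x)) ∂(e n) = -(t * sI (e n) t) := by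
    rw [integral_neg, integral_const_mul]; rfl
  rw [e1] at h1
  rw [← abs_neg]
  refine le_trans (le_of_eq ?_) h1
  congr 1
  show -(t * sI (e n) t + xc (μ n) t) = -(t * sI (e n) t) - xc (μ n) t
  ring

lemma Pair.Ch (H : Pair μ e V M C h) : Tendsto (fun n => C * h n) atTop (𝓝 0) := by
  have := H.h0.const_mul C
  rwa [mul_zero] at this

lemma Pair.emass (H : Pair μ e V M C h) (n : ℕ) : (e n).real Set.univ ≤ M + C := by
  have h1 := (abs_le.1 (H.id2 n)).2
  have h2 := (H.sq n).2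
  have h3 := mul_le_mul_of_nonneg_left (H.hb n) H.C0
  linarith

lemma Pair.M0 (H : Pair μ e V M C h) : 0 ≤ M :=
  (integral_nonneg fun x => sq_nonneg x).trans (H.sq 0).2

/-- the second moments of the laws converge if the energies do -/
lemma Pair.sq_lim (H : Pair μ e V M C h) {w : ℝ}
    (he : Tendsto (fun n => (e n).real Set.univ) atTop (𝓝 w)) :
    Tendsto (fun n => ∫ x, x ^ 2 ∂(μ n)) atTop (𝓝 w) := by
  have h1 : Tendsto (fun n => (e n).real Set.univ - ∫ x, x ^ 2 ∂(μ n)) atTop (𝓝 0) :=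
    squeeze_zero_norm H.id2 H.Ch
  have h2 := he.sub h1
  rw [sub_zero] at h2
  exact h2.congr fun n => by ring

lemma Pair.e_lim (H : Pair μ e V M C h) {w : ℝ}
    (he : Tendsto (fun n => ∫ x, x ^ 2 ∂(μ n)) atTop (𝓝 w)) :
    Tendsto (fun n => (e n).real Set.univ) atTop (𝓝 w) := by
  have h1 : Tendsto (fun n => (e n).real Set.univ - ∫ x, x ^ 2 ∂(μ n)) atTop (𝓝 0) :=
    squeeze_zero_norm H.id2 H.Ch
  have h2 := he.add h1
  rw [add_zero] at h2
  exact h2.congr fun n => by ring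

/-- **Weak decorrelation implies Gaussian limits.** -/
theorem Pair.BA (H : Pair μ e V M C h) {v : ℝ≥0}
    (hB : ∀ g : ℝ →ᵇ ℝ, Tendsto (fun n => ∫ x, g x ∂(e n) - v * ∫ x, g x ∂(μ n)) atTop (𝓝 0)) :
    (∀ g : ℝ →ᵇ ℝ, Tendsto (fun n => ∫ x, g x ∂(μ n)) atTop
      (𝓝 (V * ∫ x, g x ∂(gaussianReal 0 v)))) ∧
    Tendsto (fun n => ∫ x, x ^ 2 ∂(μ n)) atTop (𝓝 (v * V)) := by
  have fμ := H.fμ
  have fe := H.fe
  have cc : ∀ t, Tendsto (fun n => cI (e n) t - v * cI (μ n) t) atTop (𝓝 0) := fun t =>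
    hB (BoundedContinuousFunction.ofNormedAddCommGroup (fun x => Real.cos (t * x))
      (by fun_prop) 1 fun x => Real.abs_cos_le_one _)
  have ss : ∀ t, Tendsto (fun n => sI (e n) t - v * sI (μ n) t) atTop (𝓝 0) := fun t =>
    hB (BoundedContinuousFunction.ofNormedAddCommGroup (fun x => Real.sin (t * x))
      (by fun_prop) 1 fun x => Real.abs_sin_le_one _)
  have M0 := H.M0
  have V0 := H.V0
  have cb : ∀ n t, |cI (μ n) t| ≤ V := by
    intro n t
    refine (abs_integral_le_integral_abs).trans ?_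
    have h1 : ∫ x, |Real.cos (t * x)| ∂(μ n) ≤ ∫ _, (1 : ℝ) ∂(μ n) :=
      integral_mono (icos _ t).abs (integrable_const 1) fun x => Real.abs_cos_le_one _
    rw [integral_const, smul_eq_mul, mul_one, H.mass n] at h1
    exact h1
  have sb : ∀ n t, |sI (μ n) t| ≤ V := by
    intro n t
    refine (abs_integral_le_integral_abs).trans ?_
    have h1 : ∫ x, |Real.sin (t * x)| ∂(μ n) ≤ ∫ _, (1 : ℝ) ∂(μ n) :=
      integral_mono (isin _ t).abs (integrable_const 1) fun x => Real.abs_sin_le_one _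
    rw [integral_const, smul_eq_mul, mul_one, H.mass n] at h1
    exact h1
  have v0 : (0 : ℝ) ≤ v := v.2
  have bd : ∀ {x y : ℝ} (t : ℝ), |x| ≤ V + M → |y| ≤ V →
      |x + v * t * y| ≤ (V + M + v * V) * (1 + |t|) := by
    intro x y t hx hy
    have h1 := abs_add_le x (v * t * y)
    have h2 : |v * t * y| ≤ v * |t| * V := by
      rw [abs_mul, abs_mul, abs_of_nonneg v0]
      exact mul_le_mul_of_nonneg_left hy (by positivity)
    have h3 : 0 ≤ (V + M) * |t| := by positivity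
    have h4 : 0 ≤ (v : ℝ) * V := by positivity
    nlinarith [abs_nonneg t]
  -- cosine part
  have lc := ode_lim (c := fun n => cI (μ n)) (c' := fun n t => -(xs (μ n) t))
    (fun n t => cI_d (H.sq n).1 t) (fun n => (xs_c (H.sq n).1).neg) (v := v)
    (B := V + M + v * V)
    (fun n t => bd t (by rw [abs_neg]; exact xs_bd (H.sq n).1 (H.sq n).2 (H.mass n).le t)
      (cb n t))
    (fun t => by
      have h1 : Tendsto (fun n => t * cI (e n) t - xs (μ n) t) atTop (𝓝 0) :=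
        squeeze_zero_norm (fun n => H.id_sin n t) H.Ch
      have h2 := h1.sub ((cc t).const_mul t)
      rw [mul_zero, sub_zero] at h2
      exact h2.congr fun n => by ring) (c0 := V)
    (fun n => by rw [← H.mass n]; unfold cI; simp)
  have ls := ode_lim (c := fun n => sI (μ n)) (c' := fun n t => xc (μ n) t)
    (fun n t => sI_d (H.sq n).1 t) (fun n => xc_c (H.sq n).1) (v := v)
    (B := V + M + v * V)
    (fun n t => bd t (xc_bd (H.sq n).1 (H.sq n).2 (H.mass n).le t) (sb n t))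
    (fun t => by
      have h1 : Tendsto (fun n => t * sI (e n) t + xc (μ n) t) atTop (𝓝 0) :=
        squeeze_zero_norm (fun n => H.id_cos n t) H.Ch
      have h2 := h1.sub ((ss t).const_mul t)
      rw [mul_zero, sub_zero] at h2
      exact h2.congr fun n => by ring) (c0 := 0)
    (fun n => by unfold sI; simp)
  refine ⟨levy_fin V0 lc fun t => ?_, ?_⟩
  · have := ls t
    rwa [zero_mul] at this
  · have h1 := cc 0
    have e1 : ∀ τ : Measure ℝ, cI τ 0 = τ.real Set.univ := fun τ => by unfold cI; simp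
    simp only [e1, H.mass] at h1
    have h2 := h1.add_const (v * V)
    rw [zero_add] at h2
    exact H.sq_lim (h2.congr fun n => by ring)

/-- regularity of the energy laws -/
lemma Pair.osce (H : Pair μ e V M C h) : ∀ δ : ℝ, 0 < δ → ∃ ε : ℝ, 0 < ε ∧
    ∀ᶠ n in atTop, Osc (e n) ε δ := by
  have fμ := H.fμ
  have fe := H.fe
  have M0 := H.M0
  have V0 := H.V0
  have C0 := H.C0
  intro δ hδ
  obtain ⟨Q, hQ⟩ : ∃ Q : ℝ, Q = 2 * (2 * C + V + 2 * M) + 1 := ⟨_, rfl⟩
  have Q0 : 0 < Q := by rw [hQ]; positivity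
  refine ⟨δ / Q, by positivity, Eventually.of_forall fun n f sf kf bf => ?_⟩
  obtain ⟨ε, hε⟩ : ∃ ε : ℝ, ε = δ / Q := ⟨_, rfl⟩
  have ε0 : 0 < ε := by rw [hε]; positivity
  rw [← hε]
  obtain ⟨G, hG⟩ : ∃ G : ℝ → ℝ, G = Gc f ε := ⟨_, rfl⟩
  have sG : ContDiff ℝ ∞ G := by rw [hG]; exact Gc_sm sf ε
  have bG : ∀ x, |G x| ≤ 2 * ε := fun x => by rw [hG]; exact Gc_bd sf bf ε0 x
  have dG : ∀ x, HasDerivAt G (sm f ε x - f x) x := fun x => by rw [hG]; exact Gc_d sf ε x
  obtain ⟨k, hk⟩ : ∃ k : ℝ → ℝ, k = fun x => th x * G x := ⟨_, rfl⟩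
  have sk : ContDiff ℝ ∞ k := by rw [hk]; exact th_sm.mul sG
  have bk : ∀ x, |k x| ≤ 2 * ε := fun x => by
    rw [hk]
    show |th x * G x| ≤ 2 * ε
    rw [abs_mul]
    have := mul_le_mul (th_abs_le x) (bG x) (abs_nonneg _) zero_le_one
    linarith
  have dk : ∀ x, deriv k x = 2 * x / (1 + x ^ 2) ^ 2 * G x + (sm f ε x - f x) * th x := fun x => by
    rw [hk]
    have h1 : HasDerivAt (fun x => th x * G x)
      (2 * x / (1 + x ^ 2) ^ 2 * G x + th x * (sm f ε x - f x)) x := (th_d x).mul (dG x)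
    rw [h1.deriv]; ring
  have b1 : ∀ x, |2 * x / (1 + x ^ 2) ^ 2 * G x| ≤ 2 * ε := fun x => by
    rw [abs_mul]
    have := mul_le_mul (th_d1 x) (bG x) (abs_nonneg _) zero_le_one
    linarith
  have b2 : ∀ x, |(sm f ε x - f x) * th x| ≤ 4 := fun x => osc_bd sf.continuous bf ε0 x
  have c2 : Continuous fun x => (sm f ε x - f x) * th x := osc_cont sf.continuous ε
  have c1 : Continuous fun x : ℝ => 2 * x / (1 + x ^ 2) ^ 2 * G x := by
    have := sG.continuous
    have h2 : ∀ x : ℝ, (1 + x ^ 2) ^ 2 ≠ 0 := fun x => by positivity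
    fun_prop (disch := exact h2 _)
  have i1 : Integrable (fun x : ℝ => 2 * x / (1 + x ^ 2) ^ 2 * G x) (e n) :=
    Integrable.of_bound c1.aestronglyMeasurable (2 * ε) (ae_of_all _ b1)
  have i2 : Integrable (fun x => (sm f ε x - f x) * th x) (e n) :=
    Integrable.of_bound c2.aestronglyMeasurable 4 (ae_of_all _ b2)
  have hid := H.id n k (2 * ε) (2 * ε + 4) sk bk (fun x => by
    rw [dk]
    exact (abs_add_le _ _).trans (add_le_add (b1 x) (b2 x)))
  simp only [dk] at hid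
  have e1 : ∫ x, (2 * x / (1 + x ^ 2) ^ 2 * G x + (sm f ε x - f x) * th x) ∂(e n) =
      (∫ x, 2 * x / (1 + x ^ 2) ^ 2 * G x ∂(e n)) + ∫ x, (sm f ε x - f x) * th x ∂(e n) :=
    integral_add i1 i2
  rw [e1] at hid
  have a1 : |∫ x, 2 * x / (1 + x ^ 2) ^ 2 * G x ∂(e n)| ≤ 2 * ε * (M + C) := by
    refine (abs_integral_le_integral_abs).trans ?_
    have h1 : ∫ x, |2 * x / (1 + x ^ 2) ^ 2 * G x| ∂(e n) ≤ ∫ _, 2 * ε ∂(e n) :=
      integral_mono i1.abs (integrable_const _) b1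
    rw [integral_const, smul_eq_mul, mul_comm] at h1
    exact h1.trans (mul_le_mul_of_nonneg_left (H.emass n) (by positivity))
  have a2 : |∫ x, x * k x ∂(μ n)| ≤ 2 * ε * (V + M) := by
    refine (abs_integral_le_integral_abs).trans ?_
    have h1 : ∫ x, |x * k x| ∂(μ n) ≤ ∫ x, 2 * ε * |x| ∂(μ n) := by
      refine integral_mono_of_nonneg (ae_of_all _ fun x => abs_nonneg _)
        ((int_abs (H.sq n).1).const_mul _) (ae_of_all _ fun x => ?_)
      show |x * k x| ≤ 2 * ε * |x|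
      rw [abs_mul, mul_comm]
      exact mul_le_mul_of_nonneg_right (bk x) (abs_nonneg _)
    rw [integral_const_mul] at h1
    exact h1.trans (mul_le_mul_of_nonneg_left (x_bd (H.sq n).1 (H.sq n).2 (H.mass n).le)
      (by positivity))
  have a3 : 2 * ε * (C * h n) ≤ 2 * ε * C := by
    have := mul_le_mul_of_nonneg_left (H.hb n) C0
    have := mul_le_mul_of_nonneg_left (this) (by positivity : 0 ≤ 2 * ε)
    linarith
  have fin : |∫ x, (sm f ε x - f x) * th x ∂(e n)| ≤ ε * Q := by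
    have h1 := abs_le.1 (hid.trans a3)
    have h2 := abs_le.1 a1
    have h3 := abs_le.1 a2
    rw [hQ, abs_le]
    constructor
    · nlinarith [h1.1, h1.2, h2.1, h2.2, h3.1, h3.2]
    · nlinarith [h1.1, h1.2, h2.1, h2.2, h3.1, h3.2]
  refine fin.trans (le_of_eq ?_)
  rw [hε]
  field_simp

/-- **Gaussian limits imply strong decorrelation.** -/
theorem Pair.AC (H : Pair μ e V M C h) {v : ℝ≥0} (hv : v ≠ 0)
    (hA : ∀ g : ℝ →ᵇ ℝ, Tendsto (fun n => ∫ x, g x ∂(μ n)) atTop
      (𝓝 (V * ∫ x, g x ∂(gaussianReal 0 v))))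
    (hA2 : Tendsto (fun n => ∫ x, x ^ 2 ∂(μ n)) atTop (𝓝 (v * V))) {δ : ℝ} (hδ : 0 < δ) :
    ∀ᶠ n in atTop, ∀ g : ℝ → ℝ, Measurable g → (∀ x, |g x| ≤ 1) →
      |∫ x, g x ∂(e n) - v * ∫ x, g x ∂(μ n)| ≤ δ := by
  have fμ := H.fμ
  have fe := H.fe
  have M0 := H.M0
  have V0 := H.V0
  have v0 : 0 < (v : ℝ) := by exact_mod_cast pos_iff_ne_zero.2 hv
  have gI : ∀ (W : ℝ), 0 < W → ∀ f : ℝ → ℝ,
      ∫ x, f x ∂(ENNReal.ofReal W • gaussianReal 0 v) = W * ∫ x, f x ∂(gaussianReal 0 v) := by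
    intro W hW f
    rw [integral_smul_measure, ENNReal.toReal_ofReal hW.le, smul_eq_mul]
  have g0 : ∀ (W : ℝ), (ENNReal.ofReal W • gaussianReal 0 v) {0} = 0 := by
    intro W
    rw [Measure.smul_apply, gaussianReal_absolutelyContinuous 0 hv Real.volume_singleton,
      smul_zero]
  have gF : ∀ W : ℝ, IsFiniteMeasure (ENNReal.ofReal W • gaussianReal 0 v) := fun W =>
    Measure.smul_finite _ ENNReal.ofReal_ne_top
  have f1 := gF V
  have f2 := gF (v * V)
  have vV : 0 < (v : ℝ) * V := by positivity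
  have wμ : ∀ g : ℝ →ᵇ ℝ, Tendsto (fun n => ∫ x, g x ∂(μ n)) atTop
      (𝓝 (∫ x, g x ∂(ENNReal.ofReal V • gaussianReal 0 v))) := fun g => by
    rw [gI V V0]; exact hA g
  have i2 : Integrable (fun x => x ^ 2) (ENNReal.ofReal V • gaussianReal 0 v) :=
    (gauss_sq v).smul_measure ENNReal.ofReal_ne_top
  obtain ⟨M', hM'⟩ : ∃ M' : ℝ, M' = max M (∫ x, x ^ 2 ∂(ENNReal.ofReal V • gaussianReal 0 v)) :=
    ⟨_, rfl⟩
  have lin : ∀ k : ℝ → ℝ, Continuous k → (∀ x, |k x| ≤ |x|) →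
      Tendsto (fun n => ∫ x, k x ∂(μ n)) atTop (𝓝 (V * ∫ x, k x ∂(gaussianReal 0 v))) := by
    intro k ck hk
    rw [← gI V V0]
    exact wlin wμ (M := M') (fun n => ⟨(H.sq n).1, (H.sq n).2.trans (by rw [hM']; exact le_max_left _ _)⟩)
      ⟨i2, by rw [hM']; exact le_max_right _ _⟩ ck hk
  have lxs : ∀ t, Tendsto (fun n => xs (μ n) t) atTop
      (𝓝 (V * (v * t * Real.exp (-(v * t ^ 2 / 2))))) := by
    intro t
    rw [← gauss_xs]
    exact lin _ (by fun_prop) fun x => by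
      rw [abs_mul]; exact mul_le_of_le_one_right (abs_nonneg _) (Real.abs_sin_le_one _)
  have lxc : ∀ t, Tendsto (fun n => xc (μ n) t) atTop (𝓝 0) := by
    intro t
    have := lin (fun x => x * Real.cos (t * x)) (by fun_prop) fun x => by
      rw [abs_mul]; exact mul_le_of_le_one_right (abs_nonneg _) (Real.abs_cos_le_one _)
    have e : ∫ x, x * Real.cos (t * x) ∂(gaussianReal 0 v) = 0 := gauss_xc v t
    rw [e, mul_zero] at this
    exact this
  have we := levy_fin (τ := e) vV (v := v) (fun t => by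
      by_cases ht : t = 0
      · rw [ht]
        have e1 : ∀ n, cI (e n) 0 = (e n).real Set.univ := fun n => by unfold cI; simp
        have e2 : (v : ℝ) * V * Real.exp (-(v * (0 : ℝ) ^ 2 / 2)) = v * V := by simp
        rw [e2]
        simp only [e1]
        exact H.e_lim hA2
      · have h1 : Tendsto (fun n => t * cI (e n) t - xs (μ n) t) atTop (𝓝 0) :=
          squeeze_zero_norm (fun n => H.id_sin n t) H.Ch
        have h2 := (h1.add (lxs t)).const_mul t⁻¹
        have e2 : t⁻¹ * (0 + V * (v * t * Real.exp (-(v * t ^ 2 / 2)))) =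
            v * V * Real.exp (-(v * t ^ 2 / 2)) := by field_simp; ring
        rw [e2] at h2
        refine h2.congr fun n => ?_
        field_simp
        ring) (fun t => by
      by_cases ht : t = 0
      · rw [ht]
        have e1 : ∀ n, sI (e n) 0 = 0 := fun n => by unfold sI; simp
        simp only [e1]
        exact tendsto_const_nhds
      · have h1 : Tendsto (fun n => t * sI (e n) t + xc (μ n) t) atTop (𝓝 0) :=
          squeeze_zero_norm (fun n => H.id_cos n t) H.Ch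
        have h2 := (h1.sub (lxc t)).const_mul t⁻¹
        rw [sub_zero, mul_zero] at h2
        refine h2.congr fun n => ?_
        field_simp
        ring)
  have we' : ∀ g : ℝ →ᵇ ℝ, Tendsto (fun n => ∫ x, g x ∂(e n)) atTop
      (𝓝 (∫ x, g x ∂(ENNReal.ofReal (v * V) • gaussianReal 0 v))) := fun g => by
    rw [gI _ vV]; exact we g
  have t1 := tv_all H.osc wμ (g0 V) (by positivity : 0 < δ / (2 * ((v : ℝ) + 1)))
  have t2 := tv_all H.osce we' (g0 (v * V)) (by positivity : 0 < δ / 2)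
  filter_upwards [t1, t2] with n n1 n2 g mg g1
  have a1 := n1 g mg g1
  have a2 := n2 g mg g1
  rw [gI _ V0] at a1
  rw [gI _ vV] at a2
  have e1 : ∫ x, g x ∂(e n) - v * ∫ x, g x ∂(μ n) =
      (∫ x, g x ∂(e n) - v * V * ∫ x, g x ∂(gaussianReal 0 v)) -
        v * (∫ x, g x ∂(μ n) - V * ∫ x, g x ∂(gaussianReal 0 v)) := by ring
  rw [e1]
  refine (abs_sub _ _).trans ?_
  have a3 : |(v : ℝ) * (∫ x, g x ∂(μ n) - V * ∫ x, g x ∂(gaussianReal 0 v))| ≤ δ / 2 := by
    rw [abs_mul, abs_of_pos v0]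
    refine (mul_le_mul_of_nonneg_left a1 v0.le).trans ?_
    rw [← mul_div_assoc, div_le_div_iff₀ (by positivity) (by norm_num)]
    nlinarith
  linarith

end

end Pool.Agent.N252.TV
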