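import Pool.Agent.N252.TV.K
import Pool.Agent.N252.TV.O

/-!
Project TV (helper252): Gaussian limits and the decorrelation of energy, on a surface.
-/

set_option autoImplicit false
open MeasureTheory Filter Topology Complex ProbabilityTheory
open scoped ContDiff ENNReal NNReal BoundedContinuousFunction

namespace Pool.Agent.N252.TV

open Pool.Agent.W745.RW Pool.Agent.TH294.RS Pool.Agent.TH421.AC

noncomputable section

variable {X : Type*} [TopologicalSpace X] [MeasurableSpace X] {vol : Measure X}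

/-- a function in a chart, extended by zero -/
def pc (C : IsoChart X vol) (φ : ℂ → ℝ) : X → ℝ := C.c.source.indicator fun y => φ (C.c y)

/-- `E` is the energy density `|∇u|² / lam` -/
structure IsEn (A : ℕ → IsoChart X vol) (lam : ℝ) (u E : X → ℝ) : Prop where
  meas : Measurable E
  eq : ∀ i, ∀ z ∈ (A i).c.target, E ((A i).c.symm z) =
    PP (u ∘ (A i).c.symm) z / (lam * (A i).ρ z)

/-- nonnegative test functions -/
structure IsTe (A : ℕ → IsoChart X vol) (s : Finset ℕ) (φ : ℕ → ℂ → ℝ) (Φ : X → ℝ) : Prop where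
  tf : ∀ i ∈ s, TF (A i).c.target (φ i)
  nn : ∀ i ∈ s, ∀ z, 0 ≤ φ i z
  eq : ∀ x, Φ x = ∑ i ∈ s, pc (A i) (φ i) x

variable [BorelSpace X]

lemma pc_meas (C : IsoChart X vol) {φ : ℂ → ℝ} (hφ : Continuous φ) : Measurable (pc C φ) := by
  classical
  have h1 : ContinuousOn (fun y => φ (C.c y)) C.c.source := hφ.comp_continuousOn C.c.continuousOn
  have h2 := h1.measurable_piecewise (g := fun _ => (0 : ℝ)) continuousOn_const
    C.c.open_source.measurableSet
  unfold pc
  rw [← Set.piecewise_eq_indicator]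
  exact h2

lemma pc_int (C : IsoChart X vol) {φ : ℂ → ℝ} (hφ : Continuous φ) {F : X → ℝ}
    (hF : Measurable F) (hi : Integrable (fun z => φ z * F (C.c.symm z)) C.m) :
    Integrable (fun x => pc C φ x * F x) vol ∧
      ∫ x, pc C φ x * F x ∂vol = ∫ z, φ z * F (C.c.symm z) ∂C.m := by
  have mG : Measurable (fun x => pc C φ x * F x) := (pc_meas C hφ).mul hF
  have ae : ∀ᵐ z ∂C.m, z ∈ C.c.target := by
    have h1 : ∀ᵐ z ∂(volume.restrict C.c.target), z ∈ C.c.target :=
      ae_restrict_mem C.c.open_target.measurableSet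
    exact (withDensity_absolutelyContinuous _ _).ae_le h1
  have eq : ∀ᵐ z ∂C.m, φ z * F (C.c.symm z) = pc C φ (C.c.symm z) * F (C.c.symm z) := by
    filter_upwards [ae] with z hz
    unfold pc
    rw [Set.indicator_of_mem (C.c.map_target hz), C.c.right_inv hz]
  have h1 : IntegrableOn (fun x => pc C φ x * F x) C.c.source vol := by
    unfold IntegrableOn
    rw [← C.map, integrable_map_measure mG.aestronglyMeasurable C.aem']
    exact hi.congr eq
  have z0 : ∀ x, x ∉ C.c.source → pc C φ x * F x = 0 := fun x hx => by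
    unfold pc; rw [Set.indicator_of_notMem hx, zero_mul]
  refine ⟨?_, ?_⟩
  · refine (integrableOn_iff_integrable_of_support_subset fun x hx => ?_).1 h1
    by_contra h
    exact hx (z0 x h)
  · rw [← setIntegral_eq_integral_of_forall_compl_eq_zero z0, C.int mG.aestronglyMeasurable]
    exact integral_congr_ae (eq.mono fun z hz => hz.symm)

variable {A : ℕ → IsoChart X vol} {s : Finset ℕ} {φ : ℕ → ℂ → ℝ} {Φ : X → ℝ}

lemma IsTe.meas (T : IsTe A s φ Φ) : Measurable Φ := by
  have e : Φ = fun x => ∑ i ∈ s, pc (A i) (φ i) x := funext T.eq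
  rw [e]
  exact Finset.measurable_fun_sum _ fun i hi => pc_meas (A i) (T.tf i hi).1.continuous

omit [BorelSpace X] in
lemma IsTe.nnΦ (T : IsTe A s φ Φ) (x : X) : 0 ≤ Φ x := by
  rw [T.eq]
  exact Finset.sum_nonneg fun i hi => Set.indicator_nonneg (fun y _ => T.nn i hi _) x

omit [BorelSpace X] in
lemma IsTe.bd (T : IsTe A s φ Φ) : ∃ K : ℝ, 0 ≤ K ∧ ∀ x, Φ x ≤ K := by
  have h1 : ∀ i ∈ s, ∃ K : ℝ, 0 ≤ K ∧ ∀ z, φ i z ≤ K := by
    intro i hi
    obtain ⟨K, hK⟩ := (T.tf i hi).2.1.exists_bound_of_continuous (T.tf i hi).1.continuous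
    exact ⟨|K|, abs_nonneg _, fun z => (le_abs_self _).trans ((hK z).trans (le_abs_self _))⟩
  choose! K K0 hK using h1
  refine ⟨∑ i ∈ s, K i, Finset.sum_nonneg K0, fun x => ?_⟩
  rw [T.eq]
  refine Finset.sum_le_sum fun i hi => ?_
  unfold pc
  by_cases hx : x ∈ (A i).c.source
  · rw [Set.indicator_of_mem hx]; exact hK i hi _
  · rw [Set.indicator_of_notMem hx]; exact K0 i hi

lemma IsTe.int (T : IsTe A s φ Φ) {F : X → ℝ} (hF : Measurable F)
    (hi : ∀ i ∈ s, Integrable (fun z => φ i z * F ((A i).c.symm z)) (A i).m) :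
    Integrable (fun x => Φ x * F x) vol ∧
      ∫ x, Φ x * F x ∂vol = ∑ i ∈ s, ∫ z, φ i z * F ((A i).c.symm z) ∂(A i).m := by
  have e : (fun x => Φ x * F x) = fun x => ∑ i ∈ s, pc (A i) (φ i) x * F x := by
    funext x
    rw [T.eq, Finset.sum_mul]
  have h1 : ∀ i ∈ s, Integrable (fun x => pc (A i) (φ i) x * F x) vol := fun i his =>
    (pc_int (A i) (T.tf i his).1.continuous hF (hi i his)).1
  rw [e]
  refine ⟨integrable_finsetSum _ h1, ?_⟩
  rw [integral_finsetSum _ h1]
  exact Finset.sum_congr rfl fun i his =>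
    (pc_int (A i) (T.tf i his).1.continuous hF (hi i his)).2

/-- bounded functions of `u` -/
lemma te_bdd [IsFiniteMeasure vol] (T : IsTe A s φ Φ) {F : X → ℝ} (hF : Measurable F) {K : ℝ}
    (hK : ∀ x, |F x| ≤ K) : Integrable (fun x => Φ x * F x) vol ∧
      ∫ x, Φ x * F x ∂vol = ∑ i ∈ s, ∫ z, φ i z * F ((A i).c.symm z) ∂(A i).m := by
  refine T.int hF fun i hi => ?_
  have fm : IsFiniteMeasure (A i).m := (A i).fin
  have iφ : Integrable (φ i) (A i).m :=
    (T.tf i hi).1.continuous.integrable_of_hasCompactSupport (T.tf i hi).2.1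
  exact iφ.mul_bdd (c := K) (hF.comp_aemeasurable (A i).aem').aestronglyMeasurable
    (ae_of_all _ fun z => hK _)

omit [BorelSpace X] in
/-- integrability over a chart of continuous functions with compact support -/
lemma te_cont (C : IsoChart X vol) {φ : ℂ → ℝ} (hφ : TF C.c.target φ) {G : ℂ → ℝ}
    (hG : ContinuousOn G C.c.target) : Integrable (fun z => φ z * G z) C.m := by
  rw [IsoChart.m, integrable_withDensity_iff_integrable_smul₀' C.aer
    (ae_of_all _ fun z => ENNReal.ofReal_lt_top)]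
  have h1 : Integrable (fun z => φ z * (C.ρ z * G z)) := by
    refine rint (S := tsupport φ) hφ.2.1 (hφ.1.continuous.continuousOn.mul
      ((C.smooth.continuousOn.mono hφ.2.2).mul (hG.mono hφ.2.2))) fun z hz => ?_
    rw [image_eq_zero_of_notMem_tsupport hz, zero_mul]
  refine (integrableOn_congr_fun (fun z hz => ?_) C.c.open_target.measurableSet).2
    (h1.integrableOn (s := C.c.target))
  show (ENNReal.ofReal (C.ρ z)).toReal • (φ z * G z) = φ z * (C.ρ z * G z)
  rw [ENNReal.toReal_ofReal (C.pos z hz).le, smul_eq_mul]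
  ring

omit [BorelSpace X] in
/-- the energy integral in a chart -/
lemma te_en (C : IsoChart X vol) {φ : ℂ → ℝ} (hφ : TF C.c.target φ) {lam : ℝ} (hl : 0 < lam)
    {u E : X → ℝ} (su : ContDiffOn ℝ ∞ (u ∘ C.c.symm) C.c.target)
    (hE : ∀ z ∈ C.c.target, E (C.c.symm z) = PP (u ∘ C.c.symm) z / (lam * C.ρ z)) {g : ℝ → ℝ}
    (hg : Measurable g) {K : ℝ} (hK : ∀ x, |g x| ≤ K) :
    Integrable (fun z => φ z * (E (C.c.symm z) * g (u (C.c.symm z)))) C.m ∧
      ∫ z, φ z * (E (C.c.symm z) * g (u (C.c.symm z))) ∂C.m =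
        ∫ z, φ z * (g ((u ∘ C.c.symm) z) * (((√lam)⁻¹) ^ 2 * PP (u ∘ C.c.symm) z)) := by
  have hl2 : ((√lam)⁻¹) ^ 2 = lam⁻¹ := by rw [inv_pow, Real.sq_sqrt hl.le]
  have cP : ContinuousOn (fun z => PP (u ∘ C.c.symm) z / (lam * C.ρ z)) C.c.target := by
    have h1 : ContinuousOn (dX (u ∘ C.c.symm)) C.c.target :=
      (Pool.Agent.TH421.AC.rsd C.c.open_target su 1).continuousOn
    have h2 : ContinuousOn (dY (u ∘ C.c.symm)) C.c.target :=
      (Pool.Agent.TH421.AC.rsd C.c.open_target su I).continuousOn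
    exact ((h1.pow 2).add (h2.pow 2)).div (continuousOn_const.mul C.smooth.continuousOn)
      fun z hz => (mul_pos hl (C.pos z hz)).ne'
  have ae : ∀ᵐ z ∂C.m, z ∈ C.c.target := by
    have h1 : ∀ᵐ z ∂(volume.restrict C.c.target), z ∈ C.c.target :=
      ae_restrict_mem C.c.open_target.measurableSet
    exact (withDensity_absolutelyContinuous _ _).ae_le h1
  have mu : AEMeasurable (fun z => u (C.c.symm z)) C.m := by
    have h1 : AEMeasurable (fun z => u (C.c.symm z)) (volume.restrict C.c.target) :=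
      su.continuousOn.aemeasurable C.c.open_target.measurableSet
    exact h1.mono_ac (withDensity_absolutelyContinuous _ _)
  refine ⟨?_, ?_⟩
  · have h1 := (te_cont C hφ cP).mul_bdd (c := K)
      (hg.comp_aemeasurable mu).aestronglyMeasurable (ae_of_all _ fun z => hK _)
    refine h1.congr (ae.mono fun z hz => ?_)
    show φ z * (PP (u ∘ C.c.symm) z / (lam * C.ρ z)) * g (u (C.c.symm z)) =
      φ z * (E (C.c.symm z) * g (u (C.c.symm z)))
    rw [hE z hz]; ring
  · rw [C.intm, ← integral_indicator C.c.open_target.measurableSet]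
    congr 1
    funext z
    by_cases hz : z ∈ C.c.target
    · rw [Set.indicator_of_mem hz, hE z hz, hl2]
      have := (C.pos z hz).ne'
      show _ = φ z * (g (u (C.c.symm z)) * (lam⁻¹ * PP (u ∘ C.c.symm) z))
      field_simp
    · rw [Set.indicator_of_notMem hz, image_eq_zero_of_notMem_tsupport fun h => hz (hφ.2.2 h)]
      ring

/-- the law of `u` for the measure `Φ vol` -/
def muL (vol : Measure X) (Φ u : X → ℝ) : Measure ℝ :=
  (vol.withDensity fun x => ENNReal.ofReal (Φ x)).map u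

omit [BorelSpace X] in
lemma IsTe.nnE (T : IsTe A s φ Φ) {lam : ℝ} (hl : 0 < lam) {u E : X → ℝ}
    (hE : IsEn A lam u E) (x : X) : 0 ≤ Φ x * E x := by
  by_cases h : ∃ i ∈ s, x ∈ (A i).c.source
  · obtain ⟨i, -, hx⟩ := h
    refine mul_nonneg (T.nnΦ x) ?_
    have h1 := hE.eq i ((A i).c x) ((A i).c.map_source hx)
    rw [(A i).c.left_inv hx] at h1
    rw [h1]
    exact div_nonneg (PP_nn _ _) (mul_pos hl ((A i).pos _ ((A i).c.map_source hx))).le
  · push Not at h
    have : Φ x = 0 := by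
      rw [T.eq]
      refine Finset.sum_eq_zero fun i hi => ?_
      unfold pc
      rw [Set.indicator_of_notMem (h i hi)]
    rw [this, zero_mul]

omit [TopologicalSpace X] [BorelSpace X] in
lemma den_int {D u : X → ℝ} (hD : Measurable D) (h0 : ∀ x, 0 ≤ D x) (hu : Measurable u)
    {g : ℝ → ℝ} (hg : Measurable g) :
    ∫ x, g x ∂((vol.withDensity fun x => ENNReal.ofReal (D x)).map u) =
      ∫ x, D x * g (u x) ∂vol := by
  rw [integral_map hu.aemeasurable hg.aestronglyMeasurable,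
    integral_withDensity_eq_integral_toReal_smul₀ hD.ennreal_ofReal.aemeasurable
      (ae_of_all _ fun z => ENNReal.ofReal_lt_top)]
  congr 1
  funext x
  rw [ENNReal.toReal_ofReal (h0 x), smul_eq_mul]

/-- the energy identity on the surface -/
lemma sum_id [IsFiniteMeasure vol] (T : IsTe A s φ Φ) {lam : ℕ → ℝ}
    (hlam : Tendsto lam atTop atTop) {u E : ℕ → X → ℝ} (hu : ∀ n, IsEigen A (lam n) (u n))
    (hE : ∀ n, IsEn A (lam n) (u n) (E n)) {M : ℝ}
    (hM : ∀ n, MemLp (u n) 2 vol ∧ ∫ x, u n x ^ 2 ∂vol ≤ M) :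
    ∃ C : ℝ, 0 ≤ C ∧ ∀ᶠ n in atTop, Integrable (fun x => Φ x * E n x) vol ∧
      ∀ (f : ℝ → ℝ) (a b : ℝ), ContDiff ℝ ∞ f → 0 ≤ a → (∀ x, |f x| ≤ a * (1 + |x|)) →
        (∀ x, |deriv f x| ≤ b) →
        |(∫ x, Φ x * (E n x * deriv f (u n x)) ∂vol) - ∫ x, Φ x * (u n x * f (u n x)) ∂vol| ≤
          a * (C * (√(lam n))⁻¹) := by
  have h1 : ∀ i ∈ s, ∃ C : ℝ, 0 ≤ C ∧ ∀ᶠ n in atTop, ∀ (f : ℝ → ℝ) (a : ℝ), ContDiff ℝ ∞ f →
      0 ≤ a → (∀ x, |f x| ≤ a * (1 + |x|)) →
      |(∫ z, φ i z * (deriv f ((u n ∘ (A i).c.symm) z) *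
          (((√(lam n))⁻¹) ^ 2 * PP (u n ∘ (A i).c.symm) z))) -
        ∫ z, φ i z * ((A i).ρ z * ((u n ∘ (A i).c.symm) z * f ((u n ∘ (A i).c.symm) z)))| ≤
          a * (C * (√(lam n))⁻¹) := by
    intro i hi
    have tf := T.tf i hi
    obtain ⟨C3, C30, hC3⟩ := seq_nsol (A i).c.open_target (A i).smooth (A i).pos hlam
      (u := fun n => u n ∘ (A i).c.symm) (fun n => (hu n).smooth i) (fun n => (hu n).eq i)
      (loc_l2 (A i) (fun n => (hu n).smooth i) hM) (S := tsupport (φ i)) tf.2.1 tf.2.2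
    have cφ' : ∀ v, Continuous (fun z => fderiv ℝ (φ i) z v) := fun v =>
      ((tf.1.fderiv_right (m := ∞) le_rfl).clm_apply contDiff_const).continuous
    have kφ' : ∀ v, HasCompactSupport (fun z => fderiv ℝ (φ i) z v) := fun v =>
      tf.2.1.fderiv_apply ℝ v
    obtain ⟨K1, hK1⟩ := (kφ' 1).exists_bound_of_continuous (cφ' 1)
    obtain ⟨K2, hK2⟩ := (kφ' I).exists_bound_of_continuous (cφ' I)
    have A0 := ar_nn (tsupport (φ i))
    refine ⟨(|K1| + |K2|) * (ar (tsupport (φ i)) + 2 * C3), by positivity,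
      hC3.mono fun n hn f a sf a0 hf => ?_⟩
    exact hn.en tf.2.1 tf.2.2 tf le_rfl (M1 := |K1| + |K2|) (fun z => ⟨by
      have := hK1 z
      rw [Real.norm_eq_abs] at this
      linarith [le_abs_self K1, abs_nonneg K2], by
      have := hK2 z
      rw [Real.norm_eq_abs] at this
      linarith [le_abs_self K2, abs_nonneg K1]⟩) sf a0 hf
  choose! C C0 hC using h1
  refine ⟨∑ i ∈ s, C i, Finset.sum_nonneg C0, ?_⟩
  have h2 : ∀ᶠ n in atTop, ∀ i ∈ s, ∀ (f : ℝ → ℝ) (a : ℝ), ContDiff ℝ ∞ f →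
      0 ≤ a → (∀ x, |f x| ≤ a * (1 + |x|)) →
      |(∫ z, φ i z * (deriv f ((u n ∘ (A i).c.symm) z) *
          (((√(lam n))⁻¹) ^ 2 * PP (u n ∘ (A i).c.symm) z))) -
        ∫ z, φ i z * ((A i).ρ z * ((u n ∘ (A i).c.symm) z * f ((u n ∘ (A i).c.symm) z)))| ≤
          a * (C i * (√(lam n))⁻¹) := (Filter.eventually_all_finset s).2 hC
  filter_upwards [h2, hlam.eventually_gt_atTop 0] with n hn hl
  have en : ∀ (g : ℝ → ℝ) (b : ℝ), Measurable g → (∀ x, |g x| ≤ b) →
      Integrable (fun x => Φ x * (E n x * g (u n x))) vol ∧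
      ∫ x, Φ x * (E n x * g (u n x)) ∂vol = ∑ i ∈ s, ∫ z, φ i z *
        (g ((u n ∘ (A i).c.symm) z) * (((√(lam n))⁻¹) ^ 2 * PP (u n ∘ (A i).c.symm) z)) := by
    intro g b mg hb
    have h3 := T.int (F := fun x => E n x * g (u n x)) ((hE n).meas.mul (mg.comp (hu n).meas))
      fun i hi => (te_en (A i) (T.tf i hi) hl ((hu n).smooth i) ((hE n).eq i) mg hb).1
    refine ⟨h3.1, h3.2.trans (Finset.sum_congr rfl fun i hi => ?_)⟩
    exact (te_en (A i) (T.tf i hi) hl ((hu n).smooth i) ((hE n).eq i) mg hb).2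
  refine ⟨?_, fun f a b sf a0 hf hb => ?_⟩
  · have := (en (fun _ => 1) 1 measurable_const fun x => by simp).1
    simpa using this
  · have e1 := (en (deriv f) b (sf.continuous_deriv (by simp)).measurable hb).2
    have sU : ∀ i, ContDiffOn ℝ ∞ (u n ∘ (A i).c.symm) (A i).c.target := (hu n).smooth
    have e2 := (T.int (F := fun x => u n x * f (u n x))
      ((hu n).meas.mul (sf.continuous.measurable.comp (hu n).meas)) fun i hi =>
        te_cont (A i) (T.tf i hi) (G := fun z => (u n ∘ (A i).c.symm) z *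
          f ((u n ∘ (A i).c.symm) z)) ((sU i).continuousOn.mul
            (sf.continuous.comp_continuousOn (sU i).continuousOn))).2
    rw [e1, e2, Finset.sum_mul, Finset.mul_sum, ← Finset.sum_sub_distrib]
    refine (Finset.abs_sum_le_sum_abs _ _).trans (Finset.sum_le_sum fun i hi => ?_)
    have e3 : ∫ z, φ i z * (u n ((A i).c.symm z) * f (u n ((A i).c.symm z))) ∂(A i).m =
        ∫ z, φ i z * ((A i).ρ z * ((u n ∘ (A i).c.symm) z * f ((u n ∘ (A i).c.symm) z))) := by
      rw [(A i).intt (T.tf i hi)]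
      congr 1
      funext z
      show _ = φ i z * ((A i).ρ z * (u n ((A i).c.symm z) * f (u n ((A i).c.symm z))))
      ring
    rw [e3]
    exact hn i hi f a sf a0 hf

end

end Pool.Agent.N252.TV
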