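import Pool.Agent.N252.TV.M

/-!
Project TV (helper252): Gaussian limits and the decorrelation of energy, assembly.
-/

set_option autoImplicit false
open MeasureTheory Filter Topology Complex ProbabilityTheory
open scoped ContDiff ENNReal NNReal BoundedContinuousFunction

namespace Pool.Agent.N252.TV

open Pool.Agent.W745.RW Pool.Agent.TH294.RS Pool.Agent.TH421.AC

noncomputable section

variable {X : Type*} [TopologicalSpace X] [MeasurableSpace X] [BorelSpace X] {vol : Measure X}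
  {A : ℕ → IsoChart X vol} {s : Finset ℕ} {φ : ℕ → ℂ → ℝ} {Φ : X → ℝ}

lemma te_osc [IsFiniteMeasure vol] (T : IsTe A s φ Φ) {lam : ℕ → ℝ}
    (hlam : Tendsto lam atTop atTop) {u : ℕ → X → ℝ} (hu : ∀ n, IsEigen A (lam n) (u n)) {M : ℝ}
    (hM : ∀ n, MemLp (u n) 2 vol ∧ ∫ x, u n x ^ 2 ∂vol ≤ M) : ∀ δ : ℝ, 0 < δ → ∃ ε : ℝ, 0 < ε ∧
      ∀ᶠ n in atTop, Osc (muL vol Φ (u n)) ε δ := by
  have h1 : ∀ i ∈ s, ∃ D : ℝ, 0 ≤ D ∧ ∀ᶠ n in atTop, ∀ (g : ℝ → ℝ) (a b : ℝ), ContDiff ℝ ∞ g →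
      (∀ x, |g x| ≤ a) → (∀ x, |deriv g x| ≤ b) →
      |∫ z, φ i z * (th (u n ((A i).c.symm z)) * deriv g (u n ((A i).c.symm z))) ∂(A i).m| ≤
        D * (√(a * b) + a) := fun i hi => chart_reg hlam hu hM i (T.tf i hi)
  choose! D D0 hD using h1
  have h2 : ∀ᶠ n in atTop, ∀ i ∈ s, ∀ (g : ℝ → ℝ) (a b : ℝ), ContDiff ℝ ∞ g →
      (∀ x, |g x| ≤ a) → (∀ x, |deriv g x| ≤ b) →
      |∫ z, φ i z * (th (u n ((A i).c.symm z)) * deriv g (u n ((A i).c.symm z))) ∂(A i).m| ≤
        D i * (√(a * b) + a) := (Filter.eventually_all_finset s).2 hD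
  obtain ⟨W, hW⟩ : ∃ W : ℝ, W = ∑ i ∈ s, D i := ⟨_, rfl⟩
  have W0 : 0 ≤ W := by rw [hW]; exact Finset.sum_nonneg D0
  intro δ hδ
  obtain ⟨ε, hε⟩ : ∃ ε : ℝ, ε = min 1 ((δ / (5 * (W + 1))) ^ 2) := ⟨_, rfl⟩
  have ε0 : 0 < ε := by rw [hε]; exact lt_min one_pos (by positivity)
  have ε1 : ε ≤ 1 := by rw [hε]; exact min_le_left _ _
  have ε2 : √ε ≤ δ / (5 * (W + 1)) := by
    rw [Real.sqrt_le_left (by positivity), hε]
    exact min_le_right _ _
  have s0 := Real.sqrt_nonneg ε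
  have ss : √ε * √ε = ε := Real.mul_self_sqrt ε0.le
  have s1 : √ε ≤ 1 := Real.sqrt_le_one.2 ε1
  have Db : W * (√(2 * ε * 4) + 2 * ε) ≤ δ := by
    have h1 : √(2 * ε * 4) ≤ 3 * √ε := by
      rw [Real.sqrt_le_left (by positivity), mul_pow, Real.sq_sqrt ε0.le]
      linarith
    have h2 : 2 * ε ≤ 2 * √ε := by nlinarith
    have h3 : √(2 * ε * 4) + 2 * ε ≤ 5 * (δ / (5 * (W + 1))) := by linarith
    refine (mul_le_mul_of_nonneg_left h3 W0).trans ?_
    have e : W * (5 * (δ / (5 * (W + 1)))) = W / (W + 1) * δ := by field_simp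
    rw [e]
    have : W / (W + 1) ≤ 1 := by rw [div_le_one (by positivity)]; linarith
    nlinarith
  refine ⟨ε, ε0, h2.mono fun n hn f sf kf bf => ?_⟩
  have mF := FF_meas (hu n).meas sf.continuous ε
  rw [muL, den_int T.meas T.nnΦ (hu n).meas (osc_cont sf.continuous ε).measurable]
  have e1 := (te_bdd T mF (FF_bd (u n) sf.continuous bf ε0)).2
  have e2 : ∫ x, Φ x * ((sm f ε (u n x) - f (u n x)) * th (u n x)) ∂vol =
      ∑ i ∈ s, ∫ z, φ i z * FF (u n) f ε ((A i).c.symm z) ∂(A i).m := e1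
  rw [e2]
  refine (Finset.abs_sum_le_sum_abs _ _).trans (le_trans (Finset.sum_le_sum
    (g := fun i => D i * (√(2 * ε * 4) + 2 * ε)) fun i hi => ?_) ?_)
  · have hn1 := hn i hi (Gc f ε) (2 * ε) 4 (Gc_sm sf ε) (fun x => Gc_bd sf bf ε0 x) (fun x => by
      rw [(Gc_d sf ε x).deriv]
      have h1 := abs_sub (sm f ε x) (f x)
      have h2 := sm_bd sf.continuous bf ε0 x
      have h3 := bf x
      linarith)
    refine le_trans (le_of_eq ?_) hn1
    congr 2
    funext z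
    rw [(Gc_d sf ε _).deriv]
    unfold FF
    ring
  · rw [← Finset.sum_mul, ← hW]
    exact Db

/-- the energy law -/
def enL (vol : Measure X) (Φ E u : X → ℝ) : Measure ℝ :=
  (vol.withDensity fun x => ENNReal.ofReal (Φ x * E x)).map u

/-- the laws form a pair, after a shift -/
theorem mk_pair [IsFiniteMeasure vol] (T : IsTe A s φ Φ) (V0 : 0 < ∫ x, Φ x ∂vol) {lam : ℕ → ℝ}
    (hlam : Tendsto lam atTop atTop) {u E : ℕ → X → ℝ} (hu : ∀ n, IsEigen A (lam n) (u n))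
    (hE : ∀ n, IsEn A (lam n) (u n) (E n)) {M : ℝ}
    (hM : ∀ n, MemLp (u n) 2 vol ∧ ∫ x, u n x ^ 2 ∂vol ≤ M) :
    ∃ (N : ℕ) (M' C : ℝ) (h : ℕ → ℝ), (∀ n, N ≤ n → 0 < lam n ∧
      Integrable (fun x => Φ x * E n x) vol) ∧
      Pair (fun n => muL vol Φ (u (n + N))) (fun n => enL vol Φ (E (n + N)) (u (n + N)))
        (∫ x, Φ x ∂vol) M' C h := by
  obtain ⟨C, C0, hC⟩ := sum_id T hlam hu hE hM
  obtain ⟨K, K0, hK⟩ := T.bd
  obtain ⟨N, hN⟩ := eventually_atTop.1 (hC.and (hlam.eventually_ge_atTop 1))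
  have lN : ∀ n, 1 ≤ lam (n + N) := fun n => (hN _ (Nat.le_add_left _ _)).2
  have l0 : ∀ n, 0 < lam (n + N) := fun n => lt_of_lt_of_le one_pos (lN n)
  have iΦ : Integrable Φ vol := by
    have := (te_bdd T (F := fun _ => (1 : ℝ)) measurable_const (K := 1) fun x => by simp).1
    simpa using this
  have iE : ∀ n, Integrable (fun x => Φ x * E (n + N) x) vol := fun n =>
    (hN _ (Nat.le_add_left _ _)).1.1
  have mE : ∀ n, Measurable (fun x => Φ x * E n x) := fun n => T.meas.mul (hE n).meas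
  have eg : ∀ n {g : ℝ → ℝ}, Measurable g → ∫ x, g x ∂(enL vol Φ (E (n + N)) (u (n + N))) =
      ∫ x, Φ x * (E (n + N) x * g (u (n + N) x)) ∂vol := by
    intro n g hg
    rw [enL, den_int (mE _) (T.nnE (l0 n) (hE _)) (hu _).meas hg]
    congr 1
    funext x
    ring
  have mg : ∀ n {g : ℝ → ℝ}, Measurable g → ∫ x, g x ∂(muL vol Φ (u n)) =
      ∫ x, Φ x * g (u n x) ∂vol := fun n g hg => den_int T.meas T.nnΦ (hu n).meas hg
  have fin1 : ∀ n, IsFiniteMeasure (muL vol Φ (u n)) := by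
    intro n
    have := isFiniteMeasure_withDensity_ofReal iΦ.2
    unfold muL
    infer_instance
  have fin2 : ∀ n, IsFiniteMeasure (enL vol Φ (E (n + N)) (u (n + N))) := by
    intro n
    have := isFiniteMeasure_withDensity_ofReal (iE n).2
    unfold enL
    infer_instance
  have un : ∀ (τ : Measure ℝ), τ.real Set.univ = ∫ _, (1 : ℝ) ∂τ := fun τ => by simp
  have msq : Measurable (fun x : ℝ => x ^ 2) := measurable_id.pow_const 2
  have isq : ∀ n, Integrable (fun x => Φ x * u n x ^ 2) vol := by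
    intro n
    refine (((hM n).1.integrable_sq).const_mul K).mono'
      (T.meas.mul (msq.comp (hu n).meas)).aestronglyMeasurable (ae_of_all _ fun x => ?_)
    rw [Real.norm_eq_abs, abs_mul, abs_of_nonneg (T.nnΦ x), abs_of_nonneg (sq_nonneg _)]
    exact mul_le_mul_of_nonneg_right (hK x) (sq_nonneg _)
  refine ⟨N, K * M, C, fun n => (√(lam (n + N)))⁻¹, fun n hn => ?_, ?_⟩
  · obtain ⟨m, rfl⟩ := Nat.exists_eq_add_of_le hn
    rw [add_comm]
    exact ⟨l0 m, iE m⟩
  refine ⟨fun n => fin1 _, fin2, V0, fun n => ?_, fun n => ⟨?_, ?_⟩, ?_, fun n => ?_, fun n => ?_,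
    C0, fun n f a b sf fa fb => ?_, fun n => ?_, fun δ hδ => ?_⟩
  · rw [un, mg _ measurable_const]
    simp
  · have h1 : AEMeasurable (u (n + N)) (vol.withDensity fun x => ENNReal.ofReal (Φ x)) :=
      (hu _).meas.aemeasurable
    rw [muL, integrable_map_measure msq.aestronglyMeasurable h1,
      integrable_withDensity_iff_integrable_smul₀' T.meas.ennreal_ofReal.aemeasurable
        (ae_of_all _ fun z => ENNReal.ofReal_lt_top)]
    refine (isq (n + N)).congr (ae_of_all _ fun x => ?_)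
    show Φ x * u (n + N) x ^ 2 = (ENNReal.ofReal (Φ x)).toReal • (u (n + N) x ^ 2)
    rw [ENNReal.toReal_ofReal (T.nnΦ x), smul_eq_mul]
  · rw [mg _ msq]
    have h1 : ∫ x, Φ x * u (n + N) x ^ 2 ∂vol ≤ ∫ x, K * u (n + N) x ^ 2 ∂vol :=
      integral_mono (isq _) ((hM _).1.integrable_sq.const_mul K) fun x =>
        mul_le_mul_of_nonneg_right (hK x) (sq_nonneg _)
    rw [integral_const_mul] at h1
    exact h1.trans (mul_le_mul_of_nonneg_left (hM _).2 K0)
  · exact tendsto_inv_atTop_zero.comp (Real.tendsto_sqrt_atTop.comp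
      (hlam.comp (tendsto_add_atTop_nat N)))
  · exact inv_nonneg.2 (Real.sqrt_nonneg _)
  · exact inv_le_one_of_one_le₀ (Real.one_le_sqrt.2 (lN n))
  · have a0 : 0 ≤ a := (abs_nonneg _).trans (fa 0)
    have h1 := (hN _ (Nat.le_add_left N n)).1.2 f a b sf a0 (fun x => by
      have := fa x
      have h2 : 0 ≤ a * |x| := mul_nonneg a0 (abs_nonneg x)
      linarith) fb
    have mxf : Measurable (fun x => x * f x) := measurable_id.mul sf.continuous.measurable
    have e1 := mg (n + N) mxf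
    rw [eg n (sf.continuous_deriv (by simp)).measurable, e1]
    exact h1
  · have h1 := (hN _ (Nat.le_add_left N n)).1.2 (fun x => x) 1 1 contDiff_id zero_le_one
      (fun x => by linarith [abs_nonneg x]) (fun x => by simp)
    rw [one_mul] at h1
    rw [un, eg n measurable_const, mg _ msq]
    refine le_trans (le_of_eq ?_) h1
    congr 2
    · congr 1
      funext x
      simp
    · congr 1
      funext x
      ring
  · obtain ⟨ε, hε, h1⟩ := te_osc T hlam hu hM δ hδ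
    exact ⟨ε, hε, (tendsto_add_atTop_nat N).eventually h1⟩

end

end Pool.Agent.N252.TV
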