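import Pool.Agent.TH421.AC.Main

/-!
Project TV (helper252): integration by parts for a solution of `Δ U = - L ρ U`; the small gradient
inequality.
-/

set_option autoImplicit false
open MeasureTheory Filter Topology Complex
open scoped ContDiff ENNReal

namespace Pool.Agent.N252.TV

open Pool.Agent.W745.RW Pool.Agent.TH294.RS Pool.Agent.TH421.AC

noncomputable section

variable {B : Set ℂ}

/-- derivative along a line -/
lemma lineD {G : ℂ → ℝ} {z : ℂ} (hG : DifferentiableAt ℝ G z) (v : ℂ) :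
    HasDerivAt (fun t : ℝ => G (z + t • v)) (fderiv ℝ G z v) 0 :=
  hG.hasFDerivAt.hasLineDerivAt v

lemma fd_line {G : ℂ → ℝ} {z : ℂ} (hG : DifferentiableAt ℝ G z) {v : ℂ} {d : ℝ}
    (h : HasDerivAt (fun t : ℝ => G (z + t • v)) d 0) : fderiv ℝ G z v = d :=
  (lineD hG v).unique h

/-- symmetry of the second derivatives -/
lemma symm2 (hB : IsOpen B) {G : ℂ → ℝ} (hG : ContDiffOn ℝ ∞ G B) {z : ℂ} (hz : z ∈ B) (u v : ℂ) :
    fderiv ℝ (fun w => fderiv ℝ G w u) z v = fderiv ℝ (fun w => fderiv ℝ G w v) z u := by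
  have h1 : ContDiffAt ℝ ∞ G z := hG.contDiffAt (hB.mem_nhds hz)
  have h2 : DifferentiableAt ℝ (fderiv ℝ G) z :=
    (h1.fderiv_right (m := 1) (by norm_cast)).differentiableAt (by simp)
  have h3 : IsSymmSndFDerivAt ℝ G z := h1.isSymmSndFDerivAt (by
    rw [minSmoothness_of_isRCLikeNormedField]
    norm_cast)
  have e : ∀ a b : ℂ, fderiv ℝ (fun w => fderiv ℝ G w a) z b = fderiv ℝ (fderiv ℝ G) z b a := by
    intro a b
    rw [fderiv_clm_apply h2 (differentiableAt_const a)]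
    simp
  rw [e, e]
  exact h3.eq v u

lemma div0 (hB : IsOpen B) {φ : ℂ → ℝ} (hφ : TF B φ) {F : ℂ → ℝ} (hF : ContDiffOn ℝ ∞ F B)
    (v : ℂ) : Integrable (fun z => φ z * fderiv ℝ F z v) ∧
      Integrable (fun z => fderiv ℝ φ z v * F z) ∧
      ∫ z, φ z * fderiv ℝ F z v = - ∫ z, fderiv ℝ φ z v * F z := by
  obtain ⟨S, hS⟩ : ∃ S : Set ℂ, S = tsupport φ := ⟨_, rfl⟩
  have hSc : IsCompact S := by rw [hS]; exact hφ.2.1
  have hSB : S ⊆ B := by rw [hS]; exact hφ.2.2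
  have z0 : ∀ z, z ∉ S → φ z = 0 := fun z hz => image_eq_zero_of_notMem_tsupport (by rwa [hS] at hz)
  have z1 : ∀ z, z ∉ S → fderiv ℝ φ z v = 0 := fun z hz => by
    rw [fderiv_of_notMem_tsupport ℝ (by rwa [hS] at hz)]; rfl
  have cφ : Continuous φ := hφ.1.continuous
  have cφ' : Continuous (fun z => fderiv ℝ φ z v) :=
    ((hφ.1.fderiv_right (m := ∞) le_rfl).clm_apply contDiff_const).continuous
  have cF : ContinuousOn F S := hF.continuousOn.mono hSB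
  have cF' : ContinuousOn (fun z => fderiv ℝ F z v) S := (rsd hB hF v).continuousOn.mono hSB
  have i1 : Integrable (fun z => φ z * fderiv ℝ F z v) :=
    rint hSc (cφ.continuousOn.mul cF') fun z hz => by rw [z0 z hz, zero_mul]
  have i2 : Integrable (fun z => fderiv ℝ φ z v * F z) :=
    rint hSc (cφ'.continuousOn.mul cF) fun z hz => by rw [z1 z hz, zero_mul]
  refine ⟨i1, i2, ?_⟩
  obtain ⟨U, hU⟩ : ∃ U : ℂ → ℝ, U = fun z => φ z * F z := ⟨_, rfl⟩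
  have sU : ContDiffOn ℝ ∞ U B := by rw [hU]; exact hφ.1.contDiffOn.mul hF
  have zU : ∀ z, z ∉ S → U z = 0 := fun z hz => by rw [hU]; show φ z * _ = 0; rw [z0 z hz, zero_mul]
  have nhU : ∀ z, z ∉ S → U =ᶠ[𝓝 z] fun _ => 0 := by
    intro z hz
    filter_upwards [hSc.isClosed.isOpen_compl.mem_nhds (hz : z ∈ Sᶜ)] with w hw
    exact zU w hw
  have gU : ContDiff ℝ ∞ U := by
    refine contDiff_iff_contDiffAt.2 fun w => ?_
    by_cases hw : w ∈ B
    · exact sU.contDiffAt (hB.mem_nhds hw)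
    · exact contDiffAt_const.congr_of_eventuallyEq (nhU w fun h => hw (hSB h))
  obtain ⟨iU, jU⟩ := Pool.Agent.W366.RW.int_zero U gU (HasCompactSupport.intro hSc zU) v
  have key : ∀ z, fderiv ℝ U z v = φ z * fderiv ℝ F z v + fderiv ℝ φ z v * F z := by
    intro z
    by_cases hz : z ∈ B
    · have d1 : DifferentiableAt ℝ φ z := hφ.1.differentiable (by simp) z
      have d2 : DifferentiableAt ℝ F z := rdA hB hF hz
      rw [hU]
      rw [fderiv_fun_mul d1 d2]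
      simp only [add_apply, smul_apply, smul_eq_mul]
      ring
    · have hzS : z ∉ S := fun h => hz (hSB h)
      rw [z0 z hzS, z1 z hzS, (nhU z hzS).fderiv_eq]; simp
  simp only [key] at jU
  rw [integral_add i1 i2] at jU
  linarith

/-- the data of a solution -/
structure Sol (B : Set ℂ) (ρ : ℂ → ℝ) (L : ℝ) (U : ℂ → ℝ) : Prop where
  op : IsOpen B
  sr : ContDiffOn ℝ ∞ ρ B
  pos : ∀ z ∈ B, 0 < ρ z
  sm : ContDiffOn ℝ ∞ U B
  eq : ∀ z ∈ B, fderiv ℝ (fun w => fderiv ℝ U w 1) z 1 + fderiv ℝ (fun w => fderiv ℝ U w I) z I =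
    -(L * (ρ z * U z))

/-- first derivatives -/
def dX (U : ℂ → ℝ) (z : ℂ) : ℝ := fderiv ℝ U z 1
def dY (U : ℂ → ℝ) (z : ℂ) : ℝ := fderiv ℝ U z I

/-- `|∇U|²` -/
def PP (U : ℂ → ℝ) (z : ℂ) : ℝ := dX U z ^ 2 + dY U z ^ 2

/-- `|∇²U|²` -/
def AA (U : ℂ → ℝ) (z : ℂ) : ℝ := dX (dX U) z ^ 2 + 2 * dY (dX U) z ^ 2 + dY (dY U) z ^ 2

/-- `(|∇U|² + s²)^{1/2}` -/
def qq (U : ℂ → ℝ) (s : ℝ) (z : ℂ) : ℝ := √(PP U z + s ^ 2)

lemma PP_nn (U : ℂ → ℝ) (z : ℂ) : 0 ≤ PP U z := by unfold PP; positivity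
lemma AA_nn (U : ℂ → ℝ) (z : ℂ) : 0 ≤ AA U z := by unfold AA; positivity

lemma qq_sq (U : ℂ → ℝ) (s : ℝ) (z : ℂ) : qq U s z ^ 2 = PP U z + s ^ 2 :=
  Real.sq_sqrt (by have := PP_nn U z; positivity)

lemma qq_ge {s : ℝ} (hs : 0 < s) (U : ℂ → ℝ) (z : ℂ) : s ≤ qq U s z := by
  apply Real.le_sqrt_of_sq_le
  have := PP_nn U z
  linarith

variable {ρ U : ℂ → ℝ} {L : ℝ}

lemma Sol.sX (H : Sol B ρ L U) : ContDiffOn ℝ ∞ (dX U) B := rsd H.op H.sm 1
lemma Sol.sY (H : Sol B ρ L U) : ContDiffOn ℝ ∞ (dY U) B := rsd H.op H.sm I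
lemma Sol.sXX (H : Sol B ρ L U) : ContDiffOn ℝ ∞ (dX (dX U)) B := rsd H.op H.sX 1
lemma Sol.sXY (H : Sol B ρ L U) : ContDiffOn ℝ ∞ (dY (dX U)) B := rsd H.op H.sX I
lemma Sol.sYY (H : Sol B ρ L U) : ContDiffOn ℝ ∞ (dY (dY U)) B := rsd H.op H.sY I

lemma Sol.sPP (H : Sol B ρ L U) : ContDiffOn ℝ ∞ (PP U) B := (H.sX.pow 2).add (H.sY.pow 2)
lemma Sol.sAA (H : Sol B ρ L U) : ContDiffOn ℝ ∞ (AA U) B :=
  ((H.sXX.pow 2).add (contDiffOn_const.mul (H.sXY.pow 2))).add (H.sYY.pow 2)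

lemma Sol.sqq (H : Sol B ρ L U) {s : ℝ} (hs : 0 < s) : ContDiffOn ℝ ∞ (qq U s) B := by
  refine ContDiffOn.sqrt (H.sPP.add contDiffOn_const) fun z _ => ?_
  have := PP_nn U z
  positivity

/-- `∇Δ U` -/
lemma Sol.third (H : Sol B ρ L U) {z : ℂ} (hz : z ∈ B) :
    (dX (dX (dX U)) z + dY (dY (dX U)) z = -(L * (dX ρ z * U z + ρ z * dX U z))) ∧
    (dX (dY (dX U)) z + dY (dY (dY U)) z = -(L * (dY ρ z * U z + ρ z * dY U z))) := by
  have hev : (fun w => dX (dX U) w + dY (dY U) w) =ᶠ[𝓝 z] fun w => -(L * (ρ w * U w)) := by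
    filter_upwards [H.op.mem_nhds hz] with w hw
    exact H.eq w hw
  have dU := rdA H.op H.sm hz
  have dρ := rdA H.op H.sr hz
  have d1 := rdA H.op H.sXX hz
  have d2 := rdA H.op H.sYY hz
  have g : ∀ v, fderiv ℝ (dX (dX U)) z v + fderiv ℝ (dY (dY U)) z v =
      -(L * (fderiv ℝ ρ z v * U z + ρ z * fderiv ℝ U z v)) := by
    intro v
    have e1 := congrArg (fun T : ℂ →L[ℝ] ℝ => T v) hev.fderiv_eq
    have e2 : fderiv ℝ (fun w => dX (dX U) w + dY (dY U) w) z v =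
        fderiv ℝ (dX (dX U)) z v + fderiv ℝ (dY (dY U)) z v := by
      rw [fderiv_fun_add d1 d2]; rfl
    have e3 : fderiv ℝ (fun w => -(L * (ρ w * U w))) z v =
        -(L * (fderiv ℝ ρ z v * U z + ρ z * fderiv ℝ U z v)) := by
      have d3 : DifferentiableAt ℝ (fun w => ρ w * U w) z := dρ.mul dU
      rw [fderiv_fun_neg, fderiv_const_mul d3, fderiv_fun_mul dρ dU]
      simp only [neg_apply, add_apply, smul_apply, smul_eq_mul]
      ring
    rw [← e2, ← e3]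
    exact e1
  -- symmetry
  have hXY : (dY (dX U)) =ᶠ[𝓝 z] dX (dY U) := by
    filter_upwards [H.op.mem_nhds hz] with w hw
    exact symm2 H.op H.sm hw 1 I
  have s1 : dY (dY (dX U)) z = dX (dY (dY U)) z := by
    have e1 : dY (dY (dX U)) z = dY (dX (dY U)) z := by
      show fderiv ℝ (dY (dX U)) z I = fderiv ℝ (dX (dY U)) z I
      rw [hXY.fderiv_eq]
    rw [e1]
    exact symm2 H.op H.sY hz 1 I
  have s2 : dX (dY (dX U)) z = dY (dX (dX U)) z := symm2 H.op H.sX hz I 1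
  refine ⟨?_, ?_⟩
  · rw [s1]; exact g 1
  · rw [s2]; exact g I

/-- the vector field -/
def F1 (U : ℂ → ℝ) (s : ℝ) (z : ℂ) : ℝ :=
  (dX (dX U) z * dX U z + dY (dX U) z * dY U z) / (qq U s z + s)
def F2 (U : ℂ → ℝ) (s : ℝ) (z : ℂ) : ℝ :=
  (dY (dX U) z * dX U z + dY (dY U) z * dY U z) / (qq U s z + s)

lemma Sol.sF1 (H : Sol B ρ L U) {s : ℝ} (hs : 0 < s) : ContDiffOn ℝ ∞ (F1 U s) B :=
  ((H.sXX.mul H.sX).add (H.sXY.mul H.sY)).div ((H.sqq hs).add contDiffOn_const) fun z _ => by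
    have := qq_ge hs U z
    have h2 : 0 < qq U s z + s := by linarith
    exact h2.ne'

lemma Sol.sF2 (H : Sol B ρ L U) {s : ℝ} (hs : 0 < s) : ContDiffOn ℝ ∞ (F2 U s) B :=
  ((H.sXY.mul H.sX).add (H.sYY.mul H.sY)).div ((H.sqq hs).add contDiffOn_const) fun z _ => by
    have := qq_ge hs U z
    have h2 : 0 < qq U s z + s := by linarith
    exact h2.ne'

/-- the Bochner inequality -/
lemma Sol.boch (H : Sol B ρ L U) {s : ℝ} (hs : 0 < s) {z : ℂ} (hz : z ∈ B) :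
    AA U z * (s / (qq U s z * (qq U s z + s))) ≤ dX (F1 U s) z + dY (F2 U s) z +
      L * (ρ z * PP U z + U z * (dX ρ z * dX U z + dY ρ z * dY U z)) / (qq U s z + s) := by
  obtain ⟨t1, t2⟩ := H.third hz
  have qp : 0 < qq U s z := lt_of_lt_of_le hs (qq_ge hs U z)
  have dq : ∀ v, fderiv ℝ (qq U s) z v =
      (dX U z * fderiv ℝ (dX U) z v + dY U z * fderiv ℝ (dY U) z v) / qq U s z := by
    intro v
    apply fd_line (rdA H.op (H.sqq hs) hz)
    have a1 := lineD (rdA H.op H.sX hz) v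
    have a2 := lineD (rdA H.op H.sY hz) v
    have a3 := (((a1.pow 2).add (a2.pow 2)).add_const (s ^ 2)).sqrt (by
      have := PP_nn U z
      simp only [PP, Pi.add_apply, Pi.pow_apply, zero_smul, add_zero] at this ⊢
      positivity)
    refine a3.congr_deriv ?_
    simp only [Pi.add_apply, Pi.pow_apply, zero_smul, add_zero]
    have e : √(dX U z ^ 2 + dY U z ^ 2 + s ^ 2) = qq U s z := rfl
    rw [e]
    field_simp
    push_cast
    ring
  have dF1 : dX (F1 U s) z = ((dX (dX (dX U)) z * dX U z + dX (dX U) z * dX (dX U) z +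
      (dX (dY (dX U)) z * dY U z + dY (dX U) z * dX (dY U) z)) * (qq U s z + s) -
      (dX (dX U) z * dX U z + dY (dX U) z * dY U z) * dX (qq U s) z) / (qq U s z + s) ^ 2 := by
    apply fd_line (rdA H.op (H.sF1 hs) hz)
    have a1 := lineD (rdA H.op H.sX hz) 1
    have a2 := lineD (rdA H.op H.sY hz) 1
    have a3 := lineD (rdA H.op H.sXX hz) 1
    have a4 := lineD (rdA H.op H.sXY hz) 1
    have a5 := lineD (rdA H.op (H.sqq hs) hz) 1
    have a6 := (((a3.mul a1).add (a4.mul a2)).div (a5.add_const s) (by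
      simp only [zero_smul, add_zero]; positivity))
    refine a6.congr_deriv ?_
    simp only [Pi.add_apply, Pi.mul_apply, zero_smul, add_zero, dX, dY]
  have dF2 : dY (F2 U s) z = ((dY (dY (dX U)) z * dX U z + dY (dX U) z * dY (dX U) z +
      (dY (dY (dY U)) z * dY U z + dY (dY U) z * dY (dY U) z)) * (qq U s z + s) -
      (dY (dX U) z * dX U z + dY (dY U) z * dY U z) * dY (qq U s) z) / (qq U s z + s) ^ 2 := by
    apply fd_line (rdA H.op (H.sF2 hs) hz)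
    have a1 := lineD (rdA H.op H.sX hz) I
    have a2 := lineD (rdA H.op H.sY hz) I
    have a3 := lineD (rdA H.op H.sXY hz) I
    have a4 := lineD (rdA H.op H.sYY hz) I
    have a5 := lineD (rdA H.op (H.sqq hs) hz) I
    have a6 := (((a3.mul a1).add (a4.mul a2)).div (a5.add_const s) (by
      simp only [zero_smul, add_zero]; positivity))
    refine a6.congr_deriv ?_
    simp only [Pi.add_apply, Pi.mul_apply, zero_smul, add_zero, dX, dY]
  have s1 : dX (dY U) z = dY (dX U) z := (symm2 H.op H.sm hz 1 I).symm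
  have q1 : dX (qq U s) z = (dX U z * dX (dX U) z + dY U z * dY (dX U) z) / qq U s z := by
    rw [← s1]; exact dq 1
  have q2 : dY (qq U s) z = (dX U z * dY (dX U) z + dY U z * dY (dY U) z) / qq U s z := dq I
  rw [dF1, dF2, q1, q2, s1]
  have hq := qq_sq U s z
  obtain ⟨q, hq'⟩ : ∃ q, q = qq U s z := ⟨_, rfl⟩
  obtain ⟨x, hx⟩ : ∃ x, x = dX U z := ⟨_, rfl⟩
  obtain ⟨y, hy⟩ : ∃ y, y = dY U z := ⟨_, rfl⟩
  obtain ⟨a, ha⟩ : ∃ a, a = dX (dX U) z := ⟨_, rfl⟩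
  obtain ⟨b, hb⟩ : ∃ b, b = dY (dX U) z := ⟨_, rfl⟩
  obtain ⟨c, hc⟩ : ∃ c, c = dY (dY U) z := ⟨_, rfl⟩
  obtain ⟨k1, hk1⟩ : ∃ k, k = dX (dX (dX U)) z := ⟨_, rfl⟩
  obtain ⟨k2, hk2⟩ : ∃ k, k = dX (dY (dX U)) z := ⟨_, rfl⟩
  obtain ⟨k3, hk3⟩ : ∃ k, k = dY (dY (dX U)) z := ⟨_, rfl⟩
  obtain ⟨k4, hk4⟩ : ∃ k, k = dY (dY (dY U)) z := ⟨_, rfl⟩
  simp only [AA, PP] at hq ⊢
  rw [← hq', ← hx, ← hy] at hq
  rw [← hq', ← hx, ← hy, ← ha, ← hb, ← hc, ← hk1, ← hk2, ← hk3, ← hk4]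
  obtain ⟨R1, hR1⟩ : ∃ R, R = dX ρ z * U z + ρ z * x := ⟨_, rfl⟩
  obtain ⟨R2, hR2⟩ : ∃ R, R = dY ρ z * U z + ρ z * y := ⟨_, rfl⟩
  have eR : ρ z * (x ^ 2 + y ^ 2) + U z * (dX ρ z * x + dY ρ z * y) = R1 * x + R2 * y := by
    rw [hR1, hR2]; ring
  rw [eR]
  rw [← hk1, ← hk3, ← hx, ← hR1] at t1
  rw [← hk2, ← hk4, ← hy, ← hR2] at t2
  have e1 : k3 = -(L * R1) - k1 := by linarith
  have e2 : k4 = -(L * R2) - k2 := by linarith
  rw [e1, e2]
  have qp' : 0 < q := by rw [hq']; exact qp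
  have qs : 0 < q + s := by linarith
  have e3 : ((k1 * x + a * a + (k2 * y + b * b)) * (q + s) -
        (a * x + b * y) * ((x * a + y * b) / q)) / (q + s) ^ 2 +
      (((-(L * R1) - k1) * x + b * b + ((-(L * R2) - k2) * y + c * c)) * (q + s) -
        (b * x + c * y) * ((x * b + y * c) / q)) / (q + s) ^ 2 +
      L * (R1 * x + R2 * y) / (q + s) =
      (a ^ 2 + 2 * b ^ 2 + c ^ 2) / (q + s) -
        ((a * x + b * y) ^ 2 + (b * x + c * y) ^ 2) / (q * (q + s) ^ 2) := by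
    field_simp
    ring
  rw [e3]
  have e4 : (a ^ 2 + 2 * b ^ 2 + c ^ 2) * (s / (q * (q + s))) =
      (a ^ 2 + 2 * b ^ 2 + c ^ 2) / (q + s) -
        (a ^ 2 + 2 * b ^ 2 + c ^ 2) * (x ^ 2 + y ^ 2) / (q * (q + s) ^ 2) := by
    have : x ^ 2 + y ^ 2 = q ^ 2 - s ^ 2 := by linarith
    rw [this]
    field_simp
    ring
  rw [e4]
  have e5 : (a * x + b * y) ^ 2 + (b * x + c * y) ^ 2 ≤
      (a ^ 2 + 2 * b ^ 2 + c ^ 2) * (x ^ 2 + y ^ 2) := by
    nlinarith [sq_nonneg (a * y - b * x), sq_nonneg (b * y - c * x)]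
  have e6 : ((a * x + b * y) ^ 2 + (b * x + c * y) ^ 2) / (q * (q + s) ^ 2) ≤
      (a ^ 2 + 2 * b ^ 2 + c ^ 2) * (x ^ 2 + y ^ 2) / (q * (q + s) ^ 2) :=
    div_le_div_of_nonneg_right e5 (by positivity)
  linarith

end

end Pool.Agent.N252.TV
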