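import Pool.Agent.N252.TV.A

/-!
Project TV (helper252): the integrated small gradient inequality.
-/

set_option autoImplicit false
open MeasureTheory Filter Topology Complex
open scoped ContDiff ENNReal

namespace Pool.Agent.N252.TV

open Pool.Agent.W745.RW Pool.Agent.TH294.RS Pool.Agent.TH421.AC

noncomputable section

variable {B : Set ℂ} {ρ : ℂ → ℝ}

/-- a normalised solution with local bounds on the compact set `S` -/
structure NSol (B : Set ℂ) (ρ : ℂ → ℝ) (S : Set ℂ) (h C3 : ℝ) (U : ℂ → ℝ) : Prop where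
  h0 : 0 < h
  h1 : h ≤ 1
  c0 : 0 ≤ C3
  so : Sol B ρ (h ^ 2)⁻¹ U
  b0 : ∫ z in S, U z ^ 2 ≤ C3
  b1 : ∫ z in S, h ^ 2 * PP U z ≤ C3
  b2 : ∫ z in S, h ^ 4 * AA U z ≤ C3

/-- the local energy density -/
def EE (U : ℂ → ℝ) (h : ℝ) (z : ℂ) : ℝ := 1 + (U z ^ 2 + (h ^ 2 * PP U z + h ^ 4 * AA U z))

lemma EE_ge {U : ℂ → ℝ} {h : ℝ} (z : ℂ) : 1 ≤ EE U h z := by
  have h1 := PP_nn U z
  have h2 := AA_nn U z
  have h3 : 0 ≤ h ^ 2 * PP U z := by positivity
  have h4 : 0 ≤ h ^ 4 * AA U z := by positivity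
  unfold EE
  nlinarith [sq_nonneg (U z)]

/-- the area of a compact set -/
def ar (S : Set ℂ) : ℝ := ∫ _ in S, (1 : ℝ)

lemma ar_nn (S : Set ℂ) : 0 ≤ ar S := integral_nonneg fun _ => zero_le_one

lemma NSol.cE {S : Set ℂ} {h C3 : ℝ} {U : ℂ → ℝ} (H : NSol B ρ S h C3 U) (hSB : S ⊆ B) :
    ContinuousOn (EE U h) S :=
  continuousOn_const.add (((H.so.sm.continuousOn.mono hSB).pow 2).add
    ((continuousOn_const.mul (H.so.sPP.continuousOn.mono hSB)).add
      (continuousOn_const.mul (H.so.sAA.continuousOn.mono hSB))))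

lemma NSol.iE {S : Set ℂ} {h C3 : ℝ} {U : ℂ → ℝ} (H : NSol B ρ S h C3 U) (hS : IsCompact S)
    (hSB : S ⊆ B) : ∫ z in S, EE U h z ≤ ar S + 3 * C3 := by
  have c1 : ContinuousOn (fun _ : ℂ => (1 : ℝ)) S := continuousOn_const
  have c2 : ContinuousOn (fun z => U z ^ 2) S := (H.so.sm.continuousOn.mono hSB).pow 2
  have c3 : ContinuousOn (fun z => h ^ 2 * PP U z) S :=
    continuousOn_const.mul (H.so.sPP.continuousOn.mono hSB)
  have c4 : ContinuousOn (fun z => h ^ 4 * AA U z) S :=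
    continuousOn_const.mul (H.so.sAA.continuousOn.mono hSB)
  have i1 : IntegrableOn (fun _ : ℂ => (1 : ℝ)) S := c1.integrableOn_compact hS
  have i2 := c2.integrableOn_compact (μ := volume) hS
  have i3 := c3.integrableOn_compact (μ := volume) hS
  have i4 := c4.integrableOn_compact (μ := volume) hS
  have e : ∫ z in S, EE U h z = ar S + ((∫ z in S, U z ^ 2) +
      ((∫ z in S, h ^ 2 * PP U z) + ∫ z in S, h ^ 4 * AA U z)) := by
    unfold EE ar
    have e1 : ∫ z in S, (h ^ 2 * PP U z + h ^ 4 * AA U z) =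
      (∫ z in S, h ^ 2 * PP U z) + ∫ z in S, h ^ 4 * AA U z := integral_add i3 i4
    have e2 : ∫ z in S, (U z ^ 2 + (h ^ 2 * PP U z + h ^ 4 * AA U z)) =
      (∫ z in S, U z ^ 2) + ∫ z in S, (h ^ 2 * PP U z + h ^ 4 * AA U z) :=
        integral_add i2 (i3.add i4)
    have e3 : ∫ z in S, (1 + (U z ^ 2 + (h ^ 2 * PP U z + h ^ 4 * AA U z))) =
      (∫ _ in S, (1 : ℝ)) + ∫ z in S, (U z ^ 2 + (h ^ 2 * PP U z + h ^ 4 * AA U z)) :=
        integral_add i1 (i2.add (i3.add i4))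
    rw [e3, e2, e1]
  rw [e]
  have := H.b0
  have := H.b1
  have := H.b2
  linarith

/-- a function supported in `S` and bounded by the energy density -/
lemma NSol.bd {S : Set ℂ} {h C3 : ℝ} {U : ℂ → ℝ} (H : NSol B ρ S h C3 U) (hS : IsCompact S)
    (hSB : S ⊆ B) {F : ℂ → ℝ} {M : ℝ} (hM : 0 ≤ M) (hF : ContinuousOn F S)
    (h0 : ∀ z, z ∉ S → F z = 0) (hb : ∀ z ∈ S, F z ≤ M * EE U h z) :
    ∫ z, F z ≤ M * (ar S + 3 * C3) := by
  rw [out_int h0]
  have h1 : ∫ z in S, F z ≤ ∫ z in S, M * EE U h z :=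
    setIntegral_mono_on (hF.integrableOn_compact hS)
      ((continuousOn_const.mul (H.cE hSB)).integrableOn_compact hS) hS.measurableSet hb
  rw [integral_const_mul] at h1
  exact h1.trans (mul_le_mul_of_nonneg_left (H.iE hS hSB) hM)

lemma sq_half (x : ℝ) : |x| ≤ (1 + x ^ 2) / 2 := by
  rw [← sq_abs x]
  nlinarith [sq_nonneg (|x| - 1)]

/-- the pointwise bound -/
lemma pt_bd {U : ℂ → ℝ} {h s M : ℝ} (h0 : 0 < h) (h1 : h ≤ 1) (hs : 0 < s) {z : ℂ} {c cx' cy : ℝ}
    {r rx ry : ℝ} (hM : 0 ≤ M) (hc : |c| ≤ M) (hcx : |cx'| ≤ M) (hcy : |cy| ≤ M) (hr : |r| ≤ M)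
    (hrx : |rx| ≤ M) (hry : |ry| ≤ M) :
    h ^ 3 * (-(cx' * F1 U s z) - cy * F2 U s z + c * ((h ^ 2)⁻¹ *
      (r * PP U z + U z * (rx * dX U z + ry * dY U z)) / (qq U s z + s))) ≤
      (M + 2 * M ^ 2) * EE U h z := by
  have hq := qq_sq U s z
  have hqs := qq_ge hs U z
  have hP := PP_nn U z
  obtain ⟨q, hq'⟩ : ∃ q, q = qq U s z := ⟨_, rfl⟩
  rw [← hq'] at hq hqs
  have qp : 0 < q := by linarith
  obtain ⟨T, hT⟩ : ∃ T, T = q + s := ⟨_, rfl⟩
  have Tp : 0 < T := by linarith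
  have PT : PP U z ≤ T ^ 2 := by
    rw [hT]
    nlinarith
  have f1 : F1 U s z ^ 2 ≤ AA U z := by
    have : F1 U s z = (dX (dX U) z * dX U z + dY (dX U) z * dY U z) / T := by
      rw [hT, hq']; rfl
    rw [this, div_pow, div_le_iff₀ (by positivity)]
    have e1 : (dX (dX U) z * dX U z + dY (dX U) z * dY U z) ^ 2 ≤ AA U z * PP U z := by
      unfold AA PP
      nlinarith [sq_nonneg (dX (dX U) z * dY U z - dY (dX U) z * dX U z),
        mul_nonneg (sq_nonneg (dY (dX U) z)) (sq_nonneg (dX U z)),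
        mul_nonneg (sq_nonneg (dY (dX U) z)) (sq_nonneg (dY U z)),
        mul_nonneg (sq_nonneg (dY (dY U) z)) (sq_nonneg (dX U z)),
        mul_nonneg (sq_nonneg (dY (dY U) z)) (sq_nonneg (dY U z))]
    exact e1.trans (mul_le_mul_of_nonneg_left PT (AA_nn U z))
  have f2 : F2 U s z ^ 2 ≤ AA U z := by
    have : F2 U s z = (dY (dX U) z * dX U z + dY (dY U) z * dY U z) / T := by
      rw [hT, hq']; rfl
    rw [this, div_pow, div_le_iff₀ (by positivity)]
    have e1 : (dY (dX U) z * dX U z + dY (dY U) z * dY U z) ^ 2 ≤ AA U z * PP U z := by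
      unfold AA PP
      nlinarith [sq_nonneg (dY (dX U) z * dY U z - dY (dY U) z * dX U z),
        mul_nonneg (sq_nonneg (dX (dX U) z)) (sq_nonneg (dX U z)),
        mul_nonneg (sq_nonneg (dX (dX U) z)) (sq_nonneg (dY U z)),
        mul_nonneg (sq_nonneg (dY (dX U) z)) (sq_nonneg (dX U z)),
        mul_nonneg (sq_nonneg (dY (dX U) z)) (sq_nonneg (dY U z))]
    exact e1.trans (mul_le_mul_of_nonneg_left PT (AA_nn U z))
  have EEd : EE U h z = 1 + (U z ^ 2 + (h ^ 2 * PP U z + h ^ 4 * AA U z)) := rfl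
  have p2 : 0 ≤ h ^ 2 * PP U z := by positivity
  have a2 : 0 ≤ h ^ 4 * AA U z := by have := AA_nn U z; positivity
  have u2 : 0 ≤ U z ^ 2 := sq_nonneg _
  -- the terms with `F1`, `F2`
  have g : ∀ F : ℝ, F ^ 2 ≤ AA U z → ∀ c : ℝ, |c| ≤ M → h ^ 3 * (-(c * F)) ≤ M / 2 * EE U h z := by
    intro F hF c hc
    have e1 : h ^ 3 * (-(c * F)) ≤ |c| * (h * |h ^ 2 * F|) := by
      refine (le_abs_self _).trans (le_of_eq ?_)
      rw [abs_mul, abs_neg, abs_mul, abs_mul, abs_of_pos (by positivity : 0 < h ^ 3),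
        abs_of_pos (by positivity : 0 < h ^ 2)]
      ring
    have e2 : h * |h ^ 2 * F| ≤ |h ^ 2 * F| := mul_le_of_le_one_left (abs_nonneg _) h1
    have e3 : |h ^ 2 * F| ≤ (1 + h ^ 4 * AA U z) / 2 := by
      refine (sq_half _).trans ?_
      have : (h ^ 2 * F) ^ 2 = h ^ 4 * F ^ 2 := by ring
      rw [this]
      have := mul_le_mul_of_nonneg_left hF (by positivity : 0 ≤ h ^ 4)
      linarith
    have e4 : |c| * (h * |h ^ 2 * F|) ≤ M * ((1 + h ^ 4 * AA U z) / 2) :=
      mul_le_mul hc (e2.trans e3) (by positivity) hM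
    refine (e1.trans e4).trans ?_
    rw [EEd]
    nlinarith
  have g1 := g _ f1 _ hcx
  have g2 := g _ f2 _ hcy
  -- the zero order term
  have k1 : |h * (PP U z / T)| ≤ (1 + h ^ 2 * PP U z) / 2 := by
    refine (sq_half _).trans ?_
    have : (h * (PP U z / T)) ^ 2 ≤ h ^ 2 * PP U z := by
      rw [mul_pow]
      refine mul_le_mul_of_nonneg_left ?_ (by positivity)
      rw [div_pow, div_le_iff₀ (by positivity), sq (PP U z)]
      exact mul_le_mul_of_nonneg_left PT hP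
    linarith
  have k2 : |dX U z / T| ≤ 1 := by
    rw [abs_div, abs_of_pos Tp, div_le_one Tp]
    apply abs_le_of_sq_le_sq _ Tp.le
    refine le_trans ?_ PT
    unfold PP
    nlinarith [sq_nonneg (dY U z)]
  have k3 : |dY U z / T| ≤ 1 := by
    rw [abs_div, abs_of_pos Tp, div_le_one Tp]
    apply abs_le_of_sq_le_sq _ Tp.le
    refine le_trans ?_ PT
    unfold PP
    nlinarith [sq_nonneg (dX U z)]
  have k4 : h ^ 3 * (c * ((h ^ 2)⁻¹ * (r * PP U z + U z * (rx * dX U z + ry * dY U z)) /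
      (qq U s z + s))) = c * (r * (h * (PP U z / T)) + (h * U z) * (rx * (dX U z / T) +
        ry * (dY U z / T))) := by
    rw [← hq', ← hT]
    field_simp
  have k5 : |r * (h * (PP U z / T))| ≤ M * ((1 + h ^ 2 * PP U z) / 2) := by
    rw [abs_mul]; exact mul_le_mul hr k1 (abs_nonneg _) hM
  have k6 : |(h * U z) * (rx * (dX U z / T) + ry * (dY U z / T))| ≤ (1 + U z ^ 2) / 2 * (2 * M) := by
    rw [abs_mul]
    refine mul_le_mul ?_ ?_ (abs_nonneg _) (by positivity)
    · rw [abs_mul, abs_of_pos h0]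
      refine le_trans ?_ (sq_half (U z))
      exact mul_le_of_le_one_left (abs_nonneg _) h1
    · refine (abs_add_le _ _).trans ?_
      rw [abs_mul, abs_mul]
      have := mul_le_mul hrx k2 (abs_nonneg _) hM
      have := mul_le_mul hry k3 (abs_nonneg _) hM
      linarith
  have k7 : c * (r * (h * (PP U z / T)) + (h * U z) * (rx * (dX U z / T) + ry * (dY U z / T))) ≤
      M * (M * ((1 + h ^ 2 * PP U z) / 2) + (1 + U z ^ 2) / 2 * (2 * M)) := by
    refine (le_abs_self _).trans ?_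
    rw [abs_mul]
    refine mul_le_mul hc ((abs_add_le _ _).trans (add_le_add k5 k6)) (abs_nonneg _) hM
  have e : h ^ 3 * (-(cx' * F1 U s z) - cy * F2 U s z + c * ((h ^ 2)⁻¹ *
      (r * PP U z + U z * (rx * dX U z + ry * dY U z)) / (qq U s z + s))) =
      h ^ 3 * (-(cx' * F1 U s z)) + h ^ 3 * (-(cy * F2 U s z)) + h ^ 3 * (c * ((h ^ 2)⁻¹ *
      (r * PP U z + U z * (rx * dX U z + ry * dY U z)) / (qq U s z + s))) := by ring
  rw [e, k4]
  have M2 : 0 ≤ M ^ 2 := sq_nonneg M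
  have k8 : M * (M * ((1 + h ^ 2 * PP U z) / 2) + (1 + U z ^ 2) / 2 * (2 * M)) ≤
      2 * M ^ 2 * EE U h z := by
    rw [EEd]
    nlinarith [mul_nonneg M2 p2, mul_nonneg M2 a2, mul_nonneg M2 u2]
  linarith

/-- **The small gradient inequality.** -/
theorem small_grad (hB : IsOpen B) (hρ : ContDiffOn ℝ ∞ ρ B) {χ : ℂ → ℝ} (hχ : TF B χ)
    (hχ0 : ∀ z, 0 ≤ χ z) :
    ∃ C : ℝ, 0 ≤ C ∧ ∀ (h C3 : ℝ) (U : ℂ → ℝ), NSol B ρ (tsupport χ) h C3 U → ∀ σ : ℝ, 0 < σ →
      ∫ z, χ z * (h ^ 4 * AA U z / (h ^ 2 * PP U z + σ ^ 2)) ≤ C * (1 + C3) / σ := by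
  obtain ⟨S, hS⟩ : ∃ S : Set ℂ, S = tsupport χ := ⟨_, rfl⟩
  have hSc : IsCompact S := by rw [hS]; exact hχ.2.1
  have hSB : S ⊆ B := by rw [hS]; exact hχ.2.2
  have z0 : ∀ z, z ∉ S → χ z = 0 := fun z hz => image_eq_zero_of_notMem_tsupport (by rwa [hS] at hz)
  have z1 : ∀ v, ∀ z, z ∉ S → fderiv ℝ χ z v = 0 := fun v z hz => by
    rw [fderiv_of_notMem_tsupport ℝ (by rwa [hS] at hz)]; rfl
  have cχ : Continuous χ := hχ.1.continuous
  have cχ' : ∀ v, Continuous (fun z => fderiv ℝ χ z v) := fun v =>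
    ((hχ.1.fderiv_right (m := ∞) le_rfl).clm_apply contDiff_const).continuous
  have cρ : ContinuousOn ρ S := hρ.continuousOn.mono hSB
  have cρ' : ∀ v, ContinuousOn (fun z => fderiv ℝ ρ z v) S := fun v =>
    (rsd hB hρ v).continuousOn.mono hSB
  obtain ⟨M1, b1⟩ := hSc.exists_bound_of_continuousOn cχ.continuousOn
  obtain ⟨M2, b2⟩ := hSc.exists_bound_of_continuousOn (cχ' 1).continuousOn
  obtain ⟨M3, b3⟩ := hSc.exists_bound_of_continuousOn (cχ' I).continuousOn
  obtain ⟨M4, b4⟩ := hSc.exists_bound_of_continuousOn cρ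
  obtain ⟨M5, b5⟩ := hSc.exists_bound_of_continuousOn (cρ' 1)
  obtain ⟨M6, b6⟩ := hSc.exists_bound_of_continuousOn (cρ' I)
  obtain ⟨M, hM⟩ : ∃ M : ℝ, M = |M1| + |M2| + |M3| + |M4| + |M5| + |M6| := ⟨_, rfl⟩
  have M0 : 0 ≤ M := by rw [hM]; positivity
  have n1 := abs_nonneg M1
  have n2 := abs_nonneg M2
  have n3 := abs_nonneg M3
  have n4 := abs_nonneg M4
  have n5 := abs_nonneg M5
  have n6 := abs_nonneg M6
  have A0 := ar_nn S
  refine ⟨2 * ((M + 2 * M ^ 2) * (ar S + 3)), by positivity, fun h C3 U H σ hσ => ?_⟩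
  rw [← hS] at H
  have h0 := H.h0
  have C0 := H.c0
  obtain ⟨s, hs⟩ : ∃ s : ℝ, s = σ / h := ⟨_, rfl⟩
  have s0 : 0 < s := by rw [hs]; positivity
  have sF1 := H.so.sF1 s0
  have sF2 := H.so.sF2 s0
  obtain ⟨i1, j1, e1⟩ := div0 hB hχ sF1 1
  obtain ⟨i2, j2, e2⟩ := div0 hB hχ sF2 I
  have cq : ContinuousOn (qq U s) S := (H.so.sqq s0).continuousOn.mono hSB
  have qp : ∀ z, 0 < qq U s z := fun z => lt_of_lt_of_le s0 (qq_ge s0 U z)
  have cP : ContinuousOn (PP U) S := H.so.sPP.continuousOn.mono hSB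
  have cA : ContinuousOn (AA U) S := H.so.sAA.continuousOn.mono hSB
  have cU : ContinuousOn U S := H.so.sm.continuousOn.mono hSB
  have cX : ContinuousOn (dX U) S := H.so.sX.continuousOn.mono hSB
  have cY : ContinuousOn (dY U) S := H.so.sY.continuousOn.mono hSB
  obtain ⟨Z, hZ⟩ : ∃ Z : ℂ → ℝ, Z = fun z => (h ^ 2)⁻¹ *
      (ρ z * PP U z + U z * (dX ρ z * dX U z + dY ρ z * dY U z)) / (qq U s z + s) := ⟨_, rfl⟩
  have cZ : ContinuousOn Z S := by
    rw [hZ]
    refine (continuousOn_const.mul ((cρ.mul cP).add (cU.mul (((cρ' 1).mul cX).add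
      ((cρ' I).mul cY))))).div (cq.add continuousOn_const) fun z _ => ?_
    have := qp z
    positivity
  have iZ : Integrable (fun z => χ z * Z z) :=
    rint hSc (cχ.continuousOn.mul cZ) fun z hz => by rw [z0 z hz, zero_mul]
  -- the left side
  have cL : ContinuousOn (fun z => χ z * (h ^ 4 * AA U z / (h ^ 2 * PP U z + σ ^ 2))) S := by
    refine cχ.continuousOn.mul ((continuousOn_const.mul cA).div
      ((continuousOn_const.mul cP).add continuousOn_const) fun z _ => ?_)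
    have := PP_nn U z
    positivity
  have iL : Integrable (fun z => χ z * (h ^ 4 * AA U z / (h ^ 2 * PP U z + σ ^ 2))) :=
    rint hSc cL fun z hz => by rw [z0 z hz, zero_mul]
  have pt : ∀ z, χ z * (h ^ 4 * AA U z / (h ^ 2 * PP U z + σ ^ 2)) * σ ≤
      2 * h ^ 3 * (χ z * fderiv ℝ (F1 U s) z 1 + χ z * fderiv ℝ (F2 U s) z I + χ z * Z z) := by
    intro z
    by_cases hz : z ∈ B
    · have b := H.so.boch s0 hz
      have hq := qq_sq U s z
      have hqs := qq_ge s0 U z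
      have qz := qp z
      have Pz := PP_nn U z
      have Az := AA_nn U z
      have a1 : h ^ 4 * AA U z / (h ^ 2 * PP U z + σ ^ 2) * σ =
          h ^ 3 * (AA U z * (s / (qq U s z ^ 2))) := by
        have : σ = s * h := by rw [hs]; field_simp
        rw [hq, this]
        have : PP U z + s ^ 2 ≠ 0 := by positivity
        have h3 : h ^ 2 * PP U z + (s * h) ^ 2 ≠ 0 := by
          have : h ^ 2 * PP U z + (s * h) ^ 2 = h ^ 2 * (PP U z + s ^ 2) := by ring
          rw [this]; positivity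
        rw [div_mul_eq_mul_div, div_eq_iff h3]
        field_simp
        try ring
      have a2 : s / (qq U s z ^ 2) ≤ 2 * (s / (qq U s z * (qq U s z + s))) := by
        rw [← mul_div_assoc, div_le_div_iff₀ (by positivity) (by positivity)]
        nlinarith [mul_pos s0 qz, mul_nonneg (mul_pos s0 qz).le (sub_nonneg.2 hqs)]
      have a3 : AA U z * (s / (qq U s z ^ 2)) ≤
          2 * (dX (F1 U s) z + dY (F2 U s) z + Z z) := by
        have := mul_le_mul_of_nonneg_left a2 Az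
        rw [hZ]
        beta_reduce
        linarith
      have a4 : χ z * (h ^ 4 * AA U z / (h ^ 2 * PP U z + σ ^ 2)) * σ =
          χ z * h ^ 3 * (AA U z * (s / (qq U s z ^ 2))) := by
        rw [mul_assoc, a1]; ring
      rw [a4]
      have a5 := mul_le_mul_of_nonneg_left a3 (mul_nonneg (hχ0 z) (by positivity : 0 ≤ h ^ 3))
      refine a5.trans (le_of_eq ?_)
      simp only [dX, dY]
      ring
    · rw [z0 z fun h => hz (hSB h)]; simp
  have i12 : Integrable (fun z => χ z * fderiv ℝ (F1 U s) z 1 + χ z * fderiv ℝ (F2 U s) z I) :=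
    i1.add i2
  have i123 : Integrable (fun z => χ z * fderiv ℝ (F1 U s) z 1 + χ z * fderiv ℝ (F2 U s) z I +
    χ z * Z z) := i12.add iZ
  have tot := integral_mono (iL.mul_const σ) (i123.const_mul (2 * h ^ 3)) pt
  rw [integral_mul_const, integral_const_mul, integral_add i12 iZ, integral_add i1 i2, e1, e2]
    at tot
  have r1 : -∫ z, fderiv ℝ χ z 1 * F1 U s z = ∫ z, -(fderiv ℝ χ z 1 * F1 U s z) :=
    (integral_neg _).symm
  have r2 : -∫ z, fderiv ℝ χ z I * F2 U s z = ∫ z, -(fderiv ℝ χ z I * F2 U s z) :=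
    (integral_neg _).symm
  have r3 : (-∫ z, fderiv ℝ χ z 1 * F1 U s z) + (-∫ z, fderiv ℝ χ z I * F2 U s z) +
      ∫ z, χ z * Z z = ∫ z, (-(fderiv ℝ χ z 1 * F1 U s z) - fderiv ℝ χ z I * F2 U s z +
        χ z * Z z) := by
    rw [r1, r2]
    have k1 : Integrable (fun z => -(fderiv ℝ χ z 1 * F1 U s z)) := j1.neg
    have k2 : Integrable (fun z => -(fderiv ℝ χ z I * F2 U s z)) := j2.neg
    rw [← integral_add k1 k2]
    have k3 : Integrable (fun z => -(fderiv ℝ χ z 1 * F1 U s z) +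
      -(fderiv ℝ χ z I * F2 U s z)) := k1.add k2
    rw [← integral_add k3 iZ]
    congr 1
  rw [r3] at tot
  have r4 : 2 * h ^ 3 * (∫ z, (-(fderiv ℝ χ z 1 * F1 U s z) - fderiv ℝ χ z I * F2 U s z +
        χ z * Z z)) = 2 * ∫ z, h ^ 3 * (-(fderiv ℝ χ z 1 * F1 U s z) - fderiv ℝ χ z I * F2 U s z +
        χ z * Z z) := by
    rw [integral_const_mul]; ring
  rw [r4] at tot
  have cF1 : ContinuousOn (F1 U s) S := sF1.continuousOn.mono hSB
  have cF2 : ContinuousOn (F2 U s) S := sF2.continuousOn.mono hSB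
  have fin := H.bd hSc hSB (F := fun z => h ^ 3 * (-(fderiv ℝ χ z 1 * F1 U s z) -
    fderiv ℝ χ z I * F2 U s z + χ z * Z z)) (M := M + 2 * M ^ 2) (by positivity)
    (continuousOn_const.mul (((((cχ' 1).continuousOn.mul cF1).neg).sub
      ((cχ' I).continuousOn.mul cF2)).add (cχ.continuousOn.mul cZ)))
    (fun z hz => by rw [z0 z hz, z1 1 z hz, z1 I z hz]; simp)
    (fun z hz => by
      rw [hZ]
      refine pt_bd h0 H.h1 s0 M0 ?_ ?_ ?_ ?_ ?_ ?_
      · have := b1 z hz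
        rw [Real.norm_eq_abs] at this
        have := le_abs_self M1
        linarith
      · have := b2 z hz
        rw [Real.norm_eq_abs] at this
        have := le_abs_self M2
        linarith
      · have := b3 z hz
        rw [Real.norm_eq_abs] at this
        have := le_abs_self M3
        linarith
      · have := b4 z hz
        rw [Real.norm_eq_abs] at this
        have := le_abs_self M4
        linarith
      · have := b5 z hz
        rw [Real.norm_eq_abs] at this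
        have := le_abs_self M5
        show |fderiv ℝ ρ z 1| ≤ M
        linarith
      · have := b6 z hz
        rw [Real.norm_eq_abs] at this
        have := le_abs_self M6
        show |fderiv ℝ ρ z I| ≤ M
        linarith)
  rw [le_div_iff₀ hσ]
  refine tot.trans ?_
  have : (M + 2 * M ^ 2) * (ar S + 3 * C3) ≤ (M + 2 * M ^ 2) * (ar S + 3) * (1 + C3) := by
    have : 0 ≤ M + 2 * M ^ 2 := by positivity
    nlinarith [mul_nonneg this (mul_nonneg A0 C0)]
  linarith

end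

end Pool.Agent.N252.TV
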