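import Pool.Agent.N252.TV.B

/-!
Project TV (helper252): the regularity inequality for the law of a solution.
-/

set_option autoImplicit false
open MeasureTheory Filter Topology Complex
open scoped ContDiff ENNReal

namespace Pool.Agent.N252.TV

open Pool.Agent.W745.RW Pool.Agent.TH294.RS Pool.Agent.TH421.AC

noncomputable section

variable {B : Set ℂ} {ρ : ℂ → ℝ}

/-- the weight `x² / (1 + x²)` -/
def th (x : ℝ) : ℝ := x ^ 2 / (1 + x ^ 2)

lemma th_nn (x : ℝ) : 0 ≤ th x := by unfold th; positivity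

lemma th_le (x : ℝ) : th x ≤ x ^ 2 := by
  unfold th
  rw [div_le_iff₀ (by positivity)]
  nlinarith [sq_nonneg x, sq_nonneg (x ^ 2)]

lemma th_le_one (x : ℝ) : th x ≤ 1 := by
  unfold th
  rw [div_le_one (by positivity)]
  linarith

lemma th_le_abs (x : ℝ) : th x ≤ |x| := by
  unfold th
  rw [div_le_iff₀ (by positivity)]
  have h1 := abs_nonneg x
  have h2 := sq_abs x
  rw [← h2]
  nlinarith [sq_nonneg (|x| - 1), mul_nonneg h1 (sq_nonneg (|x| - 1))]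

lemma th_d (x : ℝ) : HasDerivAt th (2 * x / (1 + x ^ 2) ^ 2) x := by
  have h1 : HasDerivAt (fun x : ℝ => x ^ 2) (2 * x) x := by
    simpa using hasDerivAt_pow 2 x
  have h2 := h1.div (h1.const_add 1) (by positivity)
  refine h2.congr_deriv ?_
  congr 1
  ring

lemma th_d1 (x : ℝ) : |2 * x / (1 + x ^ 2) ^ 2| ≤ 1 := by
  rw [abs_div, abs_of_pos (by positivity : 0 < (1 + x ^ 2) ^ 2), div_le_one (by positivity), abs_mul,
    abs_two, ← sq_abs x]
  nlinarith [sq_nonneg (|x| - 1), sq_nonneg (|x| ^ 2), abs_nonneg x, sq_nonneg |x|]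

lemma th_sm : ContDiff ℝ ∞ th := by
  unfold th
  exact (contDiff_id.pow 2).div (contDiff_const.add (contDiff_id.pow 2)) fun x => by
    have : 0 < 1 + x ^ 2 := by positivity
    exact this.ne'

/-- the vector field -/
def W1 (k : ℝ → ℝ) (U : ℂ → ℝ) (s : ℝ) (z : ℂ) : ℝ := k (U z) * dX U z / (PP U z + s ^ 2)
def W2 (k : ℝ → ℝ) (U : ℂ → ℝ) (s : ℝ) (z : ℂ) : ℝ := k (U z) * dY U z / (PP U z + s ^ 2)

variable {U : ℂ → ℝ} {L : ℝ}

lemma Sol.sW1 (H : Sol B ρ L U) {k : ℝ → ℝ} (hk : ContDiff ℝ ∞ k) {s : ℝ} (hs : 0 < s) :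
    ContDiffOn ℝ ∞ (W1 k U s) B :=
  ((hk.comp_contDiffOn H.sm).mul H.sX).div (H.sPP.add contDiffOn_const) fun z _ => by
    have := PP_nn U z
    have h2 : 0 < PP U z + s ^ 2 := by positivity
    exact h2.ne'

lemma Sol.sW2 (H : Sol B ρ L U) {k : ℝ → ℝ} (hk : ContDiff ℝ ∞ k) {s : ℝ} (hs : 0 < s) :
    ContDiffOn ℝ ∞ (W2 k U s) B :=
  ((hk.comp_contDiffOn H.sm).mul H.sY).div (H.sPP.add contDiffOn_const) fun z _ => by
    have := PP_nn U z
    have h2 : 0 < PP U z + s ^ 2 := by positivity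
    exact h2.ne'

/-- the divergence -/
lemma Sol.divW (H : Sol B ρ L U) {k : ℝ → ℝ} (hk : ContDiff ℝ ∞ k) {s : ℝ} (hs : 0 < s) {z : ℂ}
    (hz : z ∈ B) : dX (W1 k U s) z + dY (W2 k U s) z =
      deriv k (U z) * (PP U z / (PP U z + s ^ 2)) + k (U z) *
        ((dX (dX U) z + dY (dY U) z) / (PP U z + s ^ 2) -
          2 * (dX (dX U) z * dX U z ^ 2 + 2 * (dY (dX U) z * (dX U z * dY U z)) +
            dY (dY U) z * dY U z ^ 2) / (PP U z + s ^ 2) ^ 2) := by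
  have Qp : 0 < PP U z + s ^ 2 := by
    have := PP_nn U z
    positivity
  have dk : ∀ x, HasDerivAt k (deriv k x) x := fun x =>
    (hk.differentiable (by simp) x).hasDerivAt
  have gen : ∀ v : ℂ, ∀ G : ℂ → ℝ, DifferentiableAt ℝ G z →
      HasDerivAt (fun t : ℝ => k (U (z + t • v)) * G (z + t • v) /
        (PP U (z + t • v) + s ^ 2))
      (((deriv k (U z) * fderiv ℝ U z v * G z + k (U z) * fderiv ℝ G z v) * (PP U z + s ^ 2) -
        k (U z) * G z * (2 * (dX U z * fderiv ℝ (dX U) z v) + 2 * (dY U z * fderiv ℝ (dY U) z v))) /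
        (PP U z + s ^ 2) ^ 2) 0 := by
    intro v G hG
    have a0 := lineD (rdA H.op H.sm hz) v
    have a1 := lineD (rdA H.op H.sX hz) v
    have a2 := lineD (rdA H.op H.sY hz) v
    have a3 := lineD hG v
    have a4 : HasDerivAt (fun t : ℝ => k (U (z + t • v))) (deriv k (U z) * fderiv ℝ U z v) 0 := by
      have := (dk (U (z + (0 : ℝ) • v))).comp (0 : ℝ) a0
      simp only [zero_smul, add_zero, Function.comp_def] at this
      exact this
    have a5 : HasDerivAt (fun t : ℝ => PP U (z + t • v) + s ^ 2)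
        (2 * (dX U z * fderiv ℝ (dX U) z v) + 2 * (dY U z * fderiv ℝ (dY U) z v)) 0 := by
      have := ((a1.pow 2).add (a2.pow 2)).add_const (s ^ 2)
      refine this.congr_deriv ?_
      simp only [zero_smul, add_zero]
      push_cast
      ring
    have a6 := (a4.mul a3).div a5 (by simp only [zero_smul, add_zero]; exact Qp.ne')
    refine a6.congr_deriv ?_
    simp only [zero_smul, add_zero, Pi.mul_apply]
  have e1 : dX (W1 k U s) z = _ := fd_line (rdA H.op (H.sW1 hk hs) hz)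
    (gen 1 (dX U) (rdA H.op H.sX hz))
  have e2 : dY (W2 k U s) z = _ := fd_line (rdA H.op (H.sW2 hk hs) hz)
    (gen I (dY U) (rdA H.op H.sY hz))
  rw [e1, e2]
  have s1 : fderiv ℝ (dY U) z 1 = dY (dX U) z := (symm2 H.op H.sm hz 1 I).symm
  rw [s1]
  show ((deriv k (U z) * dX U z * dX U z + k (U z) * dX (dX U) z) * (PP U z + s ^ 2) -
        k (U z) * dX U z * (2 * (dX U z * dX (dX U) z) + 2 * (dY U z * dY (dX U) z))) /
        (PP U z + s ^ 2) ^ 2 +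
      ((deriv k (U z) * dY U z * dY U z + k (U z) * dY (dY U) z) * (PP U z + s ^ 2) -
        k (U z) * dY U z * (2 * (dX U z * dY (dX U) z) + 2 * (dY U z * dY (dY U) z))) /
        (PP U z + s ^ 2) ^ 2 = _
  obtain ⟨Q, hQ⟩ : ∃ Q, Q = PP U z + s ^ 2 := ⟨_, rfl⟩
  have eP : PP U z = dX U z ^ 2 + dY U z ^ 2 := rfl
  rw [← hQ, eP]
  rw [← hQ] at Qp
  field_simp
  ring

/-- the algebra -/
lemma pt_reg {x y a b c u g g' h r r0 s σ M0 M1 φ χ M : ℝ} (h0 : 0 < h) (hs : σ = s * h)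
    (s0 : 0 < s) (r00 : 0 < r0) (hr : r0 ≤ r) (hg : |g| ≤ M0) (hg' : |g'| ≤ M1)
    (hφ : |φ| ≤ M * χ) (eq : a + c = -((h ^ 2)⁻¹ * (r * u))) :
    φ * (th u * g') ≤ φ * ((2 * u / (1 + u ^ 2) ^ 2 * g + th u * g') *
        ((x ^ 2 + y ^ 2) / (x ^ 2 + y ^ 2 + s ^ 2)) + th u * g * ((a + c) / (x ^ 2 + y ^ 2 + s ^ 2) -
          2 * (a * x ^ 2 + 2 * (b * (x * y)) + c * y ^ 2) / (x ^ 2 + y ^ 2 + s ^ 2) ^ 2)) +
      (M * (M0 * (8 / r0) + M1 * σ ^ 2 * (2 / r0 ^ 2)) *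
        (χ * (h ^ 4 * (a ^ 2 + 2 * b ^ 2 + c ^ 2) / (h ^ 2 * (x ^ 2 + y ^ 2) + σ ^ 2))) +
        M * M0 * χ) := by
  obtain ⟨P, hP⟩ : ∃ P, P = x ^ 2 + y ^ 2 := ⟨_, rfl⟩
  obtain ⟨A, hA⟩ : ∃ A, A = a ^ 2 + 2 * b ^ 2 + c ^ 2 := ⟨_, rfl⟩
  obtain ⟨Q, hQ⟩ : ∃ Q, Q = P + s ^ 2 := ⟨_, rfl⟩
  obtain ⟨N, hN⟩ : ∃ N, N = a * x ^ 2 + 2 * (b * (x * y)) + c * y ^ 2 := ⟨_, rfl⟩
  have P0 : 0 ≤ P := by rw [hP]; positivity
  have A0 : 0 ≤ A := by rw [hA]; positivity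
  have Q0 : 0 < Q := by rw [hQ]; positivity
  have M00 : 0 ≤ M0 := (abs_nonneg _).trans hg
  have M10 : 0 ≤ M1 := (abs_nonneg _).trans hg'
  have χ0 : 0 ≤ M * χ := (abs_nonneg _).trans hφ
  rw [← hP, ← hA, ← hQ, ← hN]
  have eQ : h ^ 2 * P + σ ^ 2 = h ^ 2 * Q := by rw [hQ, hs]; ring
  rw [eQ]
  have e1 : h ^ 4 * A / (h ^ 2 * Q) = h ^ 2 * A / Q := by
    field_simp
  rw [e1]
  obtain ⟨α, hα⟩ : ∃ α, α = √A := ⟨_, rfl⟩
  have α0 : 0 ≤ α := by rw [hα]; exact Real.sqrt_nonneg _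
  have α2 : α ^ 2 = A := by rw [hα]; exact Real.sq_sqrt A0
  have h2 : 0 < h ^ 2 := by positivity
  -- `u` is small compared with the Hessian
  have ue : r * u = -(h ^ 2 * (a + c)) := by rw [eq]; field_simp
  have u1 : |r * u| ≤ h ^ 2 * (2 * α) := by
    rw [ue, abs_neg, abs_mul, abs_of_pos h2]
    refine mul_le_mul_of_nonneg_left ?_ h2.le
    apply abs_le_of_sq_le_sq _ (by positivity)
    rw [mul_pow, α2, hA]
    nlinarith [sq_nonneg (a - c), sq_nonneg b, sq_nonneg a, sq_nonneg c]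
  have r1 : 0 < r := by linarith
  have u2 : |u| ≤ h ^ 2 * (2 * α) / r0 := by
    rw [le_div_iff₀ r00]
    rw [abs_mul, abs_of_pos r1] at u1
    nlinarith [abs_nonneg u]
  have u3 : u ^ 2 ≤ 2 / r0 ^ 2 * (h ^ 4 * A) := by
    have t1 : (r * u) ^ 2 ≤ 2 * (h ^ 4 * A) := by
      rw [ue, hA]
      have : (-(h ^ 2 * (a + c))) ^ 2 = h ^ 4 * (a + c) ^ 2 := by ring
      rw [this]
      have h4 : 0 ≤ h ^ 4 := by positivity
      nlinarith [mul_nonneg h4 (sq_nonneg (a - c)), mul_nonneg h4 (sq_nonneg b)]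
    have t2 : r0 ^ 2 * u ^ 2 ≤ (r * u) ^ 2 := by
      rw [mul_pow]
      refine mul_le_mul_of_nonneg_right ?_ (sq_nonneg u)
      nlinarith
    rw [div_mul_eq_mul_div, le_div_iff₀ (by positivity)]
    linarith
  have k1 : |th u * g| ≤ M0 * (h ^ 2 * (2 * α) / r0) := by
    rw [abs_mul, abs_of_nonneg (th_nn u), mul_comm]
    exact mul_le_mul hg ((th_le_abs u).trans u2) (th_nn u) M00
  have k2 : |(a + c) / Q| ≤ 2 * α / Q := by
    rw [abs_div, abs_of_pos Q0]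
    refine div_le_div_of_nonneg_right ?_ Q0.le
    apply abs_le_of_sq_le_sq _ (by positivity)
    rw [mul_pow, α2, hA]
    nlinarith [sq_nonneg (a - c), sq_nonneg b, sq_nonneg a, sq_nonneg c]
  have k3 : |2 * N / Q ^ 2| ≤ 2 * α / Q := by
    rw [abs_div, abs_of_pos (by positivity : 0 < Q ^ 2), div_le_div_iff₀ (by positivity) Q0]
    have n1 : |N| ≤ α * P := by
      apply abs_le_of_sq_le_sq _ (by positivity)
      rw [mul_pow, α2, hA, hP, hN]
      nlinarith [sq_nonneg (a * (x * y) - b * x ^ 2), sq_nonneg (b * y ^ 2 - c * (x * y)),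
        sq_nonneg (a * y ^ 2 - c * x ^ 2), sq_nonneg (b * (x ^ 2 - y ^ 2) - (a - c) * (x * y)),
        sq_nonneg (a * y ^ 2 - b * (x * y)), sq_nonneg (b * (x * y) - c * x ^ 2),
        sq_nonneg (b * x ^ 2 - a * (x * y)), sq_nonneg (c * (x * y) - b * y ^ 2)]
    rw [abs_mul, abs_two]
    have n2 : P ≤ Q := by rw [hQ]; nlinarith [sq_nonneg s]
    have n3 : α * P ≤ α * Q := mul_le_mul_of_nonneg_left n2 α0
    nlinarith [mul_le_mul_of_nonneg_right (n1.trans n3) Q0.le]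
  have k4 : |th u * g * ((a + c) / Q - 2 * N / Q ^ 2)| ≤ M0 * (8 / r0) * (h ^ 2 * A / Q) := by
    rw [abs_mul]
    have t1 : |(a + c) / Q - 2 * N / Q ^ 2| ≤ 4 * α / Q := by
      refine (abs_sub _ _).trans ((add_le_add k2 k3).trans (le_of_eq ?_))
      ring
    refine (mul_le_mul k1 t1 (abs_nonneg _) (by positivity)).trans (le_of_eq ?_)
    rw [← α2]
    field_simp
    ring
  have k5 : |2 * u / (1 + u ^ 2) ^ 2 * g * (P / Q)| ≤ M0 := by
    rw [abs_mul, abs_mul]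
    have t1 : |P / Q| ≤ 1 := by
      rw [abs_of_nonneg (by positivity), div_le_one Q0, hQ]
      nlinarith [sq_nonneg s]
    have t2 := mul_le_mul (th_d1 u) hg (abs_nonneg _) zero_le_one
    have t3 := mul_le_mul t2 t1 (abs_nonneg _) (by positivity)
    linarith
  have k6 : |th u * g' * (s ^ 2 / Q)| ≤ M1 * σ ^ 2 * (2 / r0 ^ 2) * (h ^ 2 * A / Q) := by
    rw [abs_mul, abs_mul, abs_of_nonneg (th_nn u), abs_of_nonneg (by positivity : 0 ≤ s ^ 2 / Q)]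
    have t1 : th u * |g'| ≤ 2 / r0 ^ 2 * (h ^ 4 * A) * M1 :=
      mul_le_mul ((th_le u).trans u3) hg' (abs_nonneg _) (by positivity)
    refine (mul_le_mul_of_nonneg_right t1 (by positivity)).trans (le_of_eq ?_)
    rw [hs]
    field_simp
  have id : th u * g' = ((2 * u / (1 + u ^ 2) ^ 2 * g + th u * g') * (P / Q) +
      th u * g * ((a + c) / Q - 2 * N / Q ^ 2)) + (-(th u * g * ((a + c) / Q - 2 * N / Q ^ 2)) -
        2 * u / (1 + u ^ 2) ^ 2 * g * (P / Q) + th u * g' * (s ^ 2 / Q)) := by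
    have : s ^ 2 / Q = 1 - P / Q := by
      rw [eq_sub_iff_add_eq, ← add_div, div_eq_one_iff_eq Q0.ne', hQ]; ring
    rw [this]; ring
  obtain ⟨R, hR⟩ : ∃ R, R = (-(th u * g * ((a + c) / Q - 2 * N / Q ^ 2)) -
        2 * u / (1 + u ^ 2) ^ 2 * g * (P / Q) + th u * g' * (s ^ 2 / Q)) := ⟨_, rfl⟩
  have hRb : |R| ≤ (M0 * (8 / r0) + M1 * σ ^ 2 * (2 / r0 ^ 2)) * (h ^ 2 * A / Q) + M0 := by
    rw [hR]
    refine (abs_add_le _ _).trans ?_
    have := abs_sub (-(th u * g * ((a + c) / Q - 2 * N / Q ^ 2)))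
      (2 * u / (1 + u ^ 2) ^ 2 * g * (P / Q))
    rw [abs_neg] at this
    linarith
  rw [← hR] at id
  have id2 : φ * (th u * g') = φ * ((2 * u / (1 + u ^ 2) ^ 2 * g + th u * g') * (P / Q) +
      th u * g * ((a + c) / Q - 2 * N / Q ^ 2)) + φ * R := by
    rw [← mul_add, ← id]
  rw [id2]
  have fin : φ * R ≤ M * χ * ((M0 * (8 / r0) + M1 * σ ^ 2 * (2 / r0 ^ 2)) * (h ^ 2 * A / Q) + M0) := by
    refine (le_abs_self _).trans ?_
    rw [abs_mul]
    exact mul_le_mul hφ hRb (abs_nonneg _) χ0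
  have e : M * χ * ((M0 * (8 / r0) + M1 * σ ^ 2 * (2 / r0 ^ 2)) * (h ^ 2 * A / Q) + M0) =
      M * (M0 * (8 / r0) + M1 * σ ^ 2 * (2 / r0 ^ 2)) * (χ * (h ^ 2 * A / Q)) + M * M0 * χ := by ring
  rw [e] at fin
  linarith

end

end Pool.Agent.N252.TV
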