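import Pool.Agent.N252.TV.C

/-!
Project TV (helper252): the regularity inequality for the law of a solution, integrated.
-/

set_option autoImplicit false
open MeasureTheory Filter Topology Complex
open scoped ContDiff ENNReal

namespace Pool.Agent.N252.TV

open Pool.Agent.W745.RW Pool.Agent.TH294.RS Pool.Agent.TH421.AC

noncomputable section

variable {B : Set ℂ} {ρ : ℂ → ℝ}

lemma exists_low {S : Set ℂ} (hS : IsCompact S) (hρ : ContinuousOn ρ S) (h0 : ∀ z ∈ S, 0 < ρ z) :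
    ∃ r : ℝ, 0 < r ∧ ∀ z ∈ S, r ≤ ρ z := by
  rcases S.eq_empty_or_nonempty with h | h
  · exact ⟨1, one_pos, fun z hz => by rw [h] at hz; exact absurd hz (Set.notMem_empty z)⟩
  · obtain ⟨z, hz, hm⟩ := hS.exists_isMinOn h hρ
    exact ⟨ρ z, h0 z hz, fun w hw => hm hw⟩

/-- **The regularity inequality**, one sided. -/
theorem reg1 (hB : IsOpen B) (hρ : ContDiffOn ℝ ∞ ρ B) (hρ0 : ∀ z ∈ B, 0 < ρ z) {φ : ℂ → ℝ}
    (hφ : TF B φ) : ∃ (S : Set ℂ) (C : ℝ), IsCompact S ∧ S ⊆ B ∧ 0 ≤ C ∧ tsupport φ ⊆ S ∧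
      ∀ (h C3 : ℝ) (U : ℂ → ℝ), NSol B ρ S h C3 U → ∀ (g : ℝ → ℝ) (M0 M1 σ : ℝ),
        ContDiff ℝ ∞ g → (∀ x, |g x| ≤ M0) → (∀ x, |deriv g x| ≤ M1) → 0 < σ →
        ∫ z, φ z * (th (U z) * deriv g (U z)) ≤ C * (1 + C3) * (M0 / σ + M0 + M1 * σ) := by
  obtain ⟨χ, hχ, hχ1, hχ0, hχ2⟩ := exists_cut hB hφ.2.1 hφ.2.2
  obtain ⟨C, C0, key⟩ := small_grad hB hρ hχ hχ0
  obtain ⟨S, hS⟩ : ∃ S : Set ℂ, S = tsupport χ := ⟨_, rfl⟩
  have hSc : IsCompact S := by rw [hS]; exact hχ.2.1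
  have hSB : S ⊆ B := by rw [hS]; exact hχ.2.2
  obtain ⟨T, hT⟩ : ∃ T : Set ℂ, T = tsupport φ := ⟨_, rfl⟩
  have hTc : IsCompact T := by rw [hT]; exact hφ.2.1
  have hTB : T ⊆ B := by rw [hT]; exact hφ.2.2
  have hTS : T ⊆ S := fun z hz => by
    rw [hS]
    apply subset_tsupport
    rw [Function.mem_support, hχ1 z (by rw [hT] at hz; exact hz)]
    exact one_ne_zero
  have z0 : ∀ z, z ∉ T → φ z = 0 := fun z hz => image_eq_zero_of_notMem_tsupport (by rwa [hT] at hz)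
  have z1 : ∀ v, ∀ z, z ∉ T → fderiv ℝ φ z v = 0 := fun v z hz => by
    rw [fderiv_of_notMem_tsupport ℝ (by rwa [hT] at hz)]; rfl
  have x0 : ∀ z, z ∉ S → χ z = 0 := fun z hz => image_eq_zero_of_notMem_tsupport (by rwa [hS] at hz)
  have cφ : Continuous φ := hφ.1.continuous
  have cχ : Continuous χ := hχ.1.continuous
  have cφ' : ∀ v, Continuous (fun z => fderiv ℝ φ z v) := fun v =>
    ((hφ.1.fderiv_right (m := ∞) le_rfl).clm_apply contDiff_const).continuous
  obtain ⟨M1', b1⟩ := hTc.exists_bound_of_continuousOn cφ.continuousOn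
  obtain ⟨M2', b2⟩ := hTc.exists_bound_of_continuousOn (cφ' 1).continuousOn
  obtain ⟨M3', b3⟩ := hTc.exists_bound_of_continuousOn (cφ' I).continuousOn
  obtain ⟨M, hM⟩ : ∃ M : ℝ, M = |M1'| + |M2'| + |M3'| := ⟨_, rfl⟩
  have n1 := abs_nonneg M1'
  have n2 := abs_nonneg M2'
  have n3 := abs_nonneg M3'
  have MM0 : 0 ≤ M := by rw [hM]; positivity
  have A0 := ar_nn S
  obtain ⟨r0, r00, hr0⟩ := exists_low hSc (hρ.continuousOn.mono hSB) fun z hz => hρ0 z (hSB hz)
  refine ⟨S, 2 * M * (ar S + 3) + M * C * (8 / r0) + M * C * (2 / r0 ^ 2) + M * ar S, hSc, hSB,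
    by positivity, by rw [← hT]; exact hTS, fun h C3 U H g M0 M1 σ hg g0 g1 hσ => ?_⟩
  have h0 := H.h0
  have C30 := H.c0
  have M00 : 0 ≤ M0 := (abs_nonneg _).trans (g0 0)
  have M10 : 0 ≤ M1 := (abs_nonneg _).trans (g1 0)
  obtain ⟨s, hs⟩ : ∃ s : ℝ, s = σ / h := ⟨_, rfl⟩
  have s0 : 0 < s := by rw [hs]; positivity
  have hσs : σ = s * h := by rw [hs]; field_simp
  have hK := key h C3 U (by rw [← hS]; exact H) σ hσ
  obtain ⟨k, hk⟩ : ∃ k : ℝ → ℝ, k = fun x => th x * g x := ⟨_, rfl⟩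
  have sk : ContDiff ℝ ∞ k := by rw [hk]; exact th_sm.mul hg
  have dk : ∀ x, deriv k x = 2 * x / (1 + x ^ 2) ^ 2 * g x + th x * deriv g x := by
    intro x
    rw [hk]
    exact ((th_d x).mul (hg.differentiable (by simp) x).hasDerivAt).deriv
  have sW1 := H.so.sW1 sk s0
  have sW2 := H.so.sW2 sk s0
  obtain ⟨i1, j1, e1⟩ := div0 hB hφ sW1 1
  obtain ⟨i2, j2, e2⟩ := div0 hB hφ sW2 I
  have cP : ContinuousOn (PP U) S := H.so.sPP.continuousOn.mono hSB
  have cA : ContinuousOn (AA U) S := H.so.sAA.continuousOn.mono hSB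
  have cU : ContinuousOn U S := H.so.sm.continuousOn.mono hSB
  have cg' : Continuous (deriv g) := hg.continuous_deriv (by simp)
  have iL : Integrable (fun z => φ z * (th (U z) * deriv g (U z))) :=
    rint hSc (cφ.continuousOn.mul ((th_sm.continuous.comp_continuousOn cU).mul
      (cg'.comp_continuousOn cU))) fun z hz => by
        rw [z0 z fun h => hz (hTS h), zero_mul]
  have iG : Integrable (fun z => χ z * (h ^ 4 * AA U z / (h ^ 2 * PP U z + σ ^ 2))) := by
    refine rint hSc (cχ.continuousOn.mul ((continuousOn_const.mul cA).div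
      ((continuousOn_const.mul cP).add continuousOn_const) fun z _ => ?_)) fun z hz => by
        rw [x0 z hz, zero_mul]
    have := PP_nn U z
    positivity
  have iχ : Integrable χ := cχ.integrable_of_hasCompactSupport hχ.2.1
  have pt : ∀ z, φ z * (th (U z) * deriv g (U z)) ≤
      φ z * fderiv ℝ (W1 k U s) z 1 + φ z * fderiv ℝ (W2 k U s) z I +
      (M * (M0 * (8 / r0) + M1 * σ ^ 2 * (2 / r0 ^ 2)) *
        (χ z * (h ^ 4 * AA U z / (h ^ 2 * PP U z + σ ^ 2))) + M * M0 * χ z) := by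
    intro z
    by_cases hz : z ∈ T
    · have hzB := hTB hz
      have dv := H.so.divW sk s0 hzB
      have hb : |φ z| ≤ M * χ z := by
        rw [hχ1 z (by rw [hT] at hz; exact hz), mul_one]
        have := b1 z hz
        rw [Real.norm_eq_abs] at this
        have := le_abs_self M1'
        linarith
      have p := pt_reg (x := dX U z) (y := dY U z) (a := dX (dX U) z) (b := dY (dX U) z)
        (c := dY (dY U) z) (u := U z) h0 hσs s0 r00 (hr0 z (hTS hz)) (g0 (U z)) (g1 (U z)) hb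
        (H.so.eq z hzB)
      refine p.trans (le_of_eq ?_)
      have e3 : φ z * fderiv ℝ (W1 k U s) z 1 + φ z * fderiv ℝ (W2 k U s) z I =
          φ z * (dX (W1 k U s) z + dY (W2 k U s) z) := by
        simp only [dX, dY]; ring
      have e4 : k (U z) = th (U z) * g (U z) := by rw [hk]
      rw [e3, dv, dk, e4]
      simp only [PP, AA]
    · rw [z0 z hz]
      have h1 := AA_nn U z
      have h2 := PP_nn U z
      have h3 := hχ0 z
      simp only [zero_mul, zero_add]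
      positivity
  have i12 : Integrable (fun z => φ z * fderiv ℝ (W1 k U s) z 1 +
      φ z * fderiv ℝ (W2 k U s) z I) := i1.add i2
  have i3 : Integrable (fun z => M * (M0 * (8 / r0) + M1 * σ ^ 2 * (2 / r0 ^ 2)) *
        (χ z * (h ^ 4 * AA U z / (h ^ 2 * PP U z + σ ^ 2)))) := iG.const_mul _
  have i4 : Integrable (fun z => M * M0 * χ z) := iχ.const_mul _
  have i34 : Integrable (fun z => M * (M0 * (8 / r0) + M1 * σ ^ 2 * (2 / r0 ^ 2)) *
        (χ z * (h ^ 4 * AA U z / (h ^ 2 * PP U z + σ ^ 2))) + M * M0 * χ z) := i3.add i4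
  have i1234 : Integrable (fun z => φ z * fderiv ℝ (W1 k U s) z 1 +
      φ z * fderiv ℝ (W2 k U s) z I + (M * (M0 * (8 / r0) + M1 * σ ^ 2 * (2 / r0 ^ 2)) *
        (χ z * (h ^ 4 * AA U z / (h ^ 2 * PP U z + σ ^ 2))) + M * M0 * χ z)) := i12.add i34
  have tot2 := integral_mono iL i1234 pt
  rw [integral_add i12 i34, integral_add i1 i2, integral_add i3 i4, integral_const_mul,
    integral_const_mul, e1, e2, ← integral_neg, ← integral_neg] at tot2
  -- the boundary terms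
  have cW1 : ContinuousOn (W1 k U s) S := sW1.continuousOn.mono hSB
  have cW2 : ContinuousOn (W2 k U s) S := sW2.continuousOn.mono hSB
  have bt : ∀ (c x : ℝ) (z : ℂ), |c| ≤ M → x ^ 2 ≤ PP U z →
      -(c * (k (U z) * x / (PP U z + s ^ 2))) ≤ M * M0 / σ * EE U h z := by
    intro c x z hc hx
    refine (neg_le_abs _).trans ?_
    have Pz := PP_nn U z
    have Qp : 0 < PP U z + s ^ 2 := by positivity
    have t1 : |k (U z)| ≤ M0 * EE U h z := by
      rw [hk, abs_mul, abs_of_nonneg (th_nn _), mul_comm]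
      refine mul_le_mul (g0 _) ?_ (th_nn _) M00
      exact (th_le_one _).trans (EE_ge z)
    have t2 : |x| / (PP U z + s ^ 2) ≤ 1 / s := by
      rw [div_le_div_iff₀ Qp s0]
      nlinarith [sq_nonneg (|x| - s), sq_abs x, abs_nonneg x]
    have t3 : 1 / s ≤ 1 / σ := by
      rw [div_le_div_iff₀ s0 hσ, hσs]
      nlinarith [H.h1]
    rw [abs_mul, abs_div, abs_mul, abs_of_pos Qp, mul_div_assoc]
    have t4 : |k (U z)| * (|x| / (PP U z + s ^ 2)) ≤ M0 * EE U h z * (1 / σ) := by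
      refine mul_le_mul t1 (t2.trans t3) (by positivity) ?_
      have := EE_ge (U := U) (h := h) z
      positivity
    have t5 := mul_le_mul hc t4 (by positivity) MM0
    refine t5.trans (le_of_eq ?_)
    ring
  have B1 := H.bd hSc hSB (F := fun z => -(fderiv ℝ φ z 1 * W1 k U s z)) (M := M * M0 / σ)
    (by positivity) (((cφ' 1).continuousOn.mul cW1).neg)
    (fun z hz => by rw [z1 1 z fun h => hz (hTS h)]; simp)
    (fun z _ => by
      refine bt _ _ z ?_ ?_
      · by_cases hz : z ∈ T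
        · have := b2 z hz
          rw [Real.norm_eq_abs] at this
          have := le_abs_self M2'
          linarith
        · rw [z1 1 z hz, abs_zero]; exact MM0
      · unfold PP; nlinarith [sq_nonneg (dY U z)])
  have B2 := H.bd hSc hSB (F := fun z => -(fderiv ℝ φ z I * W2 k U s z)) (M := M * M0 / σ)
    (by positivity) (((cφ' I).continuousOn.mul cW2).neg)
    (fun z hz => by rw [z1 I z fun h => hz (hTS h)]; simp)
    (fun z _ => by
      refine bt _ _ z ?_ ?_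
      · by_cases hz : z ∈ T
        · have := b3 z hz
          rw [Real.norm_eq_abs] at this
          have := le_abs_self M3'
          linarith
        · rw [z1 I z hz, abs_zero]; exact MM0
      · unfold PP; nlinarith [sq_nonneg (dX U z)])
  have B3 : ∫ z, χ z ≤ ar S := by
    rw [out_int x0]
    exact setIntegral_mono_on (cχ.continuousOn.integrableOn_compact hSc)
      (continuousOn_const.integrableOn_compact hSc) hSc.measurableSet fun z _ => hχ2 z
  have B4 := mul_le_mul_of_nonneg_left hK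
    (by positivity : 0 ≤ M * (M0 * (8 / r0) + M1 * σ ^ 2 * (2 / r0 ^ 2)))
  have B5 := mul_le_mul_of_nonneg_left B3 (by positivity : 0 ≤ M * M0)
  refine tot2.trans ?_
  have E1 : M * M0 / σ * (ar S + 3 * C3) ≤ M * (ar S + 3) * (1 + C3) * (M0 / σ) := by
    have : M * M0 / σ * (ar S + 3 * C3) = M * (M0 / σ) * (ar S + 3 * C3) := by ring
    rw [this]
    have t : 0 ≤ M * (M0 / σ) := by positivity
    nlinarith [mul_nonneg t (mul_nonneg A0 C30)]
  have E2 : M * (M0 * (8 / r0) + M1 * σ ^ 2 * (2 / r0 ^ 2)) * (C * (1 + C3) / σ) =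
      M * C * (8 / r0) * (1 + C3) * (M0 / σ) + M * C * (2 / r0 ^ 2) * (1 + C3) * (M1 * σ) := by
    field_simp
  have E3 : M * M0 * ar S ≤ M * ar S * (1 + C3) * M0 := by
    have : 0 ≤ M * M0 * ar S := by positivity
    nlinarith [mul_nonneg this C30]
  rw [E2] at B4
  obtain ⟨K1, hK1⟩ : ∃ K, K = M0 / σ := ⟨_, rfl⟩
  obtain ⟨K2, hK2⟩ : ∃ K, K = M1 * σ := ⟨_, rfl⟩
  have K10 : 0 ≤ K1 := by rw [hK1]; positivity
  have K20 : 0 ≤ K2 := by rw [hK2]; positivity
  rw [← hK1] at E1 ⊢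
  rw [← hK1, ← hK2] at B4
  rw [← hK2]
  have f1 : 0 ≤ 2 * M * (ar S + 3) * (1 + C3) := by positivity
  have f2 : 0 ≤ M * C * (8 / r0) * (1 + C3) := by positivity
  have f3 : 0 ≤ M * C * (2 / r0 ^ 2) * (1 + C3) := by positivity
  have f4 : 0 ≤ M * ar S * (1 + C3) := by positivity
  have ex : (2 * M * (ar S + 3) + M * C * (8 / r0) + M * C * (2 / r0 ^ 2) + M * ar S) * (1 + C3) *
      (K1 + M0 + K2) = 2 * M * (ar S + 3) * (1 + C3) * (K1 + M0 + K2) +
      M * C * (8 / r0) * (1 + C3) * (K1 + M0 + K2) +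
      M * C * (2 / r0 ^ 2) * (1 + C3) * (K1 + M0 + K2) +
      M * ar S * (1 + C3) * (K1 + M0 + K2) := by ring
  rw [ex]
  nlinarith [mul_nonneg f1 M00, mul_nonneg f1 K20, mul_nonneg f1 K10, mul_nonneg f2 M00,
    mul_nonneg f2 K20, mul_nonneg f2 K10, mul_nonneg f3 M00, mul_nonneg f3 K20, mul_nonneg f3 K10,
    mul_nonneg f4 M00, mul_nonneg f4 K20, mul_nonneg f4 K10]

/-- **The regularity inequality.** -/
theorem reg (hB : IsOpen B) (hρ : ContDiffOn ℝ ∞ ρ B) (hρ0 : ∀ z ∈ B, 0 < ρ z) {φ : ℂ → ℝ}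
    (hφ : TF B φ) : ∃ (S : Set ℂ) (C : ℝ), IsCompact S ∧ S ⊆ B ∧ 0 ≤ C ∧
      ∀ (h C3 : ℝ) (U : ℂ → ℝ), NSol B ρ S h C3 U → ∀ (g : ℝ → ℝ) (M0 M1 σ : ℝ),
        ContDiff ℝ ∞ g → (∀ x, |g x| ≤ M0) → (∀ x, |deriv g x| ≤ M1) → 0 < σ →
        |∫ z, φ z * (th (U z) * deriv g (U z))| ≤ C * (1 + C3) * (M0 / σ + M0 + M1 * σ) := by
  obtain ⟨S, C, hS, hSB, hC, -, key⟩ := reg1 hB hρ hρ0 hφ
  refine ⟨S, C, hS, hSB, hC, fun h C3 U H g M0 M1 σ hg g0 g1 hσ => abs_le.2 ⟨?_, ?_⟩⟩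
  · have := key h C3 U H (fun x => -g x) M0 M1 σ hg.neg (fun x => by rw [abs_neg]; exact g0 x)
      (fun x => by
        rw [deriv.fun_neg, abs_neg]; exact g1 x) hσ
    have e : ∫ z, φ z * (th (U z) * deriv (fun x => -g x) (U z)) =
        - ∫ z, φ z * (th (U z) * deriv g (U z)) := by
      rw [← integral_neg]
      congr 1
      funext z
      rw [deriv.fun_neg]; ring
    rw [e] at this
    linarith
  · exact key h C3 U H g M0 M1 σ hg g0 g1 hσ

end

end Pool.Agent.N252.TV
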