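import Pool.Agent.N252.TV.D
import Pool.Agent.TH421.AC.Main

/-!
Project TV (helper252): sequences of eigenfunctions in a chart.
-/

set_option autoImplicit false
open MeasureTheory Filter Topology Complex
open scoped ContDiff ENNReal

namespace Pool.Agent.N252.TV

open Pool.Agent.TH421.AC Pool.Agent.TH421.DF Pool.Agent.TH294.RS Pool.Agent.TH294.RG
open Pool.Agent.W745.RW

noncomputable section

/-- the Laplacian `∂x² + ∂y²` -/
def lapl (f : ℂ → ℝ) (z : ℂ) : ℝ :=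
  fderiv ℝ (fun w => fderiv ℝ f w 1) z 1 + fderiv ℝ (fun w => fderiv ℝ f w I) z I

/-- the sequence `u` is locally bounded in `L²` on `Ω` -/
def LocL2 (Ω : Set ℂ) (u : ℕ → ℂ → ℝ) : Prop :=
  ∀ K : Set ℂ, IsCompact K → K ⊆ Ω → ∃ C : ℝ, ∀ᶠ n in atTop, ∫ z in K, u n z ^ 2 ≤ C

lemma rdd' {Ω : Set ℂ} (hΩ : IsOpen Ω) {h : ℕ → ℝ} {u : ℕ → ℂ → ℝ}
    (hu : ∀ n, ContDiffOn ℝ ∞ (u n) Ω) (v w : ℂ) (n : ℕ) {z : ℂ} (hz : z ∈ Ω) :
    rd h v (rd h w u) n z = h n ^ 2 * fderiv ℝ (fun z' => fderiv ℝ (u n) z' w) z v := by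
  show h n * fderiv ℝ (fun z' => h n * fderiv ℝ (u n) z' w) z v = _
  rw [fderiv_const_mul (rdA hΩ (rsd hΩ (hu n) w) hz)]
  simp only [smul_apply, smul_eq_mul]; ring

/-- **Local bounds for a sequence of eigenfunctions.** -/
theorem seq_nsol {Ω : Set ℂ} {ρ : ℂ → ℝ} (hΩ : IsOpen Ω) (hρ : ContDiffOn ℝ ∞ ρ Ω)
    (hρ0 : ∀ z ∈ Ω, 0 < ρ z) {lam : ℕ → ℝ} (hlam : Tendsto lam atTop atTop) {u : ℕ → ℂ → ℝ}
    (hu : ∀ n, ContDiffOn ℝ ∞ (u n) Ω)
    (he : ∀ n, ∀ z ∈ Ω, lapl (u n) z + lam n * (ρ z * u n z) = 0) (hL : LocL2 Ω u)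
    {S : Set ℂ} (hS : IsCompact S) (hSΩ : S ⊆ Ω) :
    ∃ C3 : ℝ, 0 ≤ C3 ∧ ∀ᶠ n in atTop, NSol Ω ρ S (√(lam n))⁻¹ C3 (u n) := by
  obtain ⟨l, hl⟩ : ∃ l : ℕ → ℝ, ∀ n, l n = max (lam n) 1 := ⟨_, fun _ => rfl⟩
  have l1 : ∀ n, 1 ≤ l n := fun n => by rw [hl]; exact le_max_right _ _
  have ev : ∀ᶠ n in atTop, l n = lam n := (hlam.eventually_ge_atTop 1).mono fun n hn => by
    rw [hl, max_eq_left hn]
  have ll : Tendsto l atTop atTop := hlam.congr' (ev.mono fun n hn => hn.symm)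
  obtain ⟨h, hh⟩ : ∃ h : ℕ → ℝ, ∀ n, h n = (√(l n))⁻¹ := ⟨_, fun _ => rfl⟩
  have hp : ∀ n, 0 < h n := fun n => by
    rw [hh]; exact inv_pos.2 (Real.sqrt_pos.2 (lt_of_lt_of_le one_pos (l1 n)))
  have h0 : Tendsto h atTop (𝓝 0) :=
    (tendsto_inv_atTop_zero.comp (Real.tendsto_sqrt_atTop.comp ll)).congr fun n => (hh n).symm
  have h2 : ∀ n, h n ^ 2 * l n = 1 := fun n => by
    have p : 0 < l n := lt_of_lt_of_le one_pos (l1 n)
    rw [hh, inv_pow, Real.sq_sqrt p.le, inv_mul_cancel₀ p.ne']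
  have lbu : LB Ω 2 (cx u) := by
    refine ⟨fun n => Complex.ofRealCLM.contDiff.comp_contDiffOn (hu n), fun K hK hKB => ?_⟩
    obtain ⟨C, hC⟩ := hL K hK hKB
    refine ⟨C, hC.mono fun n hn => ?_⟩
    simp only [cx, Complex.norm_real, Real.norm_eq_abs, sq_abs]
    exact hn
  have MKu : MK2 Ω h 2 (cx u) := by
    refine mk_sol hΩ hp h0 lbu (ρ := fun z => (ρ z : ℂ))
      (Complex.ofRealCLM.contDiff.comp_contDiffOn hρ) (c := fun n => h n ^ 2 * lam n) (M := 1)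
      (ev.mono fun n hn => by rw [← hn, h2 n]; norm_num) ?_ 2
    intro n z hz
    have e1 : lap (cx u n) z = ((lapl (u n) z : ℝ) : ℂ) := lap_re hΩ (hu n) hz
    simp only [Pool.Agent.TH294.RS.hL]
    rw [e1]
    have e2 : lapl (u n) z = -(lam n * (ρ z * u n z)) := by linarith [he n z hz]
    rw [e2]
    simp only [cx]
    push_cast
    ring
  have r1 := mk_rd hΩ hu MKu
  have s1 := rd_sm (h := h) hΩ hu 1
  have s2 := rd_sm (h := h) hΩ hu I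
  have r2 := mk_rd hΩ s1 r1.1
  have r3 := mk_rd hΩ s2 r1.2
  obtain ⟨C0, C00, b0⟩ := lb_re MKu.lb hS hSΩ
  obtain ⟨C1, C10, b1⟩ := lb_re r1.1.lb hS hSΩ
  obtain ⟨C2, C20, b2⟩ := lb_re r1.2.lb hS hSΩ
  obtain ⟨C3, C30, b3⟩ := lb_re r2.1.lb hS hSΩ
  obtain ⟨C4, C40, b4⟩ := lb_re r2.2.lb hS hSΩ
  obtain ⟨C5, C50, b5⟩ := lb_re r3.2.lb hS hSΩ
  have cS : ∀ {f : ℂ → ℝ}, ContDiffOn ℝ ∞ f Ω → IntegrableOn (fun z => f z ^ 2) S := fun hf =>
    ((hf.continuousOn.mono hSΩ).pow 2).integrableOn_compact hS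
  refine ⟨C0 + C1 + C2 + C3 + 2 * C4 + C5, by positivity, ?_⟩
  filter_upwards [ev, b0, b1, b2, b3, b4, b5] with n e0 b0 b1 b2 b3 b4 b5
  have hn : (√(lam n))⁻¹ = h n := by rw [hh, e0]
  rw [hn]
  have i1 := cS (s1 n)
  have i2 := cS (s2 n)
  have i3 := cS (rd_sm (h := h) hΩ s1 1 n)
  have i4 := cS (rd_sm (h := h) hΩ s1 I n)
  have i5 := cS (rd_sm (h := h) hΩ s2 I n)
  refine ⟨hp n, ?_, by positivity, ?_, by linarith, ?_, ?_⟩
  · rw [hh]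
    have : 1 ≤ √(l n) := by rw [← Real.sqrt_one]; exact Real.sqrt_le_sqrt (l1 n)
    exact inv_le_one_of_one_le₀ this
  · refine ⟨hΩ, hρ, hρ0, hu n, fun z hz => ?_⟩
    have e1 : (h n ^ 2)⁻¹ = l n := by
      exact inv_eq_of_mul_eq_one_right (h2 n)
    rw [e1, e0]
    have := he n z hz
    unfold lapl at this
    linarith
  · have e1 : ∫ z in S, h n ^ 2 * PP (u n) z =
        (∫ z in S, rd h 1 u n z ^ 2) + ∫ z in S, rd h I u n z ^ 2 := by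
      rw [← integral_add i1 i2]
      congr 1; funext z
      show h n ^ 2 * (fderiv ℝ (u n) z 1 ^ 2 + fderiv ℝ (u n) z I ^ 2) =
        (h n * fderiv ℝ (u n) z 1) ^ 2 + (h n * fderiv ℝ (u n) z I) ^ 2
      ring
    rw [e1]
    linarith
  · have e1 : ∫ z in S, h n ^ 4 * AA (u n) z =
        (∫ z in S, rd h 1 (rd h 1 u) n z ^ 2) + (2 * (∫ z in S, rd h I (rd h 1 u) n z ^ 2) +
          ∫ z in S, rd h I (rd h I u) n z ^ 2) := by
      have e2 : (∫ z in S, rd h 1 (rd h 1 u) n z ^ 2) + (2 * (∫ z in S, rd h I (rd h 1 u) n z ^ 2) +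
          ∫ z in S, rd h I (rd h I u) n z ^ 2) = ∫ z in S, (rd h 1 (rd h 1 u) n z ^ 2 +
          (2 * rd h I (rd h 1 u) n z ^ 2 + rd h I (rd h I u) n z ^ 2)) := by
        have e3 : ∫ z in S, (2 * rd h I (rd h 1 u) n z ^ 2 + rd h I (rd h I u) n z ^ 2) =
            2 * (∫ z in S, rd h I (rd h 1 u) n z ^ 2) + ∫ z in S, rd h I (rd h I u) n z ^ 2 := by
          rw [← integral_const_mul]; exact integral_add (i4.const_mul 2) i5
        rw [← e3]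
        exact (integral_add i3 ((i4.const_mul 2).add i5)).symm
      rw [e2]
      refine setIntegral_congr_fun hS.measurableSet fun z hz => ?_
      have hz' := hSΩ hz
      show h n ^ 4 * (fderiv ℝ (fun z' => fderiv ℝ (u n) z' 1) z 1 ^ 2 +
        2 * fderiv ℝ (fun z' => fderiv ℝ (u n) z' 1) z I ^ 2 +
        fderiv ℝ (fun z' => fderiv ℝ (u n) z' I) z I ^ 2) = _
      simp only [rdd' hΩ hu 1 1 n hz', rdd' hΩ hu I 1 n hz', rdd' hΩ hu I I n hz']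
      ring
    rw [e1]
    linarith

/-- **The regularity inequality for sequences of eigenfunctions**, in a chart. -/
theorem seq_reg {Ω : Set ℂ} {ρ : ℂ → ℝ} (hΩ : IsOpen Ω) (hρ : ContDiffOn ℝ ∞ ρ Ω)
    (hρ0 : ∀ z ∈ Ω, 0 < ρ z) {lam : ℕ → ℝ} (hlam : Tendsto lam atTop atTop) {u : ℕ → ℂ → ℝ}
    (hu : ∀ n, ContDiffOn ℝ ∞ (u n) Ω)
    (he : ∀ n, ∀ z ∈ Ω, lapl (u n) z + lam n * (ρ z * u n z) = 0) (hL : LocL2 Ω u)
    {φ : ℂ → ℝ} (hφ : TF Ω φ) :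
    ∃ D : ℝ, 0 ≤ D ∧ ∀ᶠ n in atTop, ∀ (g : ℝ → ℝ) (a b : ℝ), ContDiff ℝ ∞ g →
      (∀ x, |g x| ≤ a) → (∀ x, |deriv g x| ≤ b) →
      |∫ z, φ z * (th (u n z) * deriv g (u n z))| ≤ D * (√(a * b) + a) := by
  obtain ⟨S, C, hS, hSΩ, C0, key⟩ := reg hΩ hρ hρ0 hφ
  obtain ⟨C3, C30, hC3⟩ := seq_nsol hΩ hρ hρ0 hlam hu he hL hS hSΩ
  refine ⟨2 * (C * (1 + C3)), by positivity, hC3.mono fun n hn g a b hg ga gb => ?_⟩
  have a0 : 0 ≤ a := (abs_nonneg _).trans (ga 0)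
  have b0 : 0 ≤ b := (abs_nonneg _).trans (gb 0)
  have K0 : 0 ≤ C * (1 + C3) := by positivity
  have dz : (∀ x, deriv g x = 0) → |∫ z, φ z * (th (u n z) * deriv g (u n z))| ≤
      2 * (C * (1 + C3)) * (√(a * b) + a) := by
    intro h
    have : ∀ z, φ z * (th (u n z) * deriv g (u n z)) = 0 := fun z => by rw [h]; ring
    simp only [this, integral_zero, abs_zero]
    positivity
  rcases a0.eq_or_lt with h | ha
  · refine dz fun x => ?_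
    have : g = fun _ => 0 := funext fun x => abs_eq_zero.1 (le_antisymm (by rw [h]; exact ga x) (abs_nonneg _))
    rw [this, deriv_const]
  rcases b0.eq_or_lt with h | hb
  · exact dz fun x => abs_eq_zero.1 (le_antisymm (by rw [h]; exact gb x) (abs_nonneg _))
  have := key _ C3 _ hn g a b (√(a / b)) hg ga gb (Real.sqrt_pos.2 (by positivity))
  refine this.trans ?_
  have e1 : a / √(a / b) = √(a * b) := by
    rw [div_eq_iff (Real.sqrt_pos.2 (by positivity)).ne', ← Real.sqrt_mul (by positivity)]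
    have : a * b * (a / b) = a ^ 2 := by field_simp
    rw [this, Real.sqrt_sq a0]
  have e2 : b * √(a / b) = √(a * b) := by
    have : a * b = b ^ 2 * (a / b) := by field_simp
    rw [this, Real.sqrt_mul (by positivity), Real.sqrt_sq b0]
  rw [e1, e2]
  have s0 := Real.sqrt_nonneg (a * b)
  nlinarith

end

end Pool.Agent.N252.TV
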