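import Mathlib

/-!
Project TV (helper252): weak convergence and convergence in total variation on the line.
-/

set_option autoImplicit false
open MeasureTheory Filter Topology
open scoped ContDiff ENNReal BoundedContinuousFunction

namespace Pool.Agent.N252.TV

noncomputable section

/-- the primitive -/
def Pm (g : ℝ → ℝ) (x : ℝ) : ℝ := ∫ t in (0 : ℝ)..x, g t

lemma Pm_d {g : ℝ → ℝ} (hg : Continuous g) (x : ℝ) : HasDerivAt (Pm g) (g x) x :=
  intervalIntegral.integral_hasDerivAt_right (hg.intervalIntegrable _ _)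
    (hg.stronglyMeasurableAtFilter _ _) hg.continuousAt

lemma Pm_sm {g : ℝ → ℝ} (hg : ContDiff ℝ ∞ g) : ContDiff ℝ ∞ (Pm g) := by
  rw [contDiff_infty_iff_deriv]
  refine ⟨fun x => (Pm_d hg.continuous x).differentiableAt, ?_⟩
  have : deriv (Pm g) = g := funext fun x => (Pm_d hg.continuous x).deriv
  rw [this]; exact hg

lemma Pm_sub {g : ℝ → ℝ} (hg : Continuous g) (x y : ℝ) : Pm g y - Pm g x = ∫ t in x..y, g t := by
  unfold Pm
  exact intervalIntegral.integral_interval_sub_left (hg.intervalIntegrable _ _)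
    (hg.intervalIntegrable _ _)

lemma Pm_lip {g : ℝ → ℝ} (hg : Continuous g) {M : ℝ} (hM : ∀ x, |g x| ≤ M) (x y : ℝ) :
    |Pm g y - Pm g x| ≤ M * |y - x| := by
  rw [Pm_sub hg]
  have := intervalIntegral.norm_integral_le_of_norm_le_const (f := g) (a := x) (b := y) (C := M)
    fun t _ => hM t
  exact this

/-- the mean of `f` over `[x, x + ε]` -/
def sm (f : ℝ → ℝ) (ε x : ℝ) : ℝ := (Pm f (x + ε) - Pm f x) / ε

lemma sm_bd {f : ℝ → ℝ} (hf : Continuous f) {M : ℝ} (hM : ∀ x, |f x| ≤ M) {ε : ℝ} (hε : 0 < ε)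
    (x : ℝ) : |sm f ε x| ≤ M := by
  unfold sm
  rw [abs_div, abs_of_pos hε, div_le_iff₀ hε]
  have := Pm_lip hf hM x (x + ε)
  rwa [add_sub_cancel_left, abs_of_pos hε] at this

lemma sm_lip {f : ℝ → ℝ} (hf : Continuous f) {M : ℝ} (hM : ∀ x, |f x| ≤ M) {ε : ℝ} (hε : 0 < ε)
    (x y : ℝ) : |sm f ε x - sm f ε y| ≤ 2 * M / ε * |x - y| := by
  unfold sm
  have h1 := Pm_lip hf hM (y + ε) (x + ε)
  have h2 := Pm_lip hf hM y x
  have e : (Pm f (x + ε) - Pm f x) / ε - (Pm f (y + ε) - Pm f y) / ε =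
      ((Pm f (x + ε) - Pm f (y + ε)) - (Pm f x - Pm f y)) / ε := by ring
  rw [e, abs_div, abs_of_pos hε, div_le_iff₀ hε]
  have h3 := abs_sub (Pm f (x + ε) - Pm f (y + ε)) (Pm f x - Pm f y)
  have e2 : x + ε - (y + ε) = x - y := by ring
  rw [e2] at h1
  have e3 : 2 * M / ε * |x - y| * ε = 2 * M * |x - y| := by field_simp
  rw [e3]
  linarith

lemma sm_cont {f : ℝ → ℝ} (hf : Continuous f) (ε : ℝ) : Continuous (sm f ε) := by
  have h1 : Continuous (Pm f) := continuous_iff_continuousAt.2 fun x => (Pm_d hf x).continuousAt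
  unfold sm
  fun_prop

/-- the corrector -/
def Gc (f : ℝ → ℝ) (ε x : ℝ) : ℝ := (Pm (Pm f) (x + ε) - Pm (Pm f) x) / ε - Pm f x

lemma Gc_sm {f : ℝ → ℝ} (hf : ContDiff ℝ ∞ f) (ε : ℝ) : ContDiff ℝ ∞ (Gc f ε) := by
  have h1 := Pm_sm hf
  have h2 := Pm_sm h1
  unfold Gc
  exact (((h2.comp (contDiff_id.add contDiff_const)).sub h2).div_const ε).sub h1

lemma Gc_d {f : ℝ → ℝ} (hf : ContDiff ℝ ∞ f) (ε x : ℝ) :
    HasDerivAt (Gc f ε) (sm f ε x - f x) x := by
  have h1 := Pm_sm hf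
  have d1 := Pm_d hf.continuous x
  have d2 := Pm_d h1.continuous x
  have d3 := (Pm_d h1.continuous (x + ε)).comp_add_const x ε
  exact ((d3.sub d2).div_const ε).sub d1

lemma Gc_bd {f : ℝ → ℝ} (hf : ContDiff ℝ ∞ f) {M : ℝ} (hM : ∀ x, |f x| ≤ M) {ε : ℝ} (hε : 0 < ε)
    (x : ℝ) : |Gc f ε x| ≤ M * ε := by
  have h1 := (Pm_sm hf).continuous
  have M0 : 0 ≤ M := (abs_nonneg _).trans (hM 0)
  have e : Gc f ε x = (∫ t in x..(x + ε), (Pm f t - Pm f x)) / ε := by
    unfold Gc
    rw [Pm_sub h1, intervalIntegral.integral_sub (h1.intervalIntegrable _ _)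
      (continuous_const.intervalIntegrable _ _), intervalIntegral.integral_const,
      add_sub_cancel_left, smul_eq_mul]
    field_simp
  rw [e, abs_div, abs_of_pos hε, div_le_iff₀ hε]
  have : ‖∫ t in x..(x + ε), (Pm f t - Pm f x)‖ ≤ M * ε * |x + ε - x| := by
    refine intervalIntegral.norm_integral_le_of_norm_le_const fun t ht => ?_
    refine (Pm_lip hf.continuous hM x t).trans ?_
    refine mul_le_mul_of_nonneg_left ?_ M0
    rw [Set.uIoc_of_le (by linarith)] at ht
    rw [abs_of_nonneg (by linarith [ht.1])]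
    linarith [ht.2]
  rw [add_sub_cancel_left, abs_of_pos hε] at this
  exact this

/-! ### Uniform weak convergence for Lipschitz functions -/

/-- a ramp -/
def rp (η a x : ℝ) : ℝ := max 0 (min 1 ((x - a) / η))

lemma rp_cont (η a : ℝ) : Continuous (rp η a) := by
  unfold rp
  fun_prop

lemma rp_nn (η a x : ℝ) : 0 ≤ rp η a x := le_max_left _ _
lemma rp_le (η a x : ℝ) : rp η a x ≤ 1 := max_le zero_le_one (min_le_left _ _)

lemma rp_zero {η a x : ℝ} (hη : 0 < η) (h : x ≤ a) : rp η a x = 0 := by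
  unfold rp
  have : (x - a) / η ≤ 0 := div_nonpos_of_nonpos_of_nonneg (by linarith) hη.le
  rw [min_eq_right (by linarith), max_eq_left this]

lemma rp_one {η a x : ℝ} (hη : 0 < η) (h : a + η ≤ x) : rp η a x = 1 := by
  unfold rp
  have : 1 ≤ (x - a) / η := by rw [le_div_iff₀ hη]; linarith
  rw [min_eq_left this, max_eq_right zero_le_one]

lemma rp_anti {η a b x : ℝ} (hη : 0 < η) (h : a ≤ b) : rp η b x ≤ rp η a x := by
  unfold rp
  refine max_le_max le_rfl (min_le_min le_rfl ?_)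
  exact div_le_div_of_nonneg_right (by linarith) hη.le

/-- the grid -/
def gr (η : ℝ) (N i : ℕ) : ℝ := -(N * η) + i * η

/-- the hat functions -/
def ht (η : ℝ) (N i : ℕ) (x : ℝ) : ℝ := rp η (gr η N i) x - rp η (gr η N (i + 1)) x

/-- their sum -/
def HT (η : ℝ) (N : ℕ) (x : ℝ) : ℝ := rp η (gr η N 0) x - rp η (gr η N (2 * N)) x

lemma gr_succ (η : ℝ) (N i : ℕ) : gr η N (i + 1) = gr η N i + η := by
  unfold gr; push_cast; ring

lemma ht_nn {η : ℝ} (hη : 0 < η) (N i : ℕ) (x : ℝ) : 0 ≤ ht η N i x :=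
  sub_nonneg.2 (rp_anti hη (by rw [gr_succ]; linarith))

lemma ht_sum (η : ℝ) (N : ℕ) (x : ℝ) : ∑ i ∈ Finset.range (2 * N), ht η N i x = HT η N x := by
  unfold ht HT
  rw [← Finset.sum_range_sub' (fun i => rp η (gr η N i) x) (2 * N)]

lemma ht_loc {η : ℝ} (hη : 0 < η) {N i : ℕ} {x : ℝ} (h : ht η N i x ≠ 0) :
    |x - gr η N i| ≤ 2 * η := by
  have h1 : gr η N i < x := by
    by_contra hc
    push Not at hc
    apply h
    unfold ht
    rw [rp_zero hη hc, rp_zero hη (by rw [gr_succ]; linarith), sub_zero]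
  have h2 : x < gr η N i + 2 * η := by
    by_contra hc
    push Not at hc
    apply h
    unfold ht
    rw [rp_one hη (by linarith), rp_one hη (by rw [gr_succ]; linarith), sub_self]
  rw [abs_of_pos (by linarith)]
  linarith

lemma HT_nn {η : ℝ} (hη : 0 < η) (N : ℕ) (x : ℝ) : 0 ≤ HT η N x := by
  rw [← ht_sum]; exact Finset.sum_nonneg fun i _ => ht_nn hη N i x

lemma HT_le (η : ℝ) (N : ℕ) (x : ℝ) : HT η N x ≤ 1 := by
  unfold HT
  have := rp_le η (gr η N 0) x
  have := rp_nn η (gr η N (2 * N)) x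
  linarith

lemma HT_one {η : ℝ} (hη : 0 < η) {N : ℕ} {x : ℝ} (h : |x| ≤ (N : ℝ) * η - η) : HT η N x = 1 := by
  have h2 := abs_le.1 h
  unfold HT
  rw [rp_one hη (by unfold gr; push_cast; linarith [h2.1]),
    rp_zero hη (by unfold gr; push_cast; linarith [h2.2]), sub_zero]

/-- the approximation by hat functions -/
lemma hat_app {η : ℝ} (hη : 0 < η) (N : ℕ) {K : ℝ} (hK : 0 ≤ K) {k : ℝ → ℝ}
    (hk : ∀ x y, |k x - k y| ≤ K * |x - y|) (x : ℝ) :
    |k x * HT η N x - ∑ i ∈ Finset.range (2 * N), k (gr η N i) * ht η N i x| ≤ 2 * K * η := by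
  rw [← ht_sum, Finset.mul_sum, ← Finset.sum_sub_distrib]
  have h1 : ∀ i ∈ Finset.range (2 * N), |k x * ht η N i x - k (gr η N i) * ht η N i x| ≤
      2 * K * η * ht η N i x := by
    intro i _
    rw [← sub_mul, abs_mul, abs_of_nonneg (ht_nn hη N i x)]
    by_cases h : ht η N i x = 0
    · rw [h]; simp
    · refine mul_le_mul_of_nonneg_right ?_ (ht_nn hη N i x)
      have := hk x (gr η N i)
      have h3 := mul_le_mul_of_nonneg_left (ht_loc hη h) hK
      linarith
  refine (Finset.abs_sum_le_sum_abs _ _).trans ((Finset.sum_le_sum h1).trans ?_)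
  rw [← Finset.mul_sum, ht_sum]
  have := HT_le η N x
  have : 0 ≤ 2 * K * η := by positivity
  nlinarith

/-- tightness of a finite measure -/
lemma tail_small (ν : Measure ℝ) [IsFiniteMeasure ν] {δ : ℝ} (hδ : 0 < δ) :
    ∃ R : ℝ, 0 < R ∧ ν.real {x | R < |x|} ≤ δ := by
  have h1 : Tendsto (fun n : ℕ => ν {x : ℝ | (n : ℝ) < |x|}) atTop (𝓝 0) := by
    have h2 : Tendsto (ν ∘ fun n : ℕ => {x : ℝ | (n : ℝ) < |x|}) atTop
        (𝓝 (ν (⋂ n : ℕ, {x : ℝ | (n : ℝ) < |x|}))) := by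
      refine tendsto_measure_iInter_atTop (fun n => ?_) ?_ ⟨0, measure_ne_top _ _⟩
      · exact (measurableSet_lt measurable_const continuous_abs.measurable).nullMeasurableSet
      · intro m n hmn x hx
        have : (m : ℝ) ≤ n := by exact_mod_cast hmn
        exact lt_of_le_of_lt this hx
    have e : (⋂ n : ℕ, {x : ℝ | (n : ℝ) < |x|}) = ∅ := by
      ext x
      simp only [Set.mem_iInter, Set.mem_empty_iff_false, iff_false]
      intro h
      obtain ⟨n, hn⟩ := exists_nat_gt |x|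
      exact absurd (h n) (not_lt.2 hn.le)
    rw [e, measure_empty] at h2
    exact h2
  have h3 := (ENNReal.tendsto_toReal ENNReal.zero_ne_top).comp h1
  have h4 : ∀ᶠ n : ℕ in atTop, (ν {x : ℝ | (n : ℝ) < |x|}).toReal < δ := by
    apply h3.eventually_lt_const
    simpa using hδ
  obtain ⟨n, hn, hn1⟩ := (h4.and (eventually_ge_atTop 1)).exists
  exact ⟨n, by exact_mod_cast hn1, hn.le⟩

/-- **Uniform weak convergence for Lipschitz functions.** -/
theorem unif_lip {μ : ℕ → Measure ℝ} [∀ n, IsFiniteMeasure (μ n)] {ν : Measure ℝ}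
    [IsFiniteMeasure ν] (hw : ∀ g : ℝ →ᵇ ℝ, Tendsto (fun n => ∫ x, g x ∂(μ n)) atTop
      (𝓝 (∫ x, g x ∂ν))) {K M : ℝ} (hK : 0 ≤ K) (hM : 0 ≤ M) {δ : ℝ} (hδ : 0 < δ) :
    ∀ᶠ n in atTop, ∀ k : ℝ → ℝ, (∀ x, |k x| ≤ M) → (∀ x y, |k x - k y| ≤ K * |x - y|) →
      |∫ x, k x ∂(μ n) - ∫ x, k x ∂ν| ≤ δ := by
  -- total masses
  have tm : Tendsto (fun n => (μ n).real Set.univ) atTop (𝓝 (ν.real Set.univ)) := by
    have := hw (BoundedContinuousFunction.const ℝ 1)
    simpa using this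
  obtain ⟨V, hV⟩ : ∃ V, V = ν.real Set.univ := ⟨_, rfl⟩
  have V0 : 0 ≤ V := by rw [hV]; exact measureReal_nonneg
  obtain ⟨δ1, hδ1⟩ : ∃ d, d = δ / (4 * (M + 1)) := ⟨_, rfl⟩
  have δ10 : 0 < δ1 := by rw [hδ1]; positivity
  obtain ⟨R, R0, hR⟩ := tail_small ν (by positivity : 0 < δ1 / 2)
  obtain ⟨η, hη⟩ : ∃ η, η = δ / (16 * ((K + 1) * (V + 1))) := ⟨_, rfl⟩
  have η0 : 0 < η := by rw [hη]; positivity
  obtain ⟨N, hN⟩ : ∃ N : ℕ, R + η ≤ N * η := by
    obtain ⟨N, hN⟩ := exists_nat_ge ((R + η) / η)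
    exact ⟨N, by rwa [div_le_iff₀ η0] at hN⟩
  have hc : ∀ i, Continuous (ht η N i) := fun i => (rp_cont _ _).sub (rp_cont _ _)
  have hC : Continuous (HT η N) := (rp_cont _ _).sub (rp_cont _ _)
  have hb : ∀ i x, |ht η N i x| ≤ 1 := by
    intro i x
    rw [abs_of_nonneg (ht_nn η0 N i x)]
    unfold ht
    have := rp_le η (gr η N i) x
    have := rp_nn η (gr η N (i + 1)) x
    linarith
  have hB : ∀ x, |1 - HT η N x| ≤ 1 := by
    intro x
    rw [abs_of_nonneg (by linarith [HT_le η N x])]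
    linarith [HT_nn η0 N x]
  -- convergence for the hat functions
  have c1 : ∀ i, Tendsto (fun n => ∫ x, ht η N i x ∂(μ n)) atTop (𝓝 (∫ x, ht η N i x ∂ν)) :=
    fun i => hw (BoundedContinuousFunction.ofNormedAddCommGroup (ht η N i) (hc i) 1 (hb i))
  have c2 : Tendsto (fun n => ∫ x, (1 - HT η N x) ∂(μ n)) atTop (𝓝 (∫ x, (1 - HT η N x) ∂ν)) :=
    hw (BoundedContinuousFunction.ofNormedAddCommGroup (fun x => 1 - HT η N x)
      (continuous_const.sub hC) 1 hB)
  have c3 : Tendsto (fun n => ∑ i ∈ Finset.range (2 * N),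
      |∫ x, ht η N i x ∂(μ n) - ∫ x, ht η N i x ∂ν|) atTop (𝓝 0) := by
    have : Tendsto (fun n => ∑ i ∈ Finset.range (2 * N),
      |∫ x, ht η N i x ∂(μ n) - ∫ x, ht η N i x ∂ν|) atTop
        (𝓝 (∑ i ∈ Finset.range (2 * N), (0 : ℝ))) := by
      refine tendsto_finsetSum _ fun i _ => ?_
      have := ((c1 i).sub_const (∫ x, ht η N i x ∂ν)).abs
      simpa using this
    simpa using this
  have tν : ∫ x, (1 - HT η N x) ∂ν ≤ δ1 / 2 := by
    have hm : MeasurableSet {x : ℝ | R < |x|} :=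
      measurableSet_lt measurable_const continuous_abs.measurable
    have e1 : ∫ x, (1 - HT η N x) ∂ν ≤ ∫ x, Set.indicator {x : ℝ | R < |x|} (fun _ => (1 : ℝ)) x ∂ν := by
      refine integral_mono ?_ ((integrable_const 1).indicator hm) fun x => ?_
      · exact Integrable.of_bound (continuous_const.sub hC).aestronglyMeasurable 1
          (ae_of_all _ hB)
      · by_cases hx : x ∈ {x : ℝ | R < |x|}
        · rw [Set.indicator_of_mem hx]; linarith [HT_nn η0 N x]
        · rw [Set.indicator_of_notMem hx]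
          have : |x| ≤ R := not_lt.1 hx
          rw [HT_one η0 (by linarith)]; simp
    rw [integral_indicator hm, setIntegral_const, smul_eq_mul, mul_one] at e1
    exact e1.trans hR
  have ev1 : ∀ᶠ n in atTop, (μ n).real Set.univ < V + 1 := by
    rw [hV]; exact tm.eventually_lt_const (by linarith)
  have ev2 : ∀ᶠ n in atTop, ∫ x, (1 - HT η N x) ∂(μ n) < δ1 :=
    c2.eventually_lt_const (by linarith)
  have ev3 := c3.eventually_lt_const (show (0 : ℝ) < δ1 from δ10)
  filter_upwards [ev1, ev2, ev3] with n e1 e2 e3 k hk1 hk2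
  have ck : Continuous k := by
    have : LipschitzWith (Real.toNNReal K) k := LipschitzWith.of_dist_le_mul fun x y => by
      rw [Real.dist_eq, Real.dist_eq, Real.coe_toNNReal _ hK]; exact hk2 x y
    exact this.continuous
  -- decomposition for a measure `τ`
  have dec : ∀ τ : Measure ℝ, IsFiniteMeasure τ → τ.real Set.univ ≤ V + 1 →
      |∫ x, k x ∂τ - ∑ i ∈ Finset.range (2 * N), k (gr η N i) * ∫ x, ht η N i x ∂τ| ≤
        2 * K * η * (V + 1) + M * ∫ x, (1 - HT η N x) ∂τ := by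
    intro τ hτ hτV
    have i1 : Integrable (fun x => k x * HT η N x) τ := by
      refine Integrable.of_bound (ck.mul hC).aestronglyMeasurable M (ae_of_all _ fun x => ?_)
      rw [Real.norm_eq_abs, abs_mul, abs_of_nonneg (HT_nn η0 N x)]
      calc |k x| * HT η N x ≤ M * 1 := mul_le_mul (hk1 x) (HT_le η N x) (HT_nn η0 N x) hM
        _ = M := mul_one M
    have i2 : Integrable (fun x => k x * (1 - HT η N x)) τ := by
      refine Integrable.of_bound (ck.mul (continuous_const.sub hC)).aestronglyMeasurable M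
        (ae_of_all _ fun x => ?_)
      rw [Real.norm_eq_abs, abs_mul]
      calc |k x| * |1 - HT η N x| ≤ M * 1 := mul_le_mul (hk1 x) (hB x) (abs_nonneg _) hM
        _ = M := mul_one M
    have i3 : ∀ i, Integrable (ht η N i) τ := fun i =>
      Integrable.of_bound (hc i).aestronglyMeasurable 1 (ae_of_all _ (hb i))
    have i4 : Integrable (fun x => 1 - HT η N x) τ :=
      Integrable.of_bound (continuous_const.sub hC).aestronglyMeasurable 1 (ae_of_all _ hB)
    have i5 : Integrable (fun x => ∑ i ∈ Finset.range (2 * N), k (gr η N i) * ht η N i x) τ :=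
      integrable_finsetSum _ fun i _ => (i3 i).const_mul _
    have s1 : ∫ x, k x ∂τ = (∫ x, k x * HT η N x ∂τ) + ∫ x, k x * (1 - HT η N x) ∂τ := by
      rw [← integral_add i1 i2]; congr 1; funext x; ring
    have s2 : ∑ i ∈ Finset.range (2 * N), k (gr η N i) * ∫ x, ht η N i x ∂τ =
        ∫ x, ∑ i ∈ Finset.range (2 * N), k (gr η N i) * ht η N i x ∂τ := by
      rw [integral_finsetSum _ fun i _ => (i3 i).const_mul _]
      exact Finset.sum_congr rfl fun i _ => (integral_const_mul _ _).symm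
    rw [s1, s2]
    have s3 : |(∫ x, k x * HT η N x ∂τ) -
        ∫ x, ∑ i ∈ Finset.range (2 * N), k (gr η N i) * ht η N i x ∂τ| ≤ 2 * K * η * (V + 1) := by
      rw [← integral_sub i1 i5]
      refine (abs_integral_le_integral_abs).trans ?_
      refine (integral_mono (i1.sub i5).abs (integrable_const (2 * K * η)) fun x =>
        hat_app η0 N hK hk2 x).trans ?_
      rw [integral_const, smul_eq_mul, mul_comm]
      exact mul_le_mul_of_nonneg_left hτV (by positivity)
    have s4 : |∫ x, k x * (1 - HT η N x) ∂τ| ≤ M * ∫ x, (1 - HT η N x) ∂τ := by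
      rw [← integral_const_mul]
      refine (abs_integral_le_integral_abs).trans ?_
      refine integral_mono i2.abs (i4.const_mul M) fun x => ?_
      show |k x * (1 - HT η N x)| ≤ M * (1 - HT η N x)
      have : 0 ≤ 1 - HT η N x := by linarith [HT_le η N x]
      rw [abs_mul, abs_of_nonneg this]
      exact mul_le_mul_of_nonneg_right (hk1 x) this
    have e : (∫ x, k x * HT η N x ∂τ) + (∫ x, k x * (1 - HT η N x) ∂τ) -
        ∫ x, ∑ i ∈ Finset.range (2 * N), k (gr η N i) * ht η N i x ∂τ =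
        ((∫ x, k x * HT η N x ∂τ) -
          ∫ x, ∑ i ∈ Finset.range (2 * N), k (gr η N i) * ht η N i x ∂τ) +
          ∫ x, k x * (1 - HT η N x) ∂τ := by ring
    rw [e]
    exact (abs_add_le _ _).trans (add_le_add s3 s4)
  have d1 := dec (μ n) inferInstance e1.le
  have d2 := dec ν inferInstance (by rw [← hV]; linarith)
  have d3 : |∑ i ∈ Finset.range (2 * N), k (gr η N i) * ∫ x, ht η N i x ∂(μ n) -
      ∑ i ∈ Finset.range (2 * N), k (gr η N i) * ∫ x, ht η N i x ∂ν| ≤ M * δ1 := by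
    rw [← Finset.sum_sub_distrib]
    refine (Finset.abs_sum_le_sum_abs _ _).trans ?_
    have : ∀ i ∈ Finset.range (2 * N), |k (gr η N i) * ∫ x, ht η N i x ∂(μ n) -
        k (gr η N i) * ∫ x, ht η N i x ∂ν| ≤
        M * |∫ x, ht η N i x ∂(μ n) - ∫ x, ht η N i x ∂ν| := by
      intro i _
      rw [← mul_sub, abs_mul]
      exact mul_le_mul_of_nonneg_right (hk1 _) (abs_nonneg _)
    refine (Finset.sum_le_sum this).trans ?_
    rw [← Finset.mul_sum]
    exact mul_le_mul_of_nonneg_left e3.le hM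
  have f1 : M * ∫ x, (1 - HT η N x) ∂(μ n) ≤ M * δ1 := mul_le_mul_of_nonneg_left e2.le hM
  have f2 : M * ∫ x, (1 - HT η N x) ∂ν ≤ M * δ1 :=
    mul_le_mul_of_nonneg_left (by linarith) hM
  have f3 : M * δ1 ≤ δ / 4 := by
    rw [hδ1, ← mul_div_assoc, div_le_div_iff₀ (by positivity) (by positivity)]
    nlinarith
  have f4 : 2 * K * η * (V + 1) ≤ δ / 8 := by
    rw [hη]
    have e : 2 * K * (δ / (16 * ((K + 1) * (V + 1)))) * (V + 1) = K / (K + 1) * (δ / 8) := by
      field_simp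
      ring
    rw [e]
    have : K / (K + 1) ≤ 1 := by rw [div_le_one (by positivity)]; linarith
    nlinarith
  have e : ∫ x, k x ∂(μ n) - ∫ x, k x ∂ν =
      (∫ x, k x ∂(μ n) - ∑ i ∈ Finset.range (2 * N), k (gr η N i) * ∫ x, ht η N i x ∂(μ n)) -
      (∫ x, k x ∂ν - ∑ i ∈ Finset.range (2 * N), k (gr η N i) * ∫ x, ht η N i x ∂ν) +
      (∑ i ∈ Finset.range (2 * N), k (gr η N i) * ∫ x, ht η N i x ∂(μ n) -
      ∑ i ∈ Finset.range (2 * N), k (gr η N i) * ∫ x, ht η N i x ∂ν) := by ring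
  rw [e]
  refine (abs_add_le _ _).trans ?_
  have := abs_sub (∫ x, k x ∂(μ n) - ∑ i ∈ Finset.range (2 * N), k (gr η N i) *
    ∫ x, ht η N i x ∂(μ n)) (∫ x, k x ∂ν - ∑ i ∈ Finset.range (2 * N), k (gr η N i) *
      ∫ x, ht η N i x ∂ν)
  linarith

/-- approximation of bounded measurable functions -/
lemma exists_app (τ : Measure ℝ) [IsFiniteMeasure τ] {f : ℝ → ℝ} (hf : Measurable f)
    (hf1 : ∀ x, |f x| ≤ 1) {δ : ℝ} (hδ : 0 < δ) :
    ∃ g : ℝ → ℝ, ContDiff ℝ ∞ g ∧ HasCompactSupport g ∧ (∀ x, |g x| ≤ 2) ∧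
      ∫ x, |f x - g x| ∂τ ≤ δ := by
  have If : Integrable f τ := Integrable.of_bound hf.aestronglyMeasurable 1 (ae_of_all _ hf1)
  obtain ⟨g0, cg0, ig0, ctg0, Ig0⟩ := If.exists_hasCompactSupport_integral_sub_le
    (by positivity : 0 < δ / 2)
  obtain ⟨g1, hg1⟩ : ∃ g1 : ℝ → ℝ, g1 = fun x => max (-1) (min 1 (g0 x)) := ⟨_, rfl⟩
  have c1 : Continuous g1 := by rw [hg1]; fun_prop
  have b1 : ∀ x, |g1 x| ≤ 1 := fun x => by
    rw [hg1, abs_le]
    exact ⟨le_max_left _ _, max_le (by norm_num) (min_le_left _ _)⟩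
  have k1 : HasCompactSupport g1 := by
    refine cg0.mono fun x hx => ?_
    rw [Function.mem_support] at hx ⊢
    intro h0
    apply hx
    rw [hg1]
    simp only [h0]
    norm_num
  obtain ⟨p, hp⟩ : ∃ p, p = min 1 (δ / (2 * (τ.real Set.univ + 1))) := ⟨_, rfl⟩
  have T0 : 0 ≤ τ.real Set.univ := measureReal_nonneg
  have p0 : 0 < p := by rw [hp]; exact lt_min one_pos (by positivity)
  obtain ⟨g2, s2, a2, u2⟩ := c1.exists_contDiff_approx ⊤ (ε := fun _ => p) continuous_const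
    fun _ => p0
  have cl : ∀ x, |f x - g1 x| ≤ |f x - g0 x| := by
    intro x
    have h1 := abs_le.1 (hf1 x)
    simp only [hg1]
    rcases le_total (g0 x) 1 with h | h
    · rw [min_eq_right h]
      rcases le_total (-1) (g0 x) with h' | h'
      · rw [max_eq_right h']
      · rw [max_eq_left h', abs_of_nonneg (by linarith), abs_of_nonneg (by linarith)]
        linarith
    · rw [min_eq_left h, max_eq_right (by norm_num)]
      rw [abs_of_nonpos (by linarith), abs_of_nonpos (by linarith)]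
      linarith
  refine ⟨g2, s2, k1.mono u2, fun x => ?_, ?_⟩
  · have := a2 x
    rw [Real.dist_eq] at this
    have h1 := abs_sub_abs_le_abs_sub (g2 x) (g1 x)
    have h2 := b1 x
    have h3 : p ≤ 1 := by rw [hp]; exact min_le_left _ _
    linarith
  · have I2 : Integrable g2 τ := s2.continuous.integrable_of_hasCompactSupport (k1.mono u2)
    have I1 : Integrable g1 τ := c1.integrable_of_hasCompactSupport k1
    have e1 : ∫ x, |f x - g2 x| ∂τ ≤ ∫ x, (‖f x - g0 x‖ + p) ∂τ := by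
      refine integral_mono (If.sub I2).abs ((If.sub Ig0).norm.add (integrable_const p)) fun x => ?_
      have h1 := a2 x
      rw [Real.dist_eq, abs_sub_comm] at h1
      have h2 := cl x
      have h3 := abs_sub_le (f x) (g1 x) (g2 x)
      show |f x - g2 x| ≤ ‖f x - g0 x‖ + p
      rw [Real.norm_eq_abs]
      linarith
    have e0 : ∫ x, (‖f x - g0 x‖ + p) ∂τ = (∫ x, ‖f x - g0 x‖ ∂τ) + ∫ _, p ∂τ :=
      integral_add (If.sub Ig0).norm (integrable_const p)
    rw [e0, integral_const, smul_eq_mul] at e1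
    have e2 : τ.real Set.univ * p ≤ δ / 2 := by
      have h1 : p ≤ δ / (2 * (τ.real Set.univ + 1)) := by rw [hp]; exact min_le_right _ _
      have h2 := mul_le_mul_of_nonneg_left h1 T0
      refine h2.trans ?_
      rw [← mul_div_assoc, div_le_div_iff₀ (by positivity) (by positivity)]
      nlinarith
    linarith

end

end Pool.Agent.N252.TV
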