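import Pool.Agent.N252.TV.C
import Pool.Agent.N252.TV.R

/-!
Project TV (helper252): from the regularity inequality to convergence in total variation.
-/

set_option autoImplicit false
open MeasureTheory Filter Topology
open scoped ContDiff ENNReal BoundedContinuousFunction

namespace Pool.Agent.N252.TV

noncomputable section

/-- uniform regularity of a measure at the scale `ε` -/
def Osc (μ : Measure ℝ) (ε δ : ℝ) : Prop :=
  ∀ f : ℝ → ℝ, ContDiff ℝ ∞ f → HasCompactSupport f → (∀ x, |f x| ≤ 2) →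
    |∫ x, (sm f ε x - f x) * th x ∂μ| ≤ δ

lemma th_lip (x y : ℝ) : |th x - th y| ≤ |x - y| := by
  have h : ∀ z ∈ (Set.univ : Set ℝ), HasDerivWithinAt th (2 * z / (1 + z ^ 2) ^ 2) Set.univ z :=
    fun z _ => (th_d z).hasDerivWithinAt
  have := Convex.norm_image_sub_le_of_norm_hasDerivWithin_le (C := 1) h (fun z _ => th_d1 z)
    convex_univ (Set.mem_univ y) (Set.mem_univ x)
  rw [one_mul] at this
  exact this

lemma th_mono {b x : ℝ} (hb : 0 ≤ b) (h : b ≤ |x|) : th b ≤ th x := by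
  unfold th
  have h1 : b ^ 2 ≤ x ^ 2 := by
    rw [← sq_abs x]
    exact pow_le_pow_left₀ hb h 2
  rw [div_le_div_iff₀ (by positivity) (by positivity)]
  nlinarith

lemma th_pos {b : ℝ} (hb : 0 < b) : 0 < th b := by unfold th; positivity

lemma th_abs_le (x : ℝ) : |th x| ≤ 1 := by
  rw [abs_of_nonneg (th_nn x)]; exact th_le_one x

lemma osc_bd {f : ℝ → ℝ} (hf : Continuous f) (hb : ∀ x, |f x| ≤ 2) {ε : ℝ} (hε : 0 < ε) (x : ℝ) :
    |(sm f ε x - f x) * th x| ≤ 4 := by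
  rw [abs_mul]
  have h1 := abs_sub (sm f ε x) (f x)
  have h2 := sm_bd hf hb hε x
  have h3 := hb x
  have h4 : |sm f ε x - f x| ≤ 4 := by linarith
  have := mul_le_mul h4 (th_abs_le x) (abs_nonneg _) (by norm_num)
  linarith

lemma osc_cont {f : ℝ → ℝ} (hf : Continuous f) (ε : ℝ) :
    Continuous fun x => (sm f ε x - f x) * th x :=
  ((sm_cont hf ε).sub hf).mul th_sm.continuous

variable {μ : ℕ → Measure ℝ} [∀ n, IsFiniteMeasure (μ n)] {ν : Measure ℝ} [IsFiniteMeasure ν]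

omit [∀ n, IsFiniteMeasure (μ n)] [IsFiniteMeasure ν] in
lemma osc_lim (hw : ∀ g : ℝ →ᵇ ℝ, Tendsto (fun n => ∫ x, g x ∂(μ n)) atTop (𝓝 (∫ x, g x ∂ν)))
    {ε δ : ℝ} (hε : 0 < ε) (h : ∀ᶠ n in atTop, Osc (μ n) ε δ) : Osc ν ε δ := by
  intro f sf kf bf
  have h1 := hw (BoundedContinuousFunction.ofNormedAddCommGroup
    (fun x => (sm f ε x - f x) * th x) (osc_cont sf.continuous ε) 4
    (osc_bd sf.continuous bf hε))
  exact le_of_tendsto h1.abs (h.mono fun n hn => hn f sf kf bf)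

/-- convergence in total variation away from zero -/
theorem tv_far (hosc : ∀ δ : ℝ, 0 < δ → ∃ ε : ℝ, 0 < ε ∧ ∀ᶠ n in atTop, Osc (μ n) ε δ)
    (hw : ∀ g : ℝ →ᵇ ℝ, Tendsto (fun n => ∫ x, g x ∂(μ n)) atTop (𝓝 (∫ x, g x ∂ν)))
    {b : ℝ} (hb : 0 < b) {δ : ℝ} (hδ : 0 < δ) :
    ∀ᶠ n in atTop, ∀ g : ℝ → ℝ, Measurable g → (∀ x, |g x| ≤ 1) → (∀ x, |x| < b → g x = 0) →
      |∫ x, g x ∂(μ n) - ∫ x, g x ∂ν| ≤ δ := by
  obtain ⟨t, ht⟩ : ∃ t, t = th b := ⟨_, rfl⟩
  have t0 : 0 < t := by rw [ht]; exact th_pos hb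
  have t1 : t ≤ 1 := by rw [ht]; exact th_le_one b
  obtain ⟨d, hd⟩ : ∃ d, d = t * δ / 8 := ⟨_, rfl⟩
  have d0 : 0 < d := by rw [hd]; positivity
  obtain ⟨ε, hε, ho⟩ := hosc d d0
  have hν := osc_lim hw hε ho
  have hu := unif_lip hw (K := 2 * 2 / ε + 2) (M := 2) (by positivity) (by norm_num) d0
  filter_upwards [ho, hu] with n o1 o2 g mg g1 g0
  obtain ⟨f, hf⟩ : ∃ f : ℝ → ℝ, f = fun x => t * (g x / th x) := ⟨_, rfl⟩
  have mf : Measurable f := by
    rw [hf]; exact (mg.div th_sm.continuous.measurable).const_mul t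
  have f1 : ∀ x, |f x| ≤ 1 := by
    intro x
    simp only [hf]
    rcases lt_or_ge |x| b with h | h
    · rw [g0 x h]; simp
    · have hx : t ≤ th x := by rw [ht]; exact th_mono hb.le h
      have hx0 : 0 < th x := by linarith
      rw [abs_mul, abs_div, abs_of_pos t0, abs_of_pos hx0, ← mul_div_assoc, div_le_one hx0]
      have := g1 x
      nlinarith [abs_nonneg (g x)]
  have fg : ∀ x, f x * th x = t * g x := by
    intro x
    simp only [hf]
    rcases lt_or_ge |x| b with h | h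
    · rw [g0 x h]; simp
    · have hx0 : 0 < th x := lt_of_lt_of_le (th_pos hb) (th_mono hb.le h)
      field_simp
  obtain ⟨k, sk, ck, bk, ak⟩ := exists_app (μ n + ν) mf f1 d0
  have ckc := sk.continuous
  have ib : ∀ τ : Measure ℝ, IsFiniteMeasure τ → Integrable (fun x => |f x - k x|) τ := by
    intro τ hτ
    refine (Integrable.of_bound (mf.aestronglyMeasurable.sub
      ckc.aestronglyMeasurable) 3 (ae_of_all _ fun x => ?_)).abs
    show |f x - k x| ≤ 3
    have := abs_sub (f x) (k x)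
    have := f1 x
    have := bk x
    linarith
  rw [integral_add_measure (ib _ inferInstance) (ib _ inferInstance)] at ak
  have p1 : 0 ≤ ∫ x, |f x - k x| ∂(μ n) := integral_nonneg fun x => abs_nonneg _
  have p2 : 0 ≤ ∫ x, |f x - k x| ∂ν := integral_nonneg fun x => abs_nonneg _
  -- the three steps for a measure
  have st : ∀ τ : Measure ℝ, IsFiniteMeasure τ → Osc τ ε d → ∫ x, |f x - k x| ∂τ ≤ d →
      |∫ x, f x * th x ∂τ - ∫ x, sm k ε x * th x ∂τ| ≤ 2 * d := by
    intro τ hτ oτ aτ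
    have i1 : Integrable (fun x => f x * th x) τ := by
      refine Integrable.of_bound (mf.aestronglyMeasurable.mul
        th_sm.continuous.aestronglyMeasurable) 1 (ae_of_all _ fun x => ?_)
      rw [Real.norm_eq_abs, abs_mul]
      have := mul_le_mul (f1 x) (th_abs_le x) (abs_nonneg _) zero_le_one
      linarith
    have i2 : Integrable (fun x => sm k ε x * th x) τ := by
      refine Integrable.of_bound ((sm_cont ckc ε).mul th_sm.continuous).aestronglyMeasurable 2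
        (ae_of_all _ fun x => ?_)
      rw [Real.norm_eq_abs, abs_mul]
      have := mul_le_mul (sm_bd ckc bk hε x) (th_abs_le x) (abs_nonneg _) (by norm_num)
      linarith
    have i3 : Integrable (fun x => k x * th x) τ := by
      refine Integrable.of_bound (ckc.mul th_sm.continuous).aestronglyMeasurable 2
        (ae_of_all _ fun x => ?_)
      rw [Real.norm_eq_abs, abs_mul]
      have := mul_le_mul (bk x) (th_abs_le x) (abs_nonneg _) (by norm_num)
      linarith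
    have a1 : |∫ x, f x * th x ∂τ - ∫ x, k x * th x ∂τ| ≤ d := by
      rw [← integral_sub i1 i3]
      refine (abs_integral_le_integral_abs).trans (le_trans ?_ aτ)
      refine integral_mono (i1.sub i3).abs (ib τ hτ) fun x => ?_
      show |f x * th x - k x * th x| ≤ |f x - k x|
      rw [← sub_mul, abs_mul]
      exact mul_le_of_le_one_right (abs_nonneg _) (th_abs_le x)
    have a2 : |∫ x, sm k ε x * th x ∂τ - ∫ x, k x * th x ∂τ| ≤ d := by
      rw [← integral_sub i2 i3]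
      have := oτ k sk ck bk
      refine le_trans (le_of_eq ?_) this
      congr 2
      funext x
      ring
    have e : ∫ x, f x * th x ∂τ - ∫ x, sm k ε x * th x ∂τ =
      (∫ x, f x * th x ∂τ - ∫ x, k x * th x ∂τ) -
        (∫ x, sm k ε x * th x ∂τ - ∫ x, k x * th x ∂τ) := by ring
    rw [e]
    have := abs_sub (∫ x, f x * th x ∂τ - ∫ x, k x * th x ∂τ)
      (∫ x, sm k ε x * th x ∂τ - ∫ x, k x * th x ∂τ)
    linarith
  have s1 := st (μ n) inferInstance o1 (by linarith)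
  have s2 := st ν inferInstance hν (by linarith)
  have s3 := o2 (fun x => sm k ε x * th x) (fun x => by
      rw [abs_mul]
      have := mul_le_mul (sm_bd ckc bk hε x) (th_abs_le x) (abs_nonneg _) (by norm_num)
      linarith)
    (fun x y => by
      have e : sm k ε x * th x - sm k ε y * th y =
        (sm k ε x - sm k ε y) * th x + sm k ε y * (th x - th y) := by ring
      rw [e]
      refine (abs_add_le _ _).trans ?_
      rw [abs_mul, abs_mul]
      have h1 := mul_le_mul (sm_lip ckc bk hε x y) (th_abs_le x) (abs_nonneg _) (by positivity)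
      have h2 := mul_le_mul (sm_bd ckc bk hε y) (th_lip x y) (abs_nonneg _) (by norm_num)
      have e3 : (2 * 2 / ε + 2) * |x - y| = 2 * 2 / ε * |x - y| * 1 + 2 * |x - y| := by ring
      rw [e3]
      exact add_le_add h1 h2)
  have q : ∀ τ : Measure ℝ, ∫ x, f x * th x ∂τ = t * ∫ x, g x ∂τ := by
    intro τ
    rw [← integral_const_mul]
    congr 1
    funext x
    exact fg x
  rw [q] at s1 s2
  have fin : |t * ∫ x, g x ∂(μ n) - t * ∫ x, g x ∂ν| ≤ 5 * d := by
    have e : t * ∫ x, g x ∂(μ n) - t * ∫ x, g x ∂ν =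
        (t * ∫ x, g x ∂(μ n) - ∫ x, sm k ε x * th x ∂(μ n)) -
        (t * ∫ x, g x ∂ν - ∫ x, sm k ε x * th x ∂ν) +
        (∫ x, sm k ε x * th x ∂(μ n) - ∫ x, sm k ε x * th x ∂ν) := by ring
    rw [e]
    refine (abs_add_le _ _).trans ?_
    have := abs_sub (t * ∫ x, g x ∂(μ n) - ∫ x, sm k ε x * th x ∂(μ n))
      (t * ∫ x, g x ∂ν - ∫ x, sm k ε x * th x ∂ν)
    linarith
  rw [← mul_sub, abs_mul, abs_of_pos t0, hd] at fin
  have : t * |∫ x, g x ∂(μ n) - ∫ x, g x ∂ν| ≤ t * δ := by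
    have : 0 < t * δ := by positivity
    linarith
  exact le_of_mul_le_mul_left this t0

/-- small neighbourhoods of zero -/
lemma near_zero (h0 : ν {0} = 0) {δ : ℝ} (hδ : 0 < δ) :
    ∃ b : ℝ, 0 < b ∧ ν.real {x | |x| ≤ b} ≤ δ := by
  have h2 : Tendsto (ν ∘ fun n : ℕ => {x : ℝ | |x| ≤ 1 / ((n : ℝ) + 1)}) atTop
      (𝓝 (ν (⋂ n : ℕ, {x : ℝ | |x| ≤ 1 / ((n : ℝ) + 1)}))) := by
    refine tendsto_measure_iInter_atTop (fun n => ?_) ?_ ⟨0, measure_ne_top _ _⟩
    · exact (measurableSet_le continuous_abs.measurable measurable_const).nullMeasurableSet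
    · intro m n hmn x hx
      have h : (m : ℝ) ≤ n := by exact_mod_cast hmn
      have : (1 : ℝ) / ((n : ℝ) + 1) ≤ 1 / ((m : ℝ) + 1) :=
        one_div_le_one_div_of_le (by positivity) (by linarith)
      exact le_trans hx this
  have e : (⋂ n : ℕ, {x : ℝ | |x| ≤ 1 / ((n : ℝ) + 1)}) = {0} := by
    ext x
    simp only [Set.mem_iInter, Set.mem_singleton_iff]
    constructor
    · intro h
      by_contra hx
      obtain ⟨n, hn⟩ := exists_nat_one_div_lt (abs_pos.2 hx)
      exact absurd (h n) (not_le.2 hn)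
    · intro h n
      show |x| ≤ _
      rw [h, abs_zero]; positivity
  rw [e, h0] at h2
  have h3 := (ENNReal.tendsto_toReal ENNReal.zero_ne_top).comp h2
  have h4 : ∀ᶠ n : ℕ in atTop, (ν {x : ℝ | |x| ≤ 1 / ((n : ℝ) + 1)}).toReal < δ := by
    apply h3.eventually_lt_const
    simpa using hδ
  obtain ⟨n, hn⟩ := h4.exists
  exact ⟨1 / ((n : ℝ) + 1), by positivity, hn.le⟩

/-- **Convergence in total variation.** -/
theorem tv_all (hosc : ∀ δ : ℝ, 0 < δ → ∃ ε : ℝ, 0 < ε ∧ ∀ᶠ n in atTop, Osc (μ n) ε δ)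
    (hw : ∀ g : ℝ →ᵇ ℝ, Tendsto (fun n => ∫ x, g x ∂(μ n)) atTop (𝓝 (∫ x, g x ∂ν)))
    (h0 : ν {0} = 0) {δ : ℝ} (hδ : 0 < δ) :
    ∀ᶠ n in atTop, ∀ g : ℝ → ℝ, Measurable g → (∀ x, |g x| ≤ 1) →
      |∫ x, g x ∂(μ n) - ∫ x, g x ∂ν| ≤ δ := by
  obtain ⟨c, c0, hc⟩ := near_zero h0 (by positivity : 0 < δ / 8)
  obtain ⟨b, hb⟩ : ∃ b, b = c / 2 := ⟨_, rfl⟩
  have b0 : 0 < b := by rw [hb]; positivity
  obtain ⟨ψ, hψ⟩ : ∃ ψ : ℝ → ℝ, ψ = fun x => max 0 (min 1 (2 - |x| / b)) := ⟨_, rfl⟩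
  have cψ : Continuous ψ := by rw [hψ]; fun_prop
  have ψ0 : ∀ x, 0 ≤ ψ x := fun x => by rw [hψ]; exact le_max_left _ _
  have ψ1 : ∀ x, ψ x ≤ 1 := fun x => by rw [hψ]; exact max_le zero_le_one (min_le_left _ _)
  have ψb : ∀ x, |x| < b → ψ x = 1 := by
    intro x hx
    simp only [hψ]
    have : |x| / b ≤ 1 := by rw [div_le_one b0]; exact hx.le
    rw [min_eq_left (by linarith), max_eq_right zero_le_one]
  have ψc : ∀ x, c < |x| → ψ x = 0 := by
    intro x hx
    simp only [hψ]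
    have : 2 ≤ |x| / b := by rw [le_div_iff₀ b0, hb]; linarith
    rw [min_eq_right (by linarith), max_eq_left (by linarith)]
  have ψa : ∀ x, |ψ x| ≤ 1 := fun x => by rw [abs_of_nonneg (ψ0 x)]; exact ψ1 x
  have lim := hw (BoundedContinuousFunction.ofNormedAddCommGroup ψ cψ 1 ψa)
  have iψ : ∀ τ : Measure ℝ, IsFiniteMeasure τ → Integrable ψ τ := fun τ _ =>
    Integrable.of_bound cψ.aestronglyMeasurable 1 (ae_of_all _ ψa)
  have eν : ∫ x, ψ x ∂ν ≤ δ / 8 := by
    have hm : MeasurableSet {x : ℝ | |x| ≤ c} :=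
      measurableSet_le continuous_abs.measurable measurable_const
    have e1 : ∫ x, ψ x ∂ν ≤ ∫ x, Set.indicator {x : ℝ | |x| ≤ c} (fun _ => (1 : ℝ)) x ∂ν := by
      refine integral_mono (iψ ν inferInstance) ((integrable_const 1).indicator hm) fun x => ?_
      by_cases hx : x ∈ {x : ℝ | |x| ≤ c}
      · rw [Set.indicator_of_mem hx]; exact ψ1 x
      · rw [Set.indicator_of_notMem hx, ψc x (not_le.1 hx)]
    rw [integral_indicator hm, setIntegral_const, smul_eq_mul, mul_one] at e1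
    exact e1.trans hc
  have ev1 : ∀ᶠ n in atTop, ∫ x, ψ x ∂(μ n) < δ / 4 :=
    lim.eventually_lt_const (lt_of_le_of_lt eν (by linarith))
  have ev2 := tv_far hosc hw b0 (by positivity : 0 < δ / 4)
  filter_upwards [ev1, ev2] with n e1 e2 g mg g1
  obtain ⟨g2, hg2⟩ : ∃ g2 : ℝ → ℝ, g2 = Set.indicator {x : ℝ | b ≤ |x|} g := ⟨_, rfl⟩
  have hm2 : MeasurableSet {x : ℝ | b ≤ |x|} :=
    measurableSet_le measurable_const continuous_abs.measurable
  have mg2 : Measurable g2 := by rw [hg2]; exact mg.indicator hm2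
  have g21 : ∀ x, |g2 x| ≤ 1 := by
    intro x
    rw [hg2]
    by_cases hx : x ∈ {x : ℝ | b ≤ |x|}
    · rw [Set.indicator_of_mem hx]; exact g1 x
    · rw [Set.indicator_of_notMem hx]; simp
  have g20 : ∀ x, |x| < b → g2 x = 0 := by
    intro x hx
    rw [hg2, Set.indicator_of_notMem]
    exact not_le.2 hx
  have e3 := e2 g2 mg2 g21 g20
  have cl : ∀ τ : Measure ℝ, IsFiniteMeasure τ → |∫ x, g x ∂τ - ∫ x, g2 x ∂τ| ≤ ∫ x, ψ x ∂τ := by
    intro τ hτ
    have i1 : Integrable g τ := Integrable.of_bound mg.aestronglyMeasurable 1 (ae_of_all _ g1)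
    have i2 : Integrable g2 τ := Integrable.of_bound mg2.aestronglyMeasurable 1 (ae_of_all _ g21)
    rw [← integral_sub i1 i2]
    refine (abs_integral_le_integral_abs).trans ?_
    refine integral_mono (i1.sub i2).abs (iψ τ hτ) fun x => ?_
    show |g x - g2 x| ≤ ψ x
    rcases lt_or_ge |x| b with h | h
    · rw [g20 x h, ψb x h, sub_zero]; exact g1 x
    · have : g2 x = g x := by
        rw [hg2, Set.indicator_of_mem]
        exact h
      rw [this, sub_self, abs_zero]; exact ψ0 x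
  have c1 := cl (μ n) inferInstance
  have c2 := cl ν inferInstance
  have e : ∫ x, g x ∂(μ n) - ∫ x, g x ∂ν = (∫ x, g x ∂(μ n) - ∫ x, g2 x ∂(μ n)) -
      (∫ x, g x ∂ν - ∫ x, g2 x ∂ν) + (∫ x, g2 x ∂(μ n) - ∫ x, g2 x ∂ν) := by ring
  rw [e]
  refine (abs_add_le _ _).trans ?_
  have := abs_sub (∫ x, g x ∂(μ n) - ∫ x, g2 x ∂(μ n)) (∫ x, g x ∂ν - ∫ x, g2 x ∂ν)
  linarith

end

end Pool.Agent.N252.TV
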