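import Pool.Agent.N252.TV.E
import Pool.Agent.N252.TV.T

/-!
Project TV (helper252): surfaces, charts, and the regularity of laws on the whole surface.
-/

set_option autoImplicit false
open MeasureTheory Filter Topology Complex
open scoped ContDiff ENNReal BoundedContinuousFunction

namespace Pool.Agent.N252.TV

open Pool.Agent.TH294.RS Pool.Agent.W745.RW

noncomputable section

/-- a chart of isothermal coordinates: the metric is `ρ |dz|²`, the area is `ρ dx dy` -/
structure IsoChart (X : Type*) [TopologicalSpace X] [MeasurableSpace X] (vol : Measure X) where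
  c : OpenPartialHomeomorph X ℂ
  ρ : ℂ → ℝ
  smooth : ContDiffOn ℝ ∞ ρ c.target
  pos : ∀ z ∈ c.target, 0 < ρ z
  area : ∀ A : Set X, MeasurableSet A → A ⊆ c.source →
    vol A = ∫⁻ z in c '' A, ENNReal.ofReal (ρ z)

variable {X : Type*} [TopologicalSpace X] [MeasurableSpace X] {vol : Measure X}

/-- the area measure in the chart -/
def IsoChart.m (C : IsoChart X vol) : Measure ℂ :=
  (volume.restrict C.c.target).withDensity (fun z => ENNReal.ofReal (C.ρ z))

lemma IsoChart.aer (C : IsoChart X vol) :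
    AEMeasurable (fun z => ENNReal.ofReal (C.ρ z)) (volume.restrict C.c.target) :=
  (C.smooth.continuousOn.aemeasurable C.c.open_target.measurableSet).ennreal_ofReal

lemma IsoChart.intm (C : IsoChart X vol) (F : ℂ → ℝ) :
    ∫ z, F z ∂C.m = ∫ z in C.c.target, C.ρ z * F z := by
  rw [IsoChart.m, integral_withDensity_eq_integral_toReal_smul₀ C.aer
    (ae_of_all _ fun z => ENNReal.ofReal_lt_top)]
  refine setIntegral_congr_fun C.c.open_target.measurableSet fun z hz => ?_
  show (ENNReal.ofReal (C.ρ z)).toReal • F z = C.ρ z * F z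
  rw [ENNReal.toReal_ofReal (C.pos z hz).le, smul_eq_mul]

lemma IsoChart.intt (C : IsoChart X vol) {χ : ℂ → ℝ} (hχ : TF C.c.target χ) (F : ℂ → ℝ) :
    ∫ z, χ z * F z ∂C.m = ∫ z, (χ z * C.ρ z) * F z := by
  rw [C.intm, ← integral_indicator C.c.open_target.measurableSet]
  congr 1
  funext z
  by_cases hz : z ∈ C.c.target
  · rw [Set.indicator_of_mem hz]; ring
  · rw [Set.indicator_of_notMem hz, image_eq_zero_of_notMem_tsupport fun h => hz (hχ.2.2 h)]
    ring

lemma IsoChart.tfm (C : IsoChart X vol) {χ : ℂ → ℝ} (hχ : TF C.c.target χ) :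
    TF C.c.target fun z => χ z * C.ρ z := by
  have hs : tsupport (fun z => χ z * C.ρ z) ⊆ tsupport χ := tsupport_mul_subset_left
  refine ⟨contDiff_iff_contDiffAt.2 fun x => ?_, hχ.2.1.mul_right, hs.trans hχ.2.2⟩
  by_cases hx : x ∈ tsupport χ
  · exact (hχ.1.contDiffAt).mul (C.smooth.contDiffAt (C.c.open_target.mem_nhds (hχ.2.2 hx)))
  · have : (fun z => χ z * C.ρ z) =ᶠ[𝓝 x] fun _ => 0 := by
      filter_upwards [(isClosed_tsupport χ).isOpen_compl.mem_nhds hx] with z hz
      rw [image_eq_zero_of_notMem_tsupport hz, zero_mul]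
    exact contDiffAt_const.congr_of_eventuallyEq this

variable [BorelSpace X]

lemma IsoChart.aem (C : IsoChart X vol) : AEMeasurable C.c.symm (volume.restrict C.c.target) :=
  C.c.continuousOn_symm.aemeasurable C.c.open_target.measurableSet

lemma IsoChart.aem' (C : IsoChart X vol) : AEMeasurable C.c.symm C.m :=
  C.aem.mono_ac (withDensity_absolutelyContinuous _ _)

lemma IsoChart.map (C : IsoChart X vol) : C.m.map C.c.symm = vol.restrict C.c.source := by
  ext s hs
  rw [Measure.map_apply_of_aemeasurable C.aem' hs, Measure.restrict_apply hs, IsoChart.m,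
    withDensity_apply', Measure.restrict_restrict' C.c.open_target.measurableSet,
    C.area (s ∩ C.c.source) (hs.inter C.c.open_source.measurableSet) Set.inter_subset_right,
    Set.inter_comm s, C.c.image_source_inter_eq', Set.inter_comm]

lemma IsoChart.fin (C : IsoChart X vol) [IsFiniteMeasure vol] : IsFiniteMeasure C.m := by
  constructor
  have : C.m Set.univ = vol C.c.source := by
    have h := congrArg (fun μ : Measure X => μ Set.univ) C.map
    simp only [Measure.map_apply_of_aemeasurable C.aem' MeasurableSet.univ, Set.preimage_univ,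
      Measure.restrict_apply MeasurableSet.univ, Set.univ_inter] at h
    exact h
  rw [this]
  exact measure_lt_top _ _

lemma IsoChart.int (C : IsoChart X vol) {F : X → ℝ}
    (hF : AEStronglyMeasurable F (vol.restrict C.c.source)) :
    ∫ x in C.c.source, F x ∂vol = ∫ z, F (C.c.symm z) ∂C.m := by
  rw [← C.map] at hF ⊢
  exact integral_map C.aem' hF

lemma IsoChart.itg (C : IsoChart X vol) {F : X → ℝ}
    (hF : IntegrableOn F C.c.source vol) : Integrable (fun z => F (C.c.symm z)) C.m := by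
  unfold IntegrableOn at hF
  rw [← C.map] at hF
  exact (integrable_map_measure hF.aestronglyMeasurable C.aem').1 hF

/-- `u` is a measurable function on `X`, smooth in each chart, and `Δ u = - lam u` in each chart -/
structure IsEigen (A : ℕ → IsoChart X vol) (lam : ℝ) (u : X → ℝ) : Prop where
  meas : Measurable u
  smooth : ∀ i, ContDiffOn ℝ ∞ (u ∘ (A i).c.symm) (A i).c.target
  eq : ∀ i, ∀ z ∈ (A i).c.target, lapl (u ∘ (A i).c.symm) z +
    lam * ((A i).ρ z * (u ∘ (A i).c.symm) z) = 0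

lemma loc_l2 (C : IsoChart X vol) {u : ℕ → X → ℝ} {M : ℝ}
    (hu : ∀ n, ContDiffOn ℝ ∞ (u n ∘ C.c.symm) C.c.target)
    (hM : ∀ n, MemLp (u n) 2 vol ∧ ∫ x, u n x ^ 2 ∂vol ≤ M) :
    LocL2 C.c.target fun n => u n ∘ C.c.symm := by
  intro K hK hKt
  obtain ⟨r, r0, hr⟩ := exists_low hK (C.smooth.continuousOn.mono hKt) fun z hz => C.pos z (hKt hz)
  refine ⟨r⁻¹ * M, Eventually.of_forall fun n => ?_⟩
  have i0 : Integrable (fun x => u n x ^ 2) vol := (hM n).1.integrable_sq
  have i1 := C.itg i0.integrableOn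
  have e1 := C.int (i0.integrableOn (s := C.c.source)).aestronglyMeasurable
  have i2 : IntegrableOn (fun z => C.ρ z * u n (C.c.symm z) ^ 2) C.c.target := by
    have h := (integrable_withDensity_iff_integrable_smul₀' C.aer
      (ae_of_all _ fun z => ENNReal.ofReal_lt_top)).1 i1
    refine (integrableOn_congr_fun (fun z hz => ?_) C.c.open_target.measurableSet).1 h
    show (ENNReal.ofReal (C.ρ z)).toReal • u n (C.c.symm z) ^ 2 = _
    rw [ENNReal.toReal_ofReal (C.pos z hz).le, smul_eq_mul]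
  have cK : ContinuousOn (fun z => u n (C.c.symm z) ^ 2) K := ((hu n).continuousOn.mono hKt).pow 2
  calc ∫ z in K, (u n ∘ C.c.symm) z ^ 2 ≤ ∫ z in K, r⁻¹ * (C.ρ z * u n (C.c.symm z) ^ 2) := by
        refine setIntegral_mono_on (cK.integrableOn_compact hK)
          ((i2.mono_set hKt).const_mul _) hK.measurableSet fun z hz => ?_
        have h1 := hr z hz
        have h2 : 0 ≤ u n (C.c.symm z) ^ 2 := sq_nonneg _
        show u n (C.c.symm z) ^ 2 ≤ _
        rw [inv_mul_eq_div, le_div_iff₀ r0, mul_comm]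
        exact mul_le_mul_of_nonneg_right h1 h2
    _ = r⁻¹ * ∫ z in K, C.ρ z * u n (C.c.symm z) ^ 2 := integral_const_mul _ _
    _ ≤ r⁻¹ * ∫ z in C.c.target, C.ρ z * u n (C.c.symm z) ^ 2 := by
        refine mul_le_mul_of_nonneg_left ?_ (by positivity)
        refine setIntegral_mono_set i2 ?_ hKt.eventuallyLE
        refine (ae_restrict_iff' C.c.open_target.measurableSet).2 (ae_of_all _ fun z hz => ?_)
        exact mul_nonneg (C.pos z hz).le (sq_nonneg _)
    _ = r⁻¹ * ∫ x in C.c.source, u n x ^ 2 ∂vol := by rw [e1, C.intm]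
    _ ≤ r⁻¹ * M := by
        refine mul_le_mul_of_nonneg_left (le_trans ?_ (hM n).2) (by positivity)
        exact setIntegral_le_integral i0 (ae_of_all _ fun x => sq_nonneg _)

/-- the regularity inequality for a test function in a chart -/
lemma chart_reg {A : ℕ → IsoChart X vol} {lam : ℕ → ℝ} (hlam : Tendsto lam atTop atTop)
    {u : ℕ → X → ℝ} (hu : ∀ n, IsEigen A (lam n) (u n)) {M : ℝ}
    (hM : ∀ n, MemLp (u n) 2 vol ∧ ∫ x, u n x ^ 2 ∂vol ≤ M) (i : ℕ) {χ : ℂ → ℝ}
    (hχ : TF (A i).c.target χ) :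
    ∃ D : ℝ, 0 ≤ D ∧ ∀ᶠ n in atTop, ∀ (g : ℝ → ℝ) (a b : ℝ), ContDiff ℝ ∞ g →
      (∀ x, |g x| ≤ a) → (∀ x, |deriv g x| ≤ b) →
      |∫ z, χ z * (th (u n ((A i).c.symm z)) * deriv g (u n ((A i).c.symm z))) ∂(A i).m| ≤
        D * (√(a * b) + a) := by
  obtain ⟨D, D0, hD⟩ := seq_reg (A i).c.open_target (A i).smooth (A i).pos hlam
    (u := fun n => u n ∘ (A i).c.symm) (fun n => (hu n).smooth i) (fun n => (hu n).eq i)
    (loc_l2 (A i) (fun n => (hu n).smooth i) hM) ((A i).tfm hχ)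
  refine ⟨D, D0, hD.mono fun n hn g a b hg ga gb => ?_⟩
  rw [(A i).intt hχ]
  exact hn g a b hg ga gb

/-- the laws of `u n` on the set `S` are uniformly regular -/
def PA (vol : Measure X) (u : ℕ → X → ℝ) (S : Set X) : Prop :=
  ∀ δ : ℝ, 0 < δ → ∃ ε0 : ℝ, 0 < ε0 ∧ ∀ ε : ℝ, 0 < ε → ε ≤ ε0 → ∀ᶠ n in atTop, ∀ f : ℝ → ℝ,
    ContDiff ℝ ∞ f → HasCompactSupport f → (∀ x, |f x| ≤ 2) →
    |∫ x in S, (sm f ε (u n x) - f (u n x)) * th (u n x) ∂vol| ≤ δ

/-- the integrand -/
def FF (u : X → ℝ) (f : ℝ → ℝ) (ε : ℝ) (x : X) : ℝ := (sm f ε (u x) - f (u x)) * th (u x)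

omit [TopologicalSpace X] [BorelSpace X] in
lemma FF_meas {u : X → ℝ} (hu : Measurable u) {f : ℝ → ℝ} (hf : Continuous f) (ε : ℝ) :
    Measurable (FF u f ε) := (osc_cont hf ε).measurable.comp hu

omit [TopologicalSpace X] [MeasurableSpace X] [BorelSpace X] in
lemma FF_bd (u : X → ℝ) {f : ℝ → ℝ} (hf : Continuous f) (hb : ∀ x, |f x| ≤ 2) {ε : ℝ}
    (hε : 0 < ε) (x : X) : |FF u f ε x| ≤ 4 := osc_bd hf hb hε (u x)

omit [TopologicalSpace X] [BorelSpace X] in
lemma FF_int [IsFiniteMeasure vol] {u : X → ℝ} (hu : Measurable u) {f : ℝ → ℝ}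
    (hf : Continuous f) (hb : ∀ x, |f x| ≤ 2) {ε : ℝ} (hε : 0 < ε) : Integrable (FF u f ε) vol :=
  Integrable.of_bound (FF_meas hu hf ε).aestronglyMeasurable 4 (ae_of_all _ (FF_bd u hf hb hε))

lemma cut_app (m : Measure ℂ) [IsFiniteMeasure m] {B E : Set ℂ} (hB : IsOpen B)
    (hE : MeasurableSet E) (hEB : E ⊆ B) {δ : ℝ} (hδ : 0 < δ) :
    ∃ χ : ℂ → ℝ, TF B χ ∧ ∫ z, |E.indicator (fun _ => (1 : ℝ)) z - χ z| ∂m ≤ δ := by
  have d0 : ENNReal.ofReal (δ / 2) ≠ 0 := (ENNReal.ofReal_pos.2 (by positivity)).ne'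
  obtain ⟨K, hKE, hK, hK2⟩ := hE.exists_isCompact_sdiff_lt (measure_ne_top m E) d0
  obtain ⟨U, hKU, hU, hU2⟩ := K.exists_isOpen_lt_add (measure_ne_top m K) d0
  obtain ⟨χ, hχ, χ1, χ0, χ2⟩ := exists_cut (hU.inter hB) hK
    (Set.subset_inter hKU (hKE.trans hEB))
  refine ⟨χ, ⟨hχ.1, hχ.2.1, hχ.2.2.trans Set.inter_subset_right⟩, ?_⟩
  have mK := hK.measurableSet
  have i1 : Integrable ((E \ K).indicator (fun _ => (1 : ℝ))) m :=
    (integrable_const 1).indicator (hE.diff mK)
  have i2 : Integrable ((U \ K).indicator (fun _ => (1 : ℝ))) m :=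
    (integrable_const 1).indicator (hU.measurableSet.diff mK)
  have i3 : Integrable (fun z => |E.indicator (fun _ => (1 : ℝ)) z - χ z|) m :=
    (((integrable_const 1).indicator hE).sub
      (hχ.1.continuous.integrable_of_hasCompactSupport hχ.2.1)).abs
  have h1 : ∫ z, |E.indicator (fun _ => (1 : ℝ)) z - χ z| ∂m ≤
      ∫ z, ((E \ K).indicator (fun _ => (1 : ℝ)) z + (U \ K).indicator (fun _ => (1 : ℝ)) z) ∂m := by
    refine integral_mono i3 (i1.add i2) fun z => ?_
    have n1 : 0 ≤ (E \ K).indicator (fun _ => (1 : ℝ)) z :=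
      Set.indicator_nonneg (fun _ _ => zero_le_one) z
    have n2 : 0 ≤ (U \ K).indicator (fun _ => (1 : ℝ)) z :=
      Set.indicator_nonneg (fun _ _ => zero_le_one) z
    show |E.indicator (fun _ => (1 : ℝ)) z - χ z| ≤ _
    by_cases hzK : z ∈ K
    · rw [Set.indicator_of_mem (hKE hzK), χ1 z hzK, sub_self, abs_zero]
      exact add_nonneg n1 n2
    · by_cases hzE : z ∈ E
      · rw [Set.indicator_of_mem hzE, Set.indicator_of_mem (s := E \ K) ⟨hzE, hzK⟩]
        rw [abs_of_nonneg (by linarith [χ2 z])]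
        linarith [χ0 z]
      · rw [Set.indicator_of_notMem hzE, zero_sub, abs_neg, abs_of_nonneg (χ0 z)]
        by_cases hzU : z ∈ U
        · rw [Set.indicator_of_mem (s := U \ K) ⟨hzU, hzK⟩]
          linarith [χ2 z]
        · rw [image_eq_zero_of_notMem_tsupport fun h => hzU (hχ.2.2 h).1]
          exact add_nonneg n1 n2
  refine h1.trans ?_
  have e : ∫ z, ((E \ K).indicator (fun _ => (1 : ℝ)) z + (U \ K).indicator (fun _ => (1 : ℝ)) z) ∂m =
      m.real (E \ K) + m.real (U \ K) := by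
    have e0 : ∫ z, ((E \ K).indicator (fun _ => (1 : ℝ)) z +
      (U \ K).indicator (fun _ => (1 : ℝ)) z) ∂m =
      (∫ z, (E \ K).indicator (fun _ => (1 : ℝ)) z ∂m) +
        ∫ z, (U \ K).indicator (fun _ => (1 : ℝ)) z ∂m := integral_add i1 i2
    rw [e0, integral_indicator (hE.diff mK), integral_indicator (hU.measurableSet.diff mK),
      setIntegral_const, setIntegral_const, smul_eq_mul, smul_eq_mul, mul_one, mul_one]
  rw [e]
  have a1 : m.real (E \ K) ≤ δ / 2 := ENNReal.toReal_le_of_le_ofReal (by positivity) hK2.le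
  have a2 : m.real (U \ K) ≤ δ / 2 := by
    have : m (U \ K) ≤ ENNReal.ofReal (δ / 2) := by
      rw [measure_sdiff hKU mK.nullMeasurableSet (measure_ne_top m K)]
      exact tsub_le_iff_left.2 hU2.le
    exact ENNReal.toReal_le_of_le_ofReal (by positivity) this
  linarith

/-- regularity of the laws on a measurable subset of a chart -/
lemma pa_local [IsFiniteMeasure vol] {A : ℕ → IsoChart X vol} {lam : ℕ → ℝ}
    (hlam : Tendsto lam atTop atTop)
    {u : ℕ → X → ℝ} (hu : ∀ n, IsEigen A (lam n) (u n)) {M : ℝ}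
    (hM : ∀ n, MemLp (u n) 2 vol ∧ ∫ x, u n x ^ 2 ∂vol ≤ M) (i : ℕ) {S : Set X}
    (hS : MeasurableSet S) (hSi : S ⊆ (A i).c.source) : PA vol u S := by
  intro δ hδ
  have fm : IsFiniteMeasure (A i).m := (A i).fin
  obtain ⟨E, hE⟩ : ∃ E, E = (A i).c.target ∩ (A i).c.symm ⁻¹' S := ⟨_, rfl⟩
  have mE : MeasurableSet E := by
    have h1 : Measurable ((A i).c.target.domRestrict (A i).c.symm) :=
      (continuousOn_iff_continuous_domRestrict.1 (A i).c.continuousOn_symm).measurable
    have h2 := (A i).c.open_target.measurableSet.subtype_image (h1 hS)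
    have e : E = Subtype.val '' ((A i).c.target.domRestrict (A i).c.symm ⁻¹' S) := by
      rw [hE]
      ext z
      constructor
      · rintro ⟨h1, h2⟩; exact ⟨⟨z, h1⟩, h2, rfl⟩
      · rintro ⟨⟨w, hw⟩, h2, rfl⟩; exact ⟨hw, h2⟩
    rw [e]; exact h2
  obtain ⟨χ, hχ, happ⟩ := cut_app (A i).m (A i).c.open_target mE
    (by rw [hE]; exact Set.inter_subset_left) (by positivity : 0 < δ / 16)
  obtain ⟨D, D0, hD⟩ := chart_reg hlam hu hM i hχ
  refine ⟨min 1 ((δ / (10 * (D + 1))) ^ 2), lt_min one_pos (by positivity), fun ε hε hε0 => ?_⟩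
  have ε1 : ε ≤ 1 := hε0.trans (min_le_left _ _)
  have ε2 : √ε ≤ δ / (10 * (D + 1)) := by
    rw [Real.sqrt_le_left (by positivity)]
    exact hε0.trans (min_le_right _ _)
  have s0 := Real.sqrt_nonneg ε
  have ss : √ε * √ε = ε := Real.mul_self_sqrt hε.le
  have s1 : √ε ≤ 1 := Real.sqrt_le_one.2 ε1
  have Db : D * (√(2 * ε * 4) + 2 * ε) ≤ δ / 2 := by
    have h1 : √(2 * ε * 4) ≤ 3 * √ε := by
      rw [Real.sqrt_le_left (by positivity), mul_pow, Real.sq_sqrt hε.le]
      linarith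
    have h2 : 2 * ε ≤ 2 * √ε := by nlinarith
    have h3 : √(2 * ε * 4) + 2 * ε ≤ 5 * (δ / (10 * (D + 1))) := by linarith
    refine (mul_le_mul_of_nonneg_left h3 D0).trans ?_
    have e : D * (5 * (δ / (10 * (D + 1)))) = D / (D + 1) * (δ / 2) := by field_simp; ring
    rw [e]
    have : D / (D + 1) ≤ 1 := by rw [div_le_one (by positivity)]; linarith
    nlinarith
  refine hD.mono fun n hn f sf kf bf => ?_
  have hn1 := hn (Gc f ε) (2 * ε) 4 (Gc_sm sf ε) (fun x => Gc_bd sf bf hε x) (fun x => by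
    rw [(Gc_d sf ε x).deriv]
    have h1 := abs_sub (sm f ε x) (f x)
    have h2 := sm_bd sf.continuous bf hε x
    have h3 := bf x
    linarith)
  have hn2 : |∫ z, χ z * FF (u n) f ε ((A i).c.symm z) ∂(A i).m| ≤ δ / 2 := by
    refine le_trans (le_of_eq ?_) (hn1.trans Db)
    congr 2
    funext z
    rw [(Gc_d sf ε _).deriv]
    unfold FF
    ring
  have mF := FF_meas (hu n).meas sf.continuous ε
  have e1 : ∫ x in S, FF (u n) f ε x ∂vol =
      ∫ z, E.indicator (fun _ => (1 : ℝ)) z * FF (u n) f ε ((A i).c.symm z) ∂(A i).m := by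
    have h1 : ∫ x in S, FF (u n) f ε x ∂vol =
        ∫ x in (A i).c.source, S.indicator (FF (u n) f ε) x ∂vol := by
      rw [setIntegral_indicator hS, Set.inter_eq_self_of_subset_right hSi]
    rw [h1, (A i).int (mF.indicator hS).aestronglyMeasurable, (A i).intm, (A i).intm]
    refine setIntegral_congr_fun (A i).c.open_target.measurableSet fun z hz => ?_
    show (A i).ρ z * S.indicator (FF (u n) f ε) ((A i).c.symm z) = _
    congr 1
    by_cases h : (A i).c.symm z ∈ S
    · rw [Set.indicator_of_mem h, Set.indicator_of_mem (by rw [hE]; exact ⟨hz, h⟩), one_mul]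
    · rw [Set.indicator_of_notMem h, Set.indicator_of_notMem (by rw [hE]; exact fun h' => h h'.2),
        zero_mul]
  have mFz : AEStronglyMeasurable (fun z => FF (u n) f ε ((A i).c.symm z)) (A i).m :=
    (mF.comp_aemeasurable (A i).aem').aestronglyMeasurable
  have bF : ∀ z, |FF (u n) f ε ((A i).c.symm z)| ≤ 4 := fun z => FF_bd (u n) sf.continuous bf hε _
  have iF : Integrable (fun z => FF (u n) f ε ((A i).c.symm z)) (A i).m :=
    Integrable.of_bound mFz 4 (ae_of_all _ bF)
  have iE : Integrable (E.indicator (fun _ => (1 : ℝ))) (A i).m := (integrable_const 1).indicator mE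
  have iχ : Integrable χ (A i).m := hχ.1.continuous.integrable_of_hasCompactSupport hχ.2.1
  have j1 : Integrable (fun z => E.indicator (fun _ => (1 : ℝ)) z *
      FF (u n) f ε ((A i).c.symm z)) (A i).m := iE.mul_bdd (c := 4) mFz (ae_of_all _ bF)
  have j2 : Integrable (fun z => χ z * FF (u n) f ε ((A i).c.symm z)) (A i).m :=
    iχ.mul_bdd (c := 4) mFz (ae_of_all _ bF)
  have e2 : |(∫ z, E.indicator (fun _ => (1 : ℝ)) z * FF (u n) f ε ((A i).c.symm z) ∂(A i).m) -
      ∫ z, χ z * FF (u n) f ε ((A i).c.symm z) ∂(A i).m| ≤ δ / 4 := by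
    rw [← integral_sub j1 j2]
    refine (abs_integral_le_integral_abs).trans ?_
    refine (integral_mono (j1.sub j2).abs ((iE.sub iχ).abs.const_mul 4) fun z => ?_).trans ?_
    · show |E.indicator (fun _ => (1 : ℝ)) z * FF (u n) f ε ((A i).c.symm z) -
        χ z * FF (u n) f ε ((A i).c.symm z)| ≤ 4 * |E.indicator (fun _ => (1 : ℝ)) z - χ z|
      rw [← sub_mul, abs_mul, mul_comm]
      exact mul_le_mul_of_nonneg_right (bF z) (abs_nonneg _)
    · show ∫ z, 4 * |E.indicator (fun _ => (1 : ℝ)) z - χ z| ∂(A i).m ≤ δ / 4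
      rw [integral_const_mul]
      linarith
  show |∫ x in S, FF (u n) f ε x ∂vol| ≤ δ
  rw [e1]
  have h := abs_sub_abs_le_abs_sub
    (∫ z, E.indicator (fun _ => (1 : ℝ)) z * FF (u n) f ε ((A i).c.symm z) ∂(A i).m)
    (∫ z, χ z * FF (u n) f ε ((A i).c.symm z) ∂(A i).m)
  linarith

omit [TopologicalSpace X] [BorelSpace X] in
lemma PA.union [IsFiniteMeasure vol] {u : ℕ → X → ℝ} (hu : ∀ n, Measurable (u n)) {S T : Set X}
    (hT : MeasurableSet T) (hd : Disjoint S T) (h1 : PA vol u S) (h2 : PA vol u T) :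
    PA vol u (S ∪ T) := by
  intro δ hδ
  obtain ⟨a, a0, ha⟩ := h1 (δ / 2) (by positivity)
  obtain ⟨b, b0, hb⟩ := h2 (δ / 2) (by positivity)
  refine ⟨min a b, lt_min a0 b0, fun ε hε hab => ?_⟩
  filter_upwards [ha ε hε (hab.trans (min_le_left _ _)), hb ε hε (hab.trans (min_le_right _ _))]
    with n n1 n2 f sf kf bf
  have i := FF_int (vol := vol) (hu n) sf.continuous bf hε
  have e : ∫ x in S ∪ T, FF (u n) f ε x ∂vol =
    (∫ x in S, FF (u n) f ε x ∂vol) + ∫ x in T, FF (u n) f ε x ∂vol :=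
    setIntegral_union hd hT i.integrableOn i.integrableOn
  show |∫ x in S ∪ T, FF (u n) f ε x ∂vol| ≤ δ
  rw [e]
  have := n1 f sf kf bf
  have := n2 f sf kf bf
  refine (abs_add_le _ _).trans ?_
  have h1 : |∫ x in S, FF (u n) f ε x ∂vol| ≤ δ / 2 := n1 f sf kf bf
  have h2 : |∫ x in T, FF (u n) f ε x ∂vol| ≤ δ / 2 := n2 f sf kf bf
  linarith

/-- **Regularity of the laws on every measurable set.** -/
theorem pa_all [IsFiniteMeasure vol] {A : ℕ → IsoChart X vol}
    (hA : vol (⋃ i, (A i).c.source)ᶜ = 0) {lam : ℕ → ℝ} (hlam : Tendsto lam atTop atTop)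
    {u : ℕ → X → ℝ} (hu : ∀ n, IsEigen A (lam n) (u n)) {M : ℝ}
    (hM : ∀ n, MemLp (u n) 2 vol ∧ ∫ x, u n x ^ 2 ∂vol ≤ M) {S : Set X}
    (hS : MeasurableSet S) : PA vol u S := by
  have om : ∀ i, MeasurableSet (A i).c.source := fun i => (A i).c.open_source.measurableSet
  have mu : ∀ n, Measurable (u n) := fun n => (hu n).meas
  obtain ⟨W, hW⟩ : ∃ W : ℕ → Set X, ∀ k, W k = ⋃ i < k, (A i).c.source := ⟨_, fun _ => rfl⟩
  have mW : ∀ k, MeasurableSet (W k) := fun k => by
    rw [hW]; exact MeasurableSet.iUnion fun i => MeasurableSet.iUnion fun _ => om i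
  have hk : ∀ k, PA vol u (S ∩ W k) := by
    intro k
    induction k with
    | zero =>
      intro δ hδ
      refine ⟨1, one_pos, fun ε _ _ => Eventually.of_forall fun n f _ _ _ => ?_⟩
      have : S ∩ W 0 = ∅ := by rw [hW]; simp
      rw [this, Measure.restrict_empty, integral_zero_measure, abs_zero]
      exact hδ.le
    | succ k ih =>
      have e : S ∩ W (k + 1) = (S ∩ W k) ∪ (S ∩ ((A k).c.source \ W k)) := by
        rw [hW (k + 1), Set.biUnion_lt_succ, ← hW k, ← Set.inter_union_distrib_left,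
          Set.union_sdiff_self]
      rw [e]
      refine ih.union mu (hS.inter ((om k).diff (mW k))) ?_
        (pa_local hlam hu hM k (hS.inter ((om k).diff (mW k))) fun x hx => hx.2.1)
      rw [Set.disjoint_left]
      exact fun x h1 h2 => h2.2.2 h1.2
  intro δ hδ
  have hlim : Tendsto (fun k => vol ((W k)ᶜ)) atTop (𝓝 0) := by
    have h1 : Tendsto (vol ∘ fun k => (W k)ᶜ) atTop (𝓝 (vol (⋂ k, (W k)ᶜ))) := by
      refine tendsto_measure_iInter_atTop (fun k => (mW k).compl.nullMeasurableSet) ?_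
        ⟨0, measure_ne_top _ _⟩
      intro k l hkl
      refine Set.compl_subset_compl.2 ?_
      rw [hW, hW]
      exact Set.biUnion_subset_biUnion_left fun i hi => lt_of_lt_of_le hi hkl
    have e : (⋂ k, (W k)ᶜ) = (⋃ i, (A i).c.source)ᶜ := by
      rw [← Set.compl_iUnion]
      congr 1
      ext x
      simp only [hW, Set.mem_iUnion]
      constructor
      · rintro ⟨k, i, -, h⟩; exact ⟨i, h⟩
      · rintro ⟨i, h⟩; exact ⟨i + 1, i, Nat.lt_succ_self i, h⟩
    rw [e, hA] at h1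
    exact h1
  have h4 : ∀ᶠ k : ℕ in atTop, (vol ((W k)ᶜ)).toReal < δ / 16 := by
    have h3 := (ENNReal.tendsto_toReal ENNReal.zero_ne_top).comp hlim
    apply h3.eventually_lt_const
    simpa using (by positivity : 0 < δ / 16)
  obtain ⟨k, hk4⟩ := h4.exists
  obtain ⟨ε0, ε00, h5⟩ := hk k (δ / 2) (by positivity)
  refine ⟨ε0, ε00, fun ε hε hεε => (h5 ε hε hεε).mono fun n hn f sf kf bf => ?_⟩
  have i := FF_int (vol := vol) (mu n) sf.continuous bf hε
  have e : ∫ x in S, FF (u n) f ε x ∂vol =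
      (∫ x in S ∩ W k, FF (u n) f ε x ∂vol) + ∫ x in S \ W k, FF (u n) f ε x ∂vol := by
    rw [← integral_inter_add_sdiff (mW k) i.integrableOn]
  show |∫ x in S, FF (u n) f ε x ∂vol| ≤ δ
  rw [e]
  refine (abs_add_le _ _).trans ?_
  have h1 : |∫ x in S ∩ W k, FF (u n) f ε x ∂vol| ≤ δ / 2 := hn f sf kf bf
  have h2 : |∫ x in S \ W k, FF (u n) f ε x ∂vol| ≤ 4 * vol.real (S \ W k) := by
    rw [← Real.norm_eq_abs]
    exact norm_setIntegral_le_of_norm_le_const (measure_lt_top _ _)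
      fun x _ => FF_bd (u n) sf.continuous bf hε x
  have h3 : vol.real (S \ W k) ≤ vol.real ((W k)ᶜ) :=
    measureReal_mono fun x hx => hx.2
  have h6 : vol.real ((W k)ᶜ) < δ / 16 := hk4
  linarith

end

end Pool.Agent.N252.TV
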