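import Pool.Agent.N252.TV.G

/-!
Project TV (helper252): bounds for the laws of eigenfunctions on Borel sets.
-/

set_option autoImplicit false
open MeasureTheory Filter Topology Complex
open scoped ContDiff ENNReal BoundedContinuousFunction Manifold

namespace Pool.Agent.N252.TV

open Pool.Agent.TH294.RS Pool.Agent.W745.RW

noncomputable section

lemma exists_cutR {U K : Set ℝ} (hU : IsOpen U) (hK : IsCompact K) (hKU : K ⊆ U) :
    ∃ g : ℝ → ℝ, ContDiff ℝ ∞ g ∧ HasCompactSupport g ∧ tsupport g ⊆ U ∧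
      (∀ x ∈ K, g x = 1) ∧ (∀ x, 0 ≤ g x) ∧ (∀ x, g x ≤ 1) := by
  obtain ⟨δ, hδ, hδB⟩ := hK.exists_cthickening_subset_open hU hKU
  obtain ⟨f, hf1, hf2, hf3⟩ := exists_contMDiff_support_eq_eq_one_iff (𝓘(ℝ, ℝ))
    (Metric.isOpen_thickening (δ := δ) (E := K)) hK.isClosed
    (Metric.self_subset_thickening hδ K)
  have hs : tsupport f ⊆ Metric.cthickening δ K := by
    apply closure_minimal _ Metric.isClosed_cthickening
    rw [hf3.1]
    exact Metric.thickening_subset_cthickening _ _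
  refine ⟨f, hf1.contDiff, ?_, hs.trans hδB, fun x hx => ?_, fun x => ?_, fun x => ?_⟩
  · exact (hK.cthickening (r := δ)).of_isClosed_subset (isClosed_tsupport f) hs
  · exact (hf3.2 x).1 hx
  · exact (hf2 ⟨x, rfl⟩).1
  · exact (hf2 ⟨x, rfl⟩).2

/-- sandwich: compact and open approximation of a Borel set by a smooth function -/
lemma exists_sand (τ : Measure ℝ) [IsFiniteMeasure τ] {B : Set ℝ} (hB : MeasurableSet B)
    (hB2 : volume B ≠ ⊤) {η : ℝ} (hη : 0 < η) :
    ∃ (f : ℝ → ℝ) (U : Set ℝ), ContDiff ℝ ∞ f ∧ HasCompactSupport f ∧ (∀ x, 0 ≤ f x) ∧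
      (∀ x, f x ≤ 1) ∧ IsOpen U ∧ tsupport f ⊆ U ∧ volume U ≠ ⊤ ∧
      volume.real U ≤ volume.real B + η ∧ ∃ K : Set ℝ, IsCompact K ∧ K ⊆ B ∧
        (∀ x ∈ K, f x = 1) ∧ τ.real B ≤ τ.real K + η := by
  have d0 : ENNReal.ofReal η ≠ 0 := (ENNReal.ofReal_pos.2 hη).ne'
  obtain ⟨K, hKB, hK, hK2⟩ := hB.exists_isCompact_sdiff_lt (measure_ne_top τ B) d0
  have Kf : volume K ≠ ⊤ := ne_top_of_le_ne_top hB2 (measure_mono hKB)
  obtain ⟨U, hKU, hU, hU2⟩ := K.exists_isOpen_lt_add Kf d0
  obtain ⟨f, sf, kf, tf, f1, f0, f2⟩ := exists_cutR hU hK hKU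
  have Uf : volume U ≠ ⊤ := ne_top_of_lt hU2
  refine ⟨f, U, sf, kf, f0, f2, hU, tf, Uf, ?_, K, hK, hKB, f1, ?_⟩
  · have h1 : volume.real U ≤ (volume K + ENNReal.ofReal η).toReal :=
      ENNReal.toReal_mono (ENNReal.add_ne_top.2 ⟨Kf, ENNReal.ofReal_ne_top⟩) hU2.le
    rw [ENNReal.toReal_add Kf ENNReal.ofReal_ne_top, ENNReal.toReal_ofReal hη.le] at h1
    have h2 : (volume K).toReal ≤ volume.real B := ENNReal.toReal_mono hB2 (measure_mono hKB)
    linarith
  · have h1 : τ.real (B \ K) ≤ η := ENNReal.toReal_le_of_le_ofReal hη.le hK2.le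
    have h2 : τ.real B ≤ τ.real K + τ.real (B \ K) := by
      have : B = K ∪ (B \ K) := (Set.union_sdiff_cancel hKB).symm
      calc τ.real B = τ.real (K ∪ (B \ K)) := by rw [← this]
        _ ≤ _ := measureReal_union_le _ _
    linarith

lemma Pm_le {f : ℝ → ℝ} (hf : Continuous f) (kf : HasCompactSupport f) (f0 : ∀ x, 0 ≤ f x)
    (f1 : ∀ x, f x ≤ 1) {U : Set ℝ} (hU : IsOpen U) (hU2 : volume U ≠ ⊤) (hs : tsupport f ⊆ U)
    (x : ℝ) : |Pm f x| ≤ volume.real U := by
  have fi : Integrable f := hf.integrable_of_hasCompactSupport kf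
  have gle : ∫ x, |f x| ≤ volume.real U := by
    have e1 : ∫ x, |f x| = ∫ x in U, |f x| := by
      refine (setIntegral_eq_integral_of_forall_compl_eq_zero fun x hx => ?_).symm
      rw [image_eq_zero_of_notMem_tsupport (fun h => hx (hs h)), abs_zero]
    rw [e1]
    have e2 : ∫ x in U, |f x| ≤ ∫ x in U, (1 : ℝ) := by
      refine setIntegral_mono_on fi.abs.integrableOn (integrableOn_const hU2) hU.measurableSet
        fun x _ => ?_
      rw [abs_of_nonneg (f0 x)]; exact f1 x
    refine e2.trans ?_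
    rw [setIntegral_const, smul_eq_mul, mul_one]
  have h1 := intervalIntegral.norm_integral_le_integral_norm_uIoc (f := f)
    (a := 0) (b := x) (μ := volume)
  refine h1.trans (le_trans ?_ gle)
  exact setIntegral_le_integral fi.abs (ae_of_all _ fun x => abs_nonneg _)

/-- continuity at `η = 0` -/
lemma lim_eta {D b c : ℝ} (h : ∀ η : ℝ, 0 < η → c ≤ D * (√(b + η) + (b + η)) + η) :
    c ≤ D * (√b + b) := by
  have h1 : Tendsto (fun η : ℝ => D * (√(b + η) + (b + η)) + η) (𝓝[>] 0)
      (𝓝 (D * (√(b + 0) + (b + 0)) + 0)) := by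
    apply Tendsto.mono_left _ nhdsWithin_le_nhds
    apply Continuous.tendsto
    fun_prop
  rw [add_zero, add_zero] at h1
  refine ge_of_tendsto h1 ?_
  filter_upwards [self_mem_nhdsWithin] with η hη
  exact h η hη

/-- from the regularity inequality to Borel sets -/
lemma borel_of_reg (τ : Measure ℝ) [IsFiniteMeasure τ] {D : ℝ} (D0 : 0 ≤ D)
    (h : ∀ (g : ℝ → ℝ) (a b : ℝ), ContDiff ℝ ∞ g → (∀ x, |g x| ≤ a) → (∀ x, |deriv g x| ≤ b) →
      |∫ x, deriv g x ∂τ| ≤ D * (√(a * b) + a)) {B : Set ℝ} (hB : MeasurableSet B)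
    (hB2 : volume B ≠ ⊤) : τ.real B ≤ D * (√(volume.real B) + volume.real B) := by
  refine lim_eta fun η hη => ?_
  obtain ⟨f, U, sf, kf, f0, f1, hU, tf, Uf, hU2, K, hK, hKB, fK, hτ⟩ := exists_sand τ hB hB2 hη
  have hd : deriv (Pm f) = f := funext fun x => (Pm_d sf.continuous x).deriv
  have h1 := h (Pm f) (volume.real U) 1 (Pm_sm sf)
    (Pm_le sf.continuous kf f0 f1 hU Uf tf) (fun x => by
      rw [hd, abs_of_nonneg (f0 x)]; exact f1 x)
  rw [hd, mul_one] at h1
  have fi : Integrable f τ := sf.continuous.integrable_of_hasCompactSupport kf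
  have h2 : τ.real K ≤ ∫ x, f x ∂τ := by
    have e : τ.real K = ∫ x, K.indicator (fun _ => (1 : ℝ)) x ∂τ := by
      rw [integral_indicator hK.measurableSet, setIntegral_const, smul_eq_mul, mul_one]
    rw [e]
    refine integral_mono ((integrable_const 1).indicator hK.measurableSet) fi fun x => ?_
    by_cases hx : x ∈ K
    · rw [Set.indicator_of_mem hx, fK x hx]
    · rw [Set.indicator_of_notMem hx]; exact f0 x
  have h3 := (le_abs_self _).trans h1
  have h4 : √(volume.real U) ≤ √(volume.real B + η) := Real.sqrt_le_sqrt hU2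
  have h5 : D * (√(volume.real U) + volume.real U) ≤
      D * (√(volume.real B + η) + (volume.real B + η)) :=
    mul_le_mul_of_nonneg_left (add_le_add h4 hU2) D0
  linarith

variable {X : Type*} [TopologicalSpace X] [MeasurableSpace X] [BorelSpace X] {vol : Measure X}

/-- the law in a chart, on Borel sets -/
lemma chart_borel [IsFiniteMeasure vol] {A : ℕ → IsoChart X vol} {lam : ℕ → ℝ}
    (hlam : Tendsto lam atTop atTop) {u : ℕ → X → ℝ} (hu : ∀ n, IsEigen A (lam n) (u n)) {M : ℝ}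
    (hM : ∀ n, MemLp (u n) 2 vol ∧ ∫ x, u n x ^ 2 ∂vol ≤ M) (i : ℕ) {χ : ℂ → ℝ}
    (hχ : TF (A i).c.target χ) (χ0 : ∀ z, 0 ≤ χ z) :
    ∃ D : ℝ, 0 ≤ D ∧ ∀ᶠ n in atTop, ∀ B : Set ℝ, MeasurableSet B → volume B ≠ ⊤ →
      ∫ z, χ z * (th (u n ((A i).c.symm z)) *
        B.indicator (fun _ => (1 : ℝ)) (u n ((A i).c.symm z))) ∂(A i).m ≤
        D * (√(volume.real B) + volume.real B) := by
  have fm : IsFiniteMeasure (A i).m := (A i).fin
  obtain ⟨D, D0, hD⟩ := chart_reg hlam hu hM i hχ
  refine ⟨D, D0, hD.mono fun n hn B hB hB2 => ?_⟩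
  have mu : AEMeasurable (fun z => u n ((A i).c.symm z)) (A i).m :=
    (hu n).meas.comp_aemeasurable (A i).aem'
  have mw : AEMeasurable (fun z => χ z * th (u n ((A i).c.symm z))) (A i).m :=
    hχ.1.continuous.measurable.aemeasurable.mul (th_sm.continuous.measurable.comp_aemeasurable mu)
  have iχ : Integrable χ (A i).m := hχ.1.continuous.integrable_of_hasCompactSupport hχ.2.1
  have iw : Integrable (fun z => χ z * th (u n ((A i).c.symm z))) (A i).m :=
    iχ.mul_bdd (c := 1) (th_sm.continuous.measurable.comp_aemeasurable mu).aestronglyMeasurable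
      (ae_of_all _ fun z => th_abs_le _)
  obtain ⟨κ, hκ⟩ : ∃ κ, κ = (A i).m.withDensity
    fun z => ENNReal.ofReal (χ z * th (u n ((A i).c.symm z))) := ⟨_, rfl⟩
  have fκ : IsFiniteMeasure κ := by rw [hκ]; exact isFiniteMeasure_withDensity_ofReal iw.2
  have mκ : AEMeasurable (fun z => u n ((A i).c.symm z)) κ := by
    rw [hκ]; exact mu.mono_ac (withDensity_absolutelyContinuous _ _)
  obtain ⟨τ, hτ⟩ : ∃ τ, τ = κ.map (fun z => u n ((A i).c.symm z)) := ⟨_, rfl⟩
  have fτ : IsFiniteMeasure τ := by rw [hτ]; infer_instance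
  have key : ∀ G : ℝ → ℝ, Measurable G → ∫ x, G x ∂τ =
      ∫ z, χ z * (th (u n ((A i).c.symm z)) * G (u n ((A i).c.symm z))) ∂(A i).m := by
    intro G hG
    rw [hτ, integral_map mκ hG.aestronglyMeasurable, hκ,
      integral_withDensity_eq_integral_toReal_smul₀ mw.ennreal_ofReal
        (ae_of_all _ fun z => ENNReal.ofReal_lt_top)]
    congr 1
    funext z
    rw [ENNReal.toReal_ofReal (mul_nonneg (χ0 z) (th_nn _)), smul_eq_mul, mul_assoc]
  have h1 := borel_of_reg τ D0 (fun g a b hg ga gb => by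
    rw [key (deriv g) (hg.continuous_deriv (by simp)).measurable]
    exact hn g a b hg ga gb) hB hB2
  refine le_trans (le_of_eq ?_) h1
  rw [← key _ (measurable_const.indicator hB), integral_indicator hB, setIntegral_const,
    smul_eq_mul, mul_one]

/-- **The law on a compact set, on Borel sets.** -/
theorem comp_borel [T2Space X] [IsFiniteMeasure vol] {A : ℕ → IsoChart X vol} {lam : ℕ → ℝ}
    (hlam : Tendsto lam atTop atTop) {u : ℕ → X → ℝ} (hu : ∀ n, IsEigen A (lam n) (u n)) {M : ℝ}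
    (hM : ∀ n, MemLp (u n) 2 vol ∧ ∫ x, u n x ^ 2 ∂vol ≤ M) {K : Set X} (hK : IsCompact K)
    (hKA : K ⊆ ⋃ i, (A i).c.source) :
    ∃ D : ℝ, 0 ≤ D ∧ ∀ᶠ n in atTop, ∀ B : Set ℝ, MeasurableSet B → volume B ≠ ⊤ →
      ∫ x in K ∩ u n ⁻¹' B, th (u n x) ∂vol ≤ D * √(volume.real B) := by
  obtain ⟨t, ht⟩ := hK.elim_finite_subcover (fun i => (A i).c.source)
    (fun i => (A i).c.open_source) hKA
  obtain ⟨L, hL, hLs, hKL⟩ := hK.finite_compact_cover t (fun i => (A i).c.source)
    (fun i _ => (A i).c.open_source) ht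
  have cut : ∀ i, ∃ χ : ℂ → ℝ, TF (A i).c.target χ ∧ (∀ z ∈ (A i).c '' (L i), χ z = 1) ∧
      (∀ z, 0 ≤ χ z) ∧ (∀ z, χ z ≤ 1) := by
    intro i
    refine exists_cut (A i).c.open_target ((hL i).image_of_continuousOn
      ((A i).c.continuousOn.mono (hLs i))) ?_
    rintro _ ⟨x, hx, rfl⟩
    exact (A i).c.map_source (hLs i hx)
  choose χ hχ χ1 χ0 χ2 using cut
  have bd : ∀ i, ∃ D : ℝ, 0 ≤ D ∧ ∀ᶠ n in atTop, ∀ B : Set ℝ, MeasurableSet B → volume B ≠ ⊤ →
      ∫ x in L i ∩ u n ⁻¹' B, th (u n x) ∂vol ≤ D * (√(volume.real B) + volume.real B) := by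
    intro i
    have fm : IsFiniteMeasure (A i).m := (A i).fin
    obtain ⟨D, D0, hD⟩ := chart_borel hlam hu hM i (hχ i) (χ0 i)
    refine ⟨D, D0, hD.mono fun n hn B hB hB2 => le_trans ?_ (hn B hB hB2)⟩
    have mL : MeasurableSet (L i ∩ u n ⁻¹' B) := (hL i).measurableSet.inter ((hu n).meas hB)
    have mth : Measurable (fun x => th (u n x)) := th_sm.continuous.measurable.comp (hu n).meas
    have e1 : ∫ x in L i ∩ u n ⁻¹' B, th (u n x) ∂vol =
        ∫ x in (A i).c.source, (L i ∩ u n ⁻¹' B).indicator (fun x => th (u n x)) x ∂vol := by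
      rw [setIntegral_indicator mL, Set.inter_eq_self_of_subset_right
        (Set.inter_subset_left.trans (hLs i))]
    rw [e1, (A i).int (mth.indicator mL).aestronglyMeasurable, (A i).intm, (A i).intm]
    have mu : AEMeasurable (fun z => u n ((A i).c.symm z)) (A i).m :=
      (hu n).meas.comp_aemeasurable (A i).aem'
    have b1 : Integrable (fun z => (L i ∩ u n ⁻¹' B).indicator (fun x => th (u n x))
        ((A i).c.symm z)) (A i).m := by
      refine Integrable.of_bound ((mth.indicator mL).comp_aemeasurable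
        (A i).aem').aestronglyMeasurable 1 (ae_of_all _ fun z => ?_)
      rw [Real.norm_eq_abs]
      by_cases h : (A i).c.symm z ∈ L i ∩ u n ⁻¹' B
      · rw [Set.indicator_of_mem h]; exact th_abs_le _
      · rw [Set.indicator_of_notMem h]; simp
    have b2 : Integrable (fun z => χ i z * (th (u n ((A i).c.symm z)) *
        B.indicator (fun _ => (1 : ℝ)) (u n ((A i).c.symm z)))) (A i).m := by
      refine Integrable.of_bound (((hχ i).1.continuous.measurable.aemeasurable.mul
        ((th_sm.continuous.measurable.comp_aemeasurable mu).mul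
        ((measurable_const.indicator hB).comp_aemeasurable mu))).aestronglyMeasurable) 1
        (ae_of_all _ fun z => ?_)
      rw [Real.norm_eq_abs, abs_mul, abs_mul, abs_of_nonneg (χ0 i z), abs_of_nonneg (th_nn _)]
      have h1 : |B.indicator (fun _ => (1 : ℝ)) (u n ((A i).c.symm z))| ≤ 1 := by
        by_cases h : u n ((A i).c.symm z) ∈ B
        · rw [Set.indicator_of_mem h]; simp
        · rw [Set.indicator_of_notMem h]; simp
      exact mul_le_one₀ (χ2 i z) (mul_nonneg (th_nn _) (abs_nonneg _))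
        (mul_le_one₀ (th_le_one _) (abs_nonneg _) h1)
    have conv : ∀ {F : ℂ → ℝ}, Integrable F (A i).m →
        IntegrableOn (fun z => (A i).ρ z * F z) (A i).c.target := by
      intro F hF
      have h := (integrable_withDensity_iff_integrable_smul₀' (A i).aer
        (ae_of_all _ fun z => ENNReal.ofReal_lt_top)).1 hF
      refine (integrableOn_congr_fun (fun z hz => ?_) (A i).c.open_target.measurableSet).1 h
      show (ENNReal.ofReal ((A i).ρ z)).toReal • F z = _
      rw [ENNReal.toReal_ofReal ((A i).pos z hz).le, smul_eq_mul]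
    refine setIntegral_mono_on (conv b1) (conv b2) (A i).c.open_target.measurableSet
      fun z hz => ?_
    refine mul_le_mul_of_nonneg_left ?_ ((A i).pos z hz).le
    by_cases h : (A i).c.symm z ∈ L i ∩ u n ⁻¹' B
    · rw [Set.indicator_of_mem h, Set.indicator_of_mem (show u n ((A i).c.symm z) ∈ B from h.2),
        χ1 i z ⟨(A i).c.symm z, h.1, (A i).c.right_inv hz⟩]
      simp
    · rw [Set.indicator_of_notMem h]
      exact mul_nonneg (χ0 i z) (mul_nonneg (th_nn _)
        (Set.indicator_nonneg (fun _ _ => zero_le_one) _))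
  choose D D0 hD using bd
  have ev : ∀ᶠ n in atTop, ∀ i ∈ t, ∀ B : Set ℝ, MeasurableSet B → volume B ≠ ⊤ →
      ∫ x in L i ∩ u n ⁻¹' B, th (u n x) ∂vol ≤ D i * (√(volume.real B) + volume.real B) :=
    (Filter.eventually_all_finset t).2 fun i _ => hD i
  have V0 : 0 ≤ vol.real Set.univ := measureReal_nonneg
  have DD : 0 ≤ ∑ i ∈ t, D i := Finset.sum_nonneg fun i _ => D0 i
  refine ⟨2 * (∑ i ∈ t, D i) + vol.real Set.univ, by positivity,
    ev.mono fun n hn B hB hB2 => ?_⟩
  have mth : Measurable (fun x => th (u n x)) := th_sm.continuous.measurable.comp (hu n).meas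
  have ith : Integrable (fun x => th (u n x)) vol :=
    Integrable.of_bound mth.aestronglyMeasurable 1 (ae_of_all _ fun x => th_abs_le _)
  have s0 := Real.sqrt_nonneg (volume.real B)
  have b0 : 0 ≤ volume.real B := measureReal_nonneg
  rcases le_total (volume.real B) 1 with h1 | h1
  · have e1 : ∫ x in K ∩ u n ⁻¹' B, th (u n x) ∂vol ≤
        ∑ i ∈ t, ∫ x in L i ∩ u n ⁻¹' B, th (u n x) ∂vol := by
      have hsub : K ∩ u n ⁻¹' B = ⋃ i ∈ t, L i ∩ u n ⁻¹' B := by
        rw [hKL, Set.iUnion₂_inter]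
      have h2 : ∀ i, ∫ x in L i ∩ u n ⁻¹' B, th (u n x) ∂vol =
          ∫ x, (L i ∩ u n ⁻¹' B).indicator (fun x => th (u n x)) x ∂vol := fun i =>
        (integral_indicator ((hL i).measurableSet.inter ((hu n).meas hB))).symm
      simp only [h2]
      rw [← integral_finsetSum _ fun i _ => ith.indicator
        ((hL i).measurableSet.inter ((hu n).meas hB)),
        ← integral_indicator (hK.measurableSet.inter ((hu n).meas hB))]
      refine integral_mono (ith.indicator (hK.measurableSet.inter ((hu n).meas hB)))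
        (integrable_finsetSum _ fun i _ => ith.indicator
          ((hL i).measurableSet.inter ((hu n).meas hB))) fun x => ?_
      have n1 : ∀ i ∈ t, 0 ≤ (L i ∩ u n ⁻¹' B).indicator (fun x => th (u n x)) x := fun i _ =>
        Set.indicator_nonneg (fun _ _ => th_nn _) x
      show (K ∩ u n ⁻¹' B).indicator (fun x => th (u n x)) x ≤
        ∑ i ∈ t, (L i ∩ u n ⁻¹' B).indicator (fun x => th (u n x)) x
      by_cases hx : x ∈ K ∩ u n ⁻¹' B
      · rw [Set.indicator_of_mem hx]
        rw [hsub] at hx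
        obtain ⟨i, hi, hxi⟩ := Set.mem_iUnion₂.1 hx
        refine le_trans (le_of_eq ?_) (Finset.single_le_sum n1 hi)
        rw [Set.indicator_of_mem hxi]
      · rw [Set.indicator_of_notMem hx]
        exact Finset.sum_nonneg n1
    refine e1.trans ((Finset.sum_le_sum fun i hi => hn i hi B hB hB2).trans ?_)
    rw [← Finset.sum_mul]
    have h2 : volume.real B ≤ √(volume.real B) := by
      rw [Real.le_sqrt b0 b0]
      nlinarith
    have h3 : 0 ≤ vol.real Set.univ * √(volume.real B) := by positivity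
    have h4 : (∑ i ∈ t, D i) * (√(volume.real B) + volume.real B) ≤
      (∑ i ∈ t, D i) * (√(volume.real B) + √(volume.real B)) :=
      mul_le_mul_of_nonneg_left (by linarith) DD
    linarith
  · have e1 : ∫ x in K ∩ u n ⁻¹' B, th (u n x) ∂vol ≤ vol.real Set.univ := by
      have h2 := setIntegral_le_integral ith (ae_of_all _ fun x => th_nn (u n x))
        (s := K ∩ u n ⁻¹' B)
      refine h2.trans ?_
      have h3 : ∫ x, th (u n x) ∂vol ≤ ∫ _, (1 : ℝ) ∂vol :=
        integral_mono ith (integrable_const 1) fun x => th_le_one _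
      rw [integral_const, smul_eq_mul, mul_one] at h3
      exact h3
    have h2 : 1 ≤ √(volume.real B) := Real.one_le_sqrt.2 h1
    have h3 : 0 ≤ 2 * (∑ i ∈ t, D i) * √(volume.real B) := by positivity
    nlinarith

end

end Pool.Agent.N252.TV
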