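import Pool.Agent.N252.TV.G

/-!
Project TV (helper252): the energy identity in a chart.
-/

set_option autoImplicit false
open MeasureTheory Filter Topology Complex
open scoped ContDiff ENNReal

namespace Pool.Agent.N252.TV

open Pool.Agent.W745.RW Pool.Agent.TH294.RS Pool.Agent.TH421.AC

noncomputable section

variable {B : Set ℂ} {ρ U : ℂ → ℝ}

/-- **The energy identity**, with an error term of size `h`. -/
lemma NSol.en {S : Set ℂ} {h C3 : ℝ} (H : NSol B ρ S h C3 U) (hS : IsCompact S) (hSB : S ⊆ B)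
    {φ : ℂ → ℝ} (hφ : TF B φ) (hφS : tsupport φ ⊆ S) {M1 : ℝ}
    (hM : ∀ z, |fderiv ℝ φ z 1| ≤ M1 ∧ |fderiv ℝ φ z I| ≤ M1) {f : ℝ → ℝ} (sf : ContDiff ℝ ∞ f)
    {a : ℝ} (a0 : 0 ≤ a) (hf : ∀ x, |f x| ≤ a * (1 + |x|)) :
    |(∫ z, φ z * (deriv f (U z) * (h ^ 2 * PP U z))) - ∫ z, φ z * (ρ z * (U z * f (U z)))| ≤
      a * (M1 * (ar S + 2 * C3) * h) := by
  have h0 := H.h0
  have so := H.so
  have M10 : 0 ≤ M1 := (abs_nonneg _).trans (hM 0).1
  have z0 : ∀ z, z ∉ S → φ z = 0 := fun z hz =>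
    image_eq_zero_of_notMem_tsupport fun h' => hz (hφS h')
  have z1 : ∀ v z, z ∉ S → fderiv ℝ φ z v = 0 := fun v z hz => by
    rw [fderiv_of_notMem_tsupport ℝ fun h' => hz (hφS h')]; rfl
  have cφ : Continuous φ := hφ.1.continuous
  have cφ' : ∀ v, Continuous (fun z => fderiv ℝ φ z v) := fun v =>
    ((hφ.1.fderiv_right (m := ∞) le_rfl).clm_apply contDiff_const).continuous
  have cU : ContinuousOn U S := so.sm.continuousOn.mono hSB
  have cρ : ContinuousOn ρ S := so.sr.continuousOn.mono hSB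
  have cX : ContinuousOn (dX U) S := so.sX.continuousOn.mono hSB
  have cY : ContinuousOn (dY U) S := so.sY.continuousOn.mono hSB
  have cf : Continuous f := sf.continuous
  have cf' : Continuous (deriv f) := sf.continuous_deriv (by simp)
  have cfU : ContinuousOn (fun z => f (U z)) S := cf.comp_continuousOn cU
  have cf'U : ContinuousOn (fun z => deriv f (U z)) S := cf'.comp_continuousOn cU
  have cPP : ContinuousOn (PP U) S := (cX.pow 2).add (cY.pow 2)
  have sfU : ContDiffOn ℝ ∞ (fun z => f (U z)) B := sf.comp_contDiffOn so.sm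
  obtain ⟨-, i1, e1⟩ := div0 so.op hφ (sfU.mul so.sX) 1
  obtain ⟨-, i2, e2⟩ := div0 so.op hφ (sfU.mul so.sY) I
  -- the derivative of the vector field
  have dd : ∀ z ∈ B, ∀ (v : ℂ) (G : ℂ → ℝ), ContDiffOn ℝ ∞ G B →
      fderiv ℝ (fun w => f (U w) * G w) z v =
        deriv f (U z) * fderiv ℝ U z v * G z + f (U z) * fderiv ℝ G z v := by
    intro z hz v G sG
    have d1 : DifferentiableAt ℝ U z := rdA so.op so.sm hz
    have d2 : DifferentiableAt ℝ G z := rdA so.op sG hz
    have d3 : DifferentiableAt ℝ (fun w => f (U w)) z := rdA so.op sfU hz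
    have d4 : fderiv ℝ (fun w => f (U w)) z v = deriv f (U z) * fderiv ℝ U z v := by
      have h1 := (sf.differentiable (by simp) (U z)).hasDerivAt
      have h2 := h1.comp_hasFDerivAt z d1.hasFDerivAt
      have h3 : fderiv ℝ (fun w => f (U w)) z = deriv f (U z) • fderiv ℝ U z := h2.fderiv
      rw [h3]; rfl
    rw [fderiv_fun_mul d3 d2]
    simp only [add_apply, smul_apply, smul_eq_mul]
    rw [d4]; ring
  have j1 : Integrable (fun z => φ z * (deriv f (U z) * (h ^ 2 * PP U z))) :=
    rint hS (cφ.continuousOn.mul (cf'U.mul (continuousOn_const.mul cPP))) fun z hz => by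
      rw [z0 z hz, zero_mul]
  have j2 : Integrable (fun z => φ z * (ρ z * (U z * f (U z)))) :=
    rint hS (cφ.continuousOn.mul (cρ.mul (cU.mul cfU))) fun z hz => by rw [z0 z hz, zero_mul]
  have k1 : Integrable (fun z => φ z * fderiv ℝ (fun w => f (U w) * dX U w) z 1) := by
    refine rint hS (cφ.continuousOn.mul ?_) fun z hz => by rw [z0 z hz, zero_mul]
    exact (rsd so.op (sfU.mul so.sX) 1).continuousOn.mono hSB
  have k2 : Integrable (fun z => φ z * fderiv ℝ (fun w => f (U w) * dY U w) z I) := by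
    refine rint hS (cφ.continuousOn.mul ?_) fun z hz => by rw [z0 z hz, zero_mul]
    exact (rsd so.op (sfU.mul so.sY) I).continuousOn.mono hSB
  have key : (∫ z, φ z * (deriv f (U z) * (h ^ 2 * PP U z))) -
      ∫ z, φ z * (ρ z * (U z * f (U z))) =
      h ^ 2 * ((∫ z, φ z * fderiv ℝ (fun w => f (U w) * dX U w) z 1) +
        ∫ z, φ z * fderiv ℝ (fun w => f (U w) * dY U w) z I) := by
    rw [← integral_sub j1 j2, ← integral_add k1 k2, ← integral_const_mul]
    congr 1
    funext z
    by_cases hz : z ∈ S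
    · have hzB := hSB hz
      rw [dd z hzB 1 (dX U) so.sX, dd z hzB I (dY U) so.sY]
      have he : fderiv ℝ (dX U) z 1 + fderiv ℝ (dY U) z I = -((h ^ 2)⁻¹ * (ρ z * U z)) :=
        so.eq z hzB
      have hx : fderiv ℝ U z 1 = dX U z := rfl
      have hy : fderiv ℝ U z I = dY U z := rfl
      rw [hx, hy]
      have hh : h ^ 2 * (h ^ 2)⁻¹ = 1 := mul_inv_cancel₀ (by positivity)
      have e4 : fderiv ℝ (dY U) z I = -((h ^ 2)⁻¹ * (ρ z * U z)) - fderiv ℝ (dX U) z 1 := by
        linarith
      rw [e4]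
      unfold PP
      linear_combination (φ z * f (U z) * (ρ z * U z)) * hh
    · rw [z0 z hz]; ring
  have e1' : ∫ z, φ z * fderiv ℝ (fun w => f (U w) * dX U w) z 1 =
      -∫ z, fderiv ℝ φ z 1 * (f (U z) * dX U z) := e1
  have e2' : ∫ z, φ z * fderiv ℝ (fun w => f (U w) * dY U w) z I =
      -∫ z, fderiv ℝ φ z I * (f (U z) * dY U z) := e2
  have i1' : Integrable (fun z => fderiv ℝ φ z 1 * (f (U z) * dX U z)) := i1
  have i2' : Integrable (fun z => fderiv ℝ φ z I * (f (U z) * dY U z)) := i2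
  rw [key, e1', e2', ← neg_add, ← integral_add i1' i2', mul_neg, abs_neg, abs_mul,
    abs_of_pos (by positivity : 0 < h ^ 2)]
  -- the bound
  have iE : IntegrableOn (fun z => 1 + (U z ^ 2 + h ^ 2 * PP U z)) S :=
    (continuousOn_const.add ((cU.pow 2).add (continuousOn_const.mul cPP))).integrableOn_compact hS
  have bd : |∫ z, (fderiv ℝ φ z 1 * (f (U z) * dX U z) + fderiv ℝ φ z I * (f (U z) * dY U z))| ≤
      ∫ z in S, M1 * a * h⁻¹ * (1 + (U z ^ 2 + h ^ 2 * PP U z)) := by
    refine (abs_integral_le_integral_abs).trans ?_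
    rw [← integral_indicator hS.measurableSet]
    have iE2 : IntegrableOn (fun z => M1 * a * h⁻¹ * (1 + (U z ^ 2 + h ^ 2 * PP U z))) S :=
      iE.const_mul _
    refine integral_mono (i1'.add i2').abs (iE2.integrable_indicator
      hS.measurableSet) fun z => ?_
    show |fderiv ℝ φ z 1 * (f (U z) * dX U z) + fderiv ℝ φ z I * (f (U z) * dY U z)| ≤
      S.indicator (fun z => M1 * a * h⁻¹ * (1 + (U z ^ 2 + h ^ 2 * PP U z))) z
    by_cases hz : z ∈ S
    · rw [Set.indicator_of_mem hz]
      have h1 : |fderiv ℝ φ z 1 * (f (U z) * dX U z) + fderiv ℝ φ z I * (f (U z) * dY U z)| ≤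
          M1 * |f (U z)| * (|dX U z| + |dY U z|) := by
        refine (abs_add_le _ _).trans ?_
        rw [abs_mul, abs_mul, abs_mul, abs_mul]
        have a1 := mul_le_mul_of_nonneg_right (hM z).1
          (mul_nonneg (abs_nonneg (f (U z))) (abs_nonneg (dX U z)))
        have a2 := mul_le_mul_of_nonneg_right (hM z).2
          (mul_nonneg (abs_nonneg (f (U z))) (abs_nonneg (dY U z)))
        linarith
      have h2 : M1 * |f (U z)| * (|dX U z| + |dY U z|) ≤
          M1 * (a * (1 + |U z|)) * (|dX U z| + |dY U z|) :=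
        mul_le_mul_of_nonneg_right (mul_le_mul_of_nonneg_left (hf _) M10) (by positivity)
      have h3 : (1 + |U z|) * (|dX U z| + |dY U z|) ≤
          h⁻¹ * (1 + (U z ^ 2 + h ^ 2 * PP U z)) := by
        have h4 : (1 + |U z|) * (h * |dX U z| + h * |dY U z|) ≤
            1 + (U z ^ 2 + h ^ 2 * PP U z) := by
          unfold PP
          have q1 := sq_abs (U z)
          have q2 := sq_abs (dX U z)
          have q3 := sq_abs (dY U z)
          rw [← q1, ← q2, ← q3]
          nlinarith [sq_nonneg (1 - |U z|), sq_nonneg (1 + |U z| - (h * |dX U z| + h * |dY U z|)),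
            sq_nonneg (h * |dX U z| - h * |dY U z|)]
        rw [inv_mul_eq_div, le_div_iff₀ h0]
        linarith
      refine h1.trans (h2.trans ?_)
      have h5 := mul_le_mul_of_nonneg_left h3 (by positivity : 0 ≤ M1 * a)
      linarith
    · rw [Set.indicator_of_notMem hz, z1 1 z hz, z1 I z hz]; simp
  rw [integral_const_mul] at bd
  have iS : ∫ z in S, (1 + (U z ^ 2 + h ^ 2 * PP U z)) ≤ ar S + 2 * C3 := by
    have i3 : IntegrableOn (fun z => U z ^ 2) S := (cU.pow 2).integrableOn_compact hS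
    have i4 : IntegrableOn (fun z => h ^ 2 * PP U z) S :=
      (continuousOn_const.mul cPP).integrableOn_compact hS
    have i5 : IntegrableOn (fun _ : ℂ => (1 : ℝ)) S :=
      (continuousOn_const (c := (1 : ℝ))).integrableOn_compact hS
    have e3 : ∫ z in S, (1 + (U z ^ 2 + h ^ 2 * PP U z)) =
        ar S + ((∫ z in S, U z ^ 2) + ∫ z in S, h ^ 2 * PP U z) := by
      have e4 : ∫ z in S, (U z ^ 2 + h ^ 2 * PP U z) =
        (∫ z in S, U z ^ 2) + ∫ z in S, h ^ 2 * PP U z := integral_add i3 i4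
      rw [← e4]
      exact integral_add i5 (i3.add i4)
    rw [e3]
    have := H.b0
    have := H.b1
    linarith
  have h6 := mul_le_mul_of_nonneg_left (bd.trans (mul_le_mul_of_nonneg_left iS
    (by positivity : 0 ≤ M1 * a * h⁻¹))) (by positivity : 0 ≤ h ^ 2)
  refine h6.trans (le_of_eq ?_)
  field_simp

end

end Pool.Agent.N252.TV
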