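import Pool.Agent.N252.TV.H

/-!
Project TV (helper252): limit laws, Prokhorov's theorem, and the final assembly.
-/

set_option autoImplicit false
open MeasureTheory Filter Topology Complex
open scoped ContDiff ENNReal NNReal BoundedContinuousFunction

namespace Pool.Agent.N252.TV

noncomputable section

lemma lim_eta2 {D b c : ℝ} (h : ∀ η : ℝ, 0 < η → c ≤ D * √(b + η) + η) : c ≤ D * √b := by
  have h1 : Tendsto (fun η : ℝ => D * √(b + η) + η) (𝓝[>] 0) (𝓝 (D * √(b + 0) + 0)) := by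
    apply Tendsto.mono_left _ nhdsWithin_le_nhds
    apply Continuous.tendsto
    fun_prop
  rw [add_zero, add_zero] at h1
  refine ge_of_tendsto h1 ?_
  filter_upwards [self_mem_nhdsWithin] with η hη
  exact h η hη

/-- bounds on Borel sets pass to weak limits -/
lemma lim_borel {μ : ℕ → Measure ℝ} [∀ n, IsFiniteMeasure (μ n)] {ν : Measure ℝ}
    [IsFiniteMeasure ν]
    (hw : ∀ g : ℝ →ᵇ ℝ, Tendsto (fun n => ∫ x, g x ∂(μ n)) atTop (𝓝 (∫ x, g x ∂ν))) {D : ℝ}
    (D0 : 0 ≤ D) (hb : ∀ᶠ n in atTop, ∀ B : Set ℝ, MeasurableSet B → volume B ≠ ⊤ →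
      ∫ x in B, th x ∂(μ n) ≤ D * √(volume.real B)) {B : Set ℝ} (hB : MeasurableSet B)
    (hB2 : volume B ≠ ⊤) : ∫ x in B, th x ∂ν ≤ D * √(volume.real B) := by
  refine lim_eta2 fun η hη => ?_
  obtain ⟨f, U, sf, kf, f0, f1, hU, tf, Uf, hU2, K, hK, hKB, fK, hτ⟩ := exists_sand ν hB hB2 hη
  have ith : ∀ τ : Measure ℝ, IsFiniteMeasure τ → Integrable th τ := fun τ _ =>
    Integrable.of_bound th_sm.continuous.aestronglyMeasurable 1 (ae_of_all _ fun x => th_abs_le _)
  have cf : Continuous (fun x => f x * th x) := sf.continuous.mul th_sm.continuous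
  have bf : ∀ x, |f x * th x| ≤ 1 := fun x => by
    rw [abs_mul, abs_of_nonneg (f0 x)]
    exact mul_le_one₀ (f1 x) (abs_nonneg _) (th_abs_le x)
  have ifth : ∀ τ : Measure ℝ, IsFiniteMeasure τ → Integrable (fun x => f x * th x) τ :=
    fun τ _ => Integrable.of_bound cf.aestronglyMeasurable 1 (ae_of_all _ bf)
  have lim := hw (BoundedContinuousFunction.ofNormedAddCommGroup _ cf 1 bf)
  have h1 : ∫ x, f x * th x ∂ν ≤ D * √(volume.real B + η) := by
    refine le_of_tendsto lim (hb.mono fun n hn => ?_)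
    have h2 : ∫ x, f x * th x ∂(μ n) ≤ ∫ x in U, th x ∂(μ n) := by
      rw [← integral_indicator hU.measurableSet]
      refine integral_mono (ifth _ inferInstance) ((ith _ inferInstance).indicator
        hU.measurableSet) fun x => ?_
      show f x * th x ≤ U.indicator th x
      by_cases hx : x ∈ U
      · rw [Set.indicator_of_mem hx]
        have := mul_le_mul_of_nonneg_right (f1 x) (th_nn x)
        linarith
      · rw [Set.indicator_of_notMem hx, image_eq_zero_of_notMem_tsupport fun h => hx (tf h),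
          zero_mul]
    refine h2.trans ((hn U hU.measurableSet Uf).trans ?_)
    exact mul_le_mul_of_nonneg_left (Real.sqrt_le_sqrt hU2) D0
  have h2 : ∫ x in K, th x ∂ν ≤ ∫ x, f x * th x ∂ν := by
    rw [← integral_indicator hK.measurableSet]
    refine integral_mono ((ith _ inferInstance).indicator hK.measurableSet)
      (ifth _ inferInstance) fun x => ?_
    show K.indicator th x ≤ f x * th x
    by_cases hx : x ∈ K
    · rw [Set.indicator_of_mem hx, fK x hx, one_mul]
    · rw [Set.indicator_of_notMem hx]; exact mul_nonneg (f0 x) (th_nn x)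
  have h3 : ∫ x in B, th x ∂ν ≤ (∫ x in K, th x ∂ν) + η := by
    have e : ∫ x in B, th x ∂ν = (∫ x in B ∩ K, th x ∂ν) + ∫ x in B \ K, th x ∂ν :=
      (integral_inter_add_sdiff hK.measurableSet (ith ν inferInstance).integrableOn).symm
    rw [e, Set.inter_eq_self_of_subset_right hKB]
    have h4 : ∫ x in B \ K, th x ∂ν ≤ ν.real (B \ K) := by
      have h5 : ∫ x in B \ K, th x ∂ν ≤ ∫ x in B \ K, (1 : ℝ) ∂ν :=
        setIntegral_mono (ith ν inferInstance).integrableOn (integrable_const 1).integrableOn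
          fun x => th_le_one x
      rwa [setIntegral_const, smul_eq_mul, mul_one] at h5
    have h6 : ν.real (B \ K) = ν.real B - ν.real K := by
      rw [measureReal_sdiff hKB hK.measurableSet]
    linarith
  linarith

/-- **Prokhorov's theorem** for measures with bounded second moments. -/
lemma prok (P : ℕ → ProbabilityMeasure ℝ) {M : ℝ}
    (hM : ∀ n, Integrable (fun x => x ^ 2) (P n : Measure ℝ) ∧
      ∫ x, x ^ 2 ∂(P n : Measure ℝ) ≤ M) :
    ∃ ψ : ℕ → ℕ, StrictMono ψ ∧ ∃ Q : ProbabilityMeasure ℝ, Tendsto (P ∘ ψ) atTop (𝓝 Q) := by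
  have M0 : 0 ≤ M := (integral_nonneg fun x => sq_nonneg x).trans (hM 0).2
  obtain ⟨w, hw⟩ : ∃ w : ℕ → ℝ≥0, ∀ m, (w m : ℝ) = M / ((m : ℝ) + 1) ^ 2 :=
    ⟨fun m => ⟨M / ((m : ℝ) + 1) ^ 2, by positivity⟩, fun m => rfl⟩
  have w0 : Tendsto w atTop (𝓝 0) := by
    rw [← NNReal.tendsto_coe]
    have h1 : Tendsto (fun m : ℕ => M * (1 / ((m : ℝ) + 1)) ^ 2) atTop (𝓝 (M * 0 ^ 2)) :=
      (tendsto_one_div_add_atTop_nhds_zero_nat.pow 2).const_mul M
    have e : M * 0 ^ 2 = ((0 : ℝ≥0) : ℝ) := by simp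
    rw [e] at h1
    refine h1.congr fun m => ?_
    rw [hw]
    field_simp
  have hc := isCompact_setOfPred_probabilityMeasure_mass_eq_compl_isCompact_le (E := ℝ)
    (K := fun m : ℕ => Set.Icc (-((m : ℝ) + 1)) ((m : ℝ) + 1)) w0 (fun m => isCompact_Icc)
    (Or.inl inferInstance)
  obtain ⟨Q, -, ψ, hψ, hQ⟩ := hc.tendsto_subseq (x := P) fun n => by
    intro m
    rw [← NNReal.coe_le_coe, hw]
    show ((P n : Measure ℝ) _).toReal ≤ _
    have h1 := mul_meas_ge_le_integral_of_nonneg (μ := (P n : Measure ℝ))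
      (ae_of_all _ fun x => sq_nonneg x) (hM n).1 (((m : ℝ) + 1) ^ 2)
    rw [le_div_iff₀ (by positivity), mul_comm]
    refine le_trans ?_ (h1.trans (hM n).2)
    refine mul_le_mul_of_nonneg_left ?_ (by positivity)
    refine measureReal_mono fun x hx => ?_
    show ((m : ℝ) + 1) ^ 2 ≤ x ^ 2
    have h2 : (m : ℝ) + 1 ≤ |x| := by
      by_contra hcon
      push Not at hcon
      exact hx (abs_le.1 hcon.le)
    rw [← sq_abs x]
    exact pow_le_pow_left₀ (by positivity) h2 2
  exact ⟨ψ, hψ, Q, hQ⟩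

variable {X : Type*} [TopologicalSpace X] [MeasurableSpace X] [BorelSpace X] {vol : Measure X}

/-- the law of `u` on the set `S` -/
def law (vol : Measure X) (S : Set X) (u : X → ℝ) : Measure ℝ := (vol.restrict S).map u

omit [TopologicalSpace X] [BorelSpace X] in
lemma law_int {S : Set X} {u : X → ℝ} (hu : Measurable u) {G : ℝ → ℝ} (hG : Measurable G) :
    ∫ x, G x ∂(law vol S u) = ∫ x in S, G (u x) ∂vol :=
  integral_map hu.aemeasurable hG.aestronglyMeasurable

omit [TopologicalSpace X] [BorelSpace X] in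
lemma law_set {S : Set X} {u : X → ℝ} (hu : Measurable u) {G : ℝ → ℝ} (hG : Measurable G)
    {B : Set ℝ} (hB : MeasurableSet B) :
    ∫ x in B, G x ∂(law vol S u) = ∫ x in S ∩ u ⁻¹' B, G (u x) ∂vol := by
  rw [law, setIntegral_map hB hG.aestronglyMeasurable hu.aemeasurable,
    Measure.restrict_restrict (hu hB), Set.inter_comm]

omit [TopologicalSpace X] [BorelSpace X] in
lemma law_fin [IsFiniteMeasure vol] (S : Set X) (u : X → ℝ) : IsFiniteMeasure (law vol S u) := by
  unfold law; infer_instance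

omit [TopologicalSpace X] [BorelSpace X] in
lemma osc_of_pa {u : ℕ → X → ℝ} (hu : ∀ n, Measurable (u n)) {S : Set X} (h : PA vol u S) :
    ∀ δ : ℝ, 0 < δ → ∃ ε : ℝ, 0 < ε ∧ ∀ᶠ n in atTop, Osc (law vol S (u n)) ε δ := by
  intro δ hδ
  obtain ⟨ε, hε, h1⟩ := h δ hδ
  refine ⟨ε, hε, (h1 ε hε le_rfl).mono fun n hn f sf kf bf => ?_⟩
  rw [law_int (hu n) (osc_cont sf.continuous ε).measurable]
  exact hn f sf kf bf

end

end Pool.Agent.N252.TV
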