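import Pool.Agent.N252.TV.L

/-!
Project TV (helper252): characteristic functions and linear growth test functions.
-/

set_option autoImplicit false
open MeasureTheory Filter Topology Complex ProbabilityTheory
open scoped ContDiff ENNReal NNReal BoundedContinuousFunction

namespace Pool.Agent.N252.TV

noncomputable section

/-- `∫ cos (t x) dτ` -/
def cI (τ : Measure ℝ) (t : ℝ) : ℝ := ∫ x, Real.cos (t * x) ∂τ
/-- `∫ sin (t x) dτ` -/
def sI (τ : Measure ℝ) (t : ℝ) : ℝ := ∫ x, Real.sin (t * x) ∂τ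
/-- `∫ x cos (t x) dτ` -/
def xc (τ : Measure ℝ) (t : ℝ) : ℝ := ∫ x, x * Real.cos (t * x) ∂τ
/-- `∫ x sin (t x) dτ` -/
def xs (τ : Measure ℝ) (t : ℝ) : ℝ := ∫ x, x * Real.sin (t * x) ∂τ

lemma icos (τ : Measure ℝ) [IsFiniteMeasure τ] (t : ℝ) : Integrable (fun x => Real.cos (t * x)) τ :=
  Integrable.of_bound (by fun_prop : Continuous fun x : ℝ => Real.cos (t * x)).aestronglyMeasurable 1
    (ae_of_all _ fun x => Real.abs_cos_le_one _)

lemma isin (τ : Measure ℝ) [IsFiniteMeasure τ] (t : ℝ) : Integrable (fun x => Real.sin (t * x)) τ :=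
  Integrable.of_bound (by fun_prop : Continuous fun x : ℝ => Real.sin (t * x)).aestronglyMeasurable 1
    (ae_of_all _ fun x => Real.abs_sin_le_one _)

lemma char_cs (τ : Measure ℝ) [IsFiniteMeasure τ] (t : ℝ) :
    charFun τ t = (cI τ t : ℂ) + (sI τ t : ℂ) * I := by
  rw [charFun_apply_real]
  have e : ∀ x : ℝ, cexp (t * x * I) = ((Real.cos (t * x) : ℝ) : ℂ) +
      ((Real.sin (t * x) : ℝ) : ℂ) * I := by
    intro x
    rw [Complex.exp_mul_I]
    push_cast
    rfl
  simp only [e]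
  have i1 : Integrable (fun x : ℝ => ((Real.cos (t * x) : ℝ) : ℂ)) τ := (icos τ t).ofReal
  have i2 : Integrable (fun x : ℝ => ((Real.sin (t * x) : ℝ) : ℂ)) τ := (isin τ t).ofReal
  rw [integral_add i1 (i2.mul_const I), integral_mul_const]
  have e1 : ∫ x, ((Real.cos (t * x) : ℝ) : ℂ) ∂τ = (cI τ t : ℂ) := integral_ofReal
  have e2 : ∫ x, ((Real.sin (t * x) : ℝ) : ℂ) ∂τ = (sI τ t : ℂ) := integral_ofReal
  rw [e1, e2]

lemma int_abs {τ : Measure ℝ} [IsFiniteMeasure τ] (h2 : Integrable (fun x => x ^ 2) τ) :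
    Integrable (fun x : ℝ => |x|) τ := by
  refine ((integrable_const (1 : ℝ)).add h2).mono' continuous_abs.aestronglyMeasurable
    (ae_of_all _ fun x => ?_)
  show ‖|x|‖ ≤ 1 + x ^ 2
  rw [Real.norm_eq_abs, abs_abs, ← sq_abs x]
  nlinarith [sq_nonneg (|x| - 1), abs_nonneg x]

lemma cI_d {τ : Measure ℝ} [IsFiniteMeasure τ] (h2 : Integrable (fun x => x ^ 2) τ) (t : ℝ) :
    HasDerivAt (cI τ) (-(xs τ t)) t := by
  have h := hasDerivAt_integral_of_dominated_loc_of_deriv_le (μ := τ) (s := Set.univ) (x₀ := t)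
    (F := fun t x => Real.cos (t * x)) (F' := fun t x => -(x * Real.sin (t * x)))
    (bound := fun x => |x|) univ_mem
    (Eventually.of_forall fun s => (icos τ s).aestronglyMeasurable) (icos τ t)
    (by fun_prop : Continuous fun x : ℝ => -(x * Real.sin (t * x))).aestronglyMeasurable
    (ae_of_all _ fun x s _ => by
      rw [norm_neg, norm_mul]
      have := Real.abs_sin_le_one (s * x)
      have h3 := mul_le_mul_of_nonneg_left this (abs_nonneg x)
      rw [mul_one] at h3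
      exact h3) (int_abs h2)
    (ae_of_all _ fun x s _ => by
      have h1 : HasDerivAt (fun s : ℝ => s * x) x s := by
        simpa using (hasDerivAt_id s).mul_const x
      have h3 := (Real.hasDerivAt_cos (s * x)).comp s h1
      have e : -(x * Real.sin (s * x)) = -Real.sin (s * x) * x := by ring
      rw [e]; exact h3)
  have h2 := h.2
  rw [integral_neg] at h2
  exact h2

lemma sI_d {τ : Measure ℝ} [IsFiniteMeasure τ] (h2 : Integrable (fun x => x ^ 2) τ) (t : ℝ) :
    HasDerivAt (sI τ) (xc τ t) t := by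
  have h := hasDerivAt_integral_of_dominated_loc_of_deriv_le (μ := τ) (s := Set.univ) (x₀ := t)
    (F := fun t x => Real.sin (t * x)) (F' := fun t x => x * Real.cos (t * x))
    (bound := fun x => |x|) univ_mem
    (Eventually.of_forall fun s => (isin τ s).aestronglyMeasurable) (isin τ t)
    (by fun_prop : Continuous fun x : ℝ => x * Real.cos (t * x)).aestronglyMeasurable
    (ae_of_all _ fun x s _ => by
      rw [norm_mul]
      have := Real.abs_cos_le_one (s * x)
      have h3 := mul_le_mul_of_nonneg_left this (abs_nonneg x)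
      rw [mul_one] at h3
      exact h3) (int_abs h2)
    (ae_of_all _ fun x s _ => by
      have h1 : HasDerivAt (fun s : ℝ => s * x) x s := by
        simpa using (hasDerivAt_id s).mul_const x
      have h3 := (Real.hasDerivAt_sin (s * x)).comp s h1
      have e : x * Real.cos (s * x) = Real.cos (s * x) * x := by ring
      rw [e]; exact h3)
  exact h.2

lemma xs_c {τ : Measure ℝ} [IsFiniteMeasure τ] (h2 : Integrable (fun x => x ^ 2) τ) :
    Continuous (xs τ) := by
  refine continuous_of_dominated (bound := fun x => |x|) (fun t => ?_) (fun t => ?_) (int_abs h2)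
    (ae_of_all _ fun x => by fun_prop)
  · exact (by fun_prop : Continuous fun x : ℝ => x * Real.sin (t * x)).aestronglyMeasurable
  · refine ae_of_all _ fun x => ?_
    rw [norm_mul]
    have h3 := mul_le_mul_of_nonneg_left (Real.abs_sin_le_one (t * x)) (abs_nonneg x)
    rw [mul_one] at h3
    exact h3

lemma xc_c {τ : Measure ℝ} [IsFiniteMeasure τ] (h2 : Integrable (fun x => x ^ 2) τ) :
    Continuous (xc τ) := by
  refine continuous_of_dominated (bound := fun x => |x|) (fun t => ?_) (fun t => ?_) (int_abs h2)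
    (ae_of_all _ fun x => by fun_prop)
  · exact (by fun_prop : Continuous fun x : ℝ => x * Real.cos (t * x)).aestronglyMeasurable
  · refine ae_of_all _ fun x => ?_
    rw [norm_mul]
    have h3 := mul_le_mul_of_nonneg_left (Real.abs_cos_le_one (t * x)) (abs_nonneg x)
    rw [mul_one] at h3
    exact h3

lemma x_bd {τ : Measure ℝ} [IsFiniteMeasure τ] {M V : ℝ} (h2 : Integrable (fun x => x ^ 2) τ)
    (hM : ∫ x, x ^ 2 ∂τ ≤ M) (hV : τ.real Set.univ ≤ V) : ∫ x, |x| ∂τ ≤ V + M := by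
  have h1 : ∫ x, |x| ∂τ ≤ ∫ x, (1 + x ^ 2) ∂τ := by
    refine integral_mono (int_abs h2) ((integrable_const 1).add h2) fun x => ?_
    show |x| ≤ 1 + x ^ 2
    rw [← sq_abs x]
    nlinarith [sq_nonneg (|x| - 1), abs_nonneg x]
  rw [integral_add (integrable_const 1) h2, integral_const, smul_eq_mul, mul_one] at h1
  linarith

lemma xs_bd {τ : Measure ℝ} [IsFiniteMeasure τ] {M V : ℝ} (h2 : Integrable (fun x => x ^ 2) τ)
    (hM : ∫ x, x ^ 2 ∂τ ≤ M) (hV : τ.real Set.univ ≤ V) (t : ℝ) : |xs τ t| ≤ V + M := by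
  refine (abs_integral_le_integral_abs).trans (le_trans ?_ (x_bd h2 hM hV))
  refine integral_mono_of_nonneg (ae_of_all _ fun x => abs_nonneg _) (int_abs h2)
    (ae_of_all _ fun x => ?_)
  show |x * Real.sin (t * x)| ≤ |x|
  rw [abs_mul]
  exact mul_le_of_le_one_right (abs_nonneg _) (Real.abs_sin_le_one _)

lemma xc_bd {τ : Measure ℝ} [IsFiniteMeasure τ] {M V : ℝ} (h2 : Integrable (fun x => x ^ 2) τ)
    (hM : ∫ x, x ^ 2 ∂τ ≤ M) (hV : τ.real Set.univ ≤ V) (t : ℝ) : |xc τ t| ≤ V + M := by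
  refine (abs_integral_le_integral_abs).trans (le_trans ?_ (x_bd h2 hM hV))
  refine integral_mono_of_nonneg (ae_of_all _ fun x => abs_nonneg _) (int_abs h2)
    (ae_of_all _ fun x => ?_)
  show |x * Real.cos (t * x)| ≤ |x|
  rw [abs_mul]
  exact mul_le_of_le_one_right (abs_nonneg _) (Real.abs_cos_le_one _)

/-! ### The Gaussian -/

lemma gauss_cs (v : ℝ≥0) (t : ℝ) : cI (gaussianReal 0 v) t = Real.exp (-(v * t ^ 2 / 2)) ∧
    sI (gaussianReal 0 v) t = 0 := by
  have h := char_cs (gaussianReal 0 v) t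
  rw [charFun_gaussianReal] at h
  have e : cexp (t * ((0 : ℝ) : ℂ) * I - v * t ^ 2 / 2) =
      ((Real.exp (-(v * t ^ 2 / 2)) : ℝ) : ℂ) := by
    push_cast
    congr 1
    ring
  rw [e] at h
  have h1 := congrArg Complex.re h
  have h2 := congrArg Complex.im h
  simp only [Complex.ofReal_re, Complex.add_re, Complex.mul_re, Complex.I_re, Complex.I_im,
    Complex.ofReal_im, mul_zero, mul_one, add_zero, sub_self] at h1
  simp only [Complex.ofReal_re, Complex.add_im, Complex.mul_im, Complex.I_re, Complex.I_im,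
    Complex.ofReal_im, mul_zero, mul_one, add_zero, zero_add] at h2
  exact ⟨h1.symm, h2.symm⟩

lemma gauss_sq (v : ℝ≥0) : Integrable (fun x => x ^ 2) (gaussianReal 0 v) :=
  (memLp_id_gaussianReal (μ := 0) (v := v) 2).integrable_sq

lemma gauss_xs (v : ℝ≥0) (t : ℝ) : xs (gaussianReal 0 v) t =
    v * t * Real.exp (-(v * t ^ 2 / 2)) := by
  have h1 := cI_d (gauss_sq v) t
  have e : cI (gaussianReal 0 v) = fun t : ℝ => Real.exp (-(v * t ^ 2 / 2)) :=
    funext fun t => (gauss_cs v t).1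
  rw [e] at h1
  have h2 : HasDerivAt (fun t : ℝ => Real.exp (-(v * t ^ 2 / 2)))
      (Real.exp (-(v * t ^ 2 / 2)) * (-(v * (2 * t) / 2))) t := by
    have h3 : HasDerivAt (fun t : ℝ => t ^ 2) (2 * t) t := by simpa using hasDerivAt_pow 2 t
    exact (((h3.const_mul (v : ℝ)).div_const 2).neg).exp
  have := h1.unique h2
  linarith

lemma gauss_xc (v : ℝ≥0) (t : ℝ) : xc (gaussianReal 0 v) t = 0 := by
  have h1 := sI_d (gauss_sq v) t
  have e : sI (gaussianReal 0 v) = fun _ : ℝ => (0 : ℝ) :=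
    funext fun t => (gauss_cs v t).2
  rw [e] at h1
  exact h1.unique (hasDerivAt_const t 0)

/-! ### Convergence of test functions with linear growth -/

/-- weak convergence and bounded second moments give convergence for linear growth -/
lemma wlin {μ : ℕ → Measure ℝ} [∀ n, IsFiniteMeasure (μ n)] {ν : Measure ℝ}
    [IsFiniteMeasure ν]
    (hw : ∀ g : ℝ →ᵇ ℝ, Tendsto (fun n => ∫ x, g x ∂(μ n)) atTop (𝓝 (∫ x, g x ∂ν))) {M : ℝ}
    (hM : ∀ n, Integrable (fun x => x ^ 2) (μ n) ∧ ∫ x, x ^ 2 ∂(μ n) ≤ M)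
    (hν : Integrable (fun x => x ^ 2) ν ∧ ∫ x, x ^ 2 ∂ν ≤ M) {k : ℝ → ℝ} (ck : Continuous k)
    (hk : ∀ x, |k x| ≤ |x|) :
    Tendsto (fun n => ∫ x, k x ∂(μ n)) atTop (𝓝 (∫ x, k x ∂ν)) := by
  have M0 : 0 ≤ M := (integral_nonneg fun x => sq_nonneg x).trans hν.2
  rw [Metric.tendsto_atTop]
  intro ε hε
  obtain ⟨T, hT⟩ : ∃ T : ℝ, T = 4 * (M + 1) / ε + 1 := ⟨_, rfl⟩
  have T0 : 0 < T := by rw [hT]; positivity
  obtain ⟨ψ, hψ⟩ : ∃ ψ : ℝ → ℝ, ψ = fun x => max 0 (min 1 (2 - |x| / T)) := ⟨_, rfl⟩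
  have cψ : Continuous ψ := by rw [hψ]; fun_prop
  have ψ0 : ∀ x, 0 ≤ ψ x := fun x => by rw [hψ]; exact le_max_left _ _
  have ψ1 : ∀ x, ψ x ≤ 1 := fun x => by rw [hψ]; exact max_le zero_le_one (min_le_left _ _)
  have ψb : ∀ x, |x| ≤ T → ψ x = 1 := by
    intro x hx
    simp only [hψ]
    have : |x| / T ≤ 1 := by rw [div_le_one T0]; exact hx
    rw [min_eq_left (by linarith), max_eq_right zero_le_one]
  have ψc : ∀ x, 2 * T < |x| → ψ x = 0 := by
    intro x hx
    simp only [hψ]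
    have : 2 ≤ |x| / T := by rw [le_div_iff₀ T0]; linarith
    rw [min_eq_right (by linarith), max_eq_left (by linarith)]
  have cp : Continuous fun x => k x * ψ x := ck.mul cψ
  have bp : ∀ x, |k x * ψ x| ≤ 2 * T := by
    intro x
    rw [abs_mul, abs_of_nonneg (ψ0 x)]
    by_cases h : 2 * T < |x|
    · rw [ψc x h, mul_zero]; positivity
    · have := mul_le_mul ((hk x).trans (not_lt.1 h)) (ψ1 x) (ψ0 x) (by positivity)
      linarith
  have lim := hw (BoundedContinuousFunction.ofNormedAddCommGroup _ cp (2 * T) bp)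
  obtain ⟨N, hN⟩ := Metric.tendsto_atTop.1 lim (ε / 2) (by positivity)
  refine ⟨N, fun n hn => ?_⟩
  have cl : ∀ τ : Measure ℝ, IsFiniteMeasure τ → (Integrable (fun x => x ^ 2) τ ∧
      ∫ x, x ^ 2 ∂τ ≤ M) → |∫ x, k x ∂τ - ∫ x, k x * ψ x ∂τ| ≤ ε / 4 := by
    intro τ hτ h2
    have i1 : Integrable k τ := (int_abs h2.1).mono' ck.aestronglyMeasurable (ae_of_all _ hk)
    have i2 : Integrable (fun x => k x * ψ x) τ :=
      Integrable.of_bound cp.aestronglyMeasurable (2 * T) (ae_of_all _ bp)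
    rw [← integral_sub i1 i2]
    refine (abs_integral_le_integral_abs).trans ?_
    have h3 : ∫ x, |k x - k x * ψ x| ∂τ ≤ ∫ x, T⁻¹ * x ^ 2 ∂τ := by
      refine integral_mono (i1.sub i2).abs (h2.1.const_mul _) fun x => ?_
      show |k x - k x * ψ x| ≤ T⁻¹ * x ^ 2
      rcases le_or_gt |x| T with h | h
      · rw [ψb x h, mul_one, sub_self, abs_zero]; positivity
      · have e : k x - k x * ψ x = k x * (1 - ψ x) := by ring
        rw [e, abs_mul, abs_of_nonneg (show 0 ≤ 1 - ψ x by linarith [ψ1 x])]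
        have h4 : |k x| * (1 - ψ x) ≤ |x| * 1 :=
          mul_le_mul (hk x) (by linarith [ψ0 x]) (by linarith [ψ1 x]) (abs_nonneg x)
        have h5 : |x| ≤ T⁻¹ * x ^ 2 := by
          rw [inv_mul_eq_div, le_div_iff₀ T0, ← sq_abs x]
          nlinarith [abs_nonneg x]
        linarith
    rw [integral_const_mul] at h3
    refine h3.trans ?_
    have h4 : T⁻¹ * ∫ x, x ^ 2 ∂τ ≤ T⁻¹ * M := mul_le_mul_of_nonneg_left h2.2 (by positivity)
    refine h4.trans ?_
    rw [inv_mul_eq_div, div_le_iff₀ T0, hT]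
    have e : ε / 4 * (4 * (M + 1) / ε + 1) = (M + 1) + ε / 4 := by field_simp
    rw [e]; linarith
  have c1 := cl (μ n) inferInstance (hM n)
  have c2 := cl ν inferInstance hν
  have c3 : |∫ x, k x * ψ x ∂(μ n) - ∫ x, k x * ψ x ∂ν| < ε / 2 := by
    have := hN n hn
    rw [Real.dist_eq] at this
    exact this
  rw [Real.dist_eq]
  have e : ∫ x, k x ∂(μ n) - ∫ x, k x ∂ν = (∫ x, k x ∂(μ n) - ∫ x, k x * ψ x ∂(μ n)) -
      (∫ x, k x ∂ν - ∫ x, k x * ψ x ∂ν) + (∫ x, k x * ψ x ∂(μ n) - ∫ x, k x * ψ x ∂ν) := by ring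
  rw [e]
  refine lt_of_le_of_lt (abs_add_le _ _) ?_
  have := abs_sub (∫ x, k x ∂(μ n) - ∫ x, k x * ψ x ∂(μ n)) (∫ x, k x ∂ν - ∫ x, k x * ψ x ∂ν)
  linarith

/-! ### Lévy's theorem for finite measures -/

lemma levy_fin {τ : ℕ → Measure ℝ} [∀ n, IsFiniteMeasure (τ n)] {W : ℝ} (hW : 0 < W) {v : ℝ≥0}
    (hc : ∀ t, Tendsto (fun n => cI (τ n) t) atTop (𝓝 (W * Real.exp (-(v * t ^ 2 / 2)))))
    (hs : ∀ t, Tendsto (fun n => sI (τ n) t) atTop (𝓝 0)) (g : ℝ →ᵇ ℝ) :
    Tendsto (fun n => ∫ x, g x ∂(τ n)) atTop (𝓝 (W * ∫ x, g x ∂(gaussianReal 0 v))) := by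
  have m0 : Tendsto (fun n => (τ n).real Set.univ) atTop (𝓝 W) := by
    have h := hc 0
    have e : W * Real.exp (-(v * (0 : ℝ) ^ 2 / 2)) = W := by simp
    rw [e] at h
    refine h.congr fun n => ?_
    unfold cI
    simp
  have ev : ∀ᶠ n in atTop, 0 < (τ n).real Set.univ := m0.eventually_const_lt hW
  have ex : ∀ n, ∃ P : ProbabilityMeasure ℝ, 0 < (τ n).real Set.univ →
      (P : Measure ℝ) = (τ n Set.univ)⁻¹ • τ n := by
    intro n
    by_cases h : 0 < (τ n).real Set.univ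
    · have h0 : τ n Set.univ ≠ 0 := fun h' => by
        unfold Measure.real at h
        rw [h'] at h
        simp at h
      refine ⟨⟨(τ n Set.univ)⁻¹ • τ n, ⟨?_⟩⟩, fun _ => rfl⟩
      rw [Measure.smul_apply, smul_eq_mul, ENNReal.inv_mul_cancel h0 (measure_ne_top _ _)]
    · exact ⟨⟨Measure.dirac 0, inferInstance⟩, fun h' => absurd h' h⟩
  choose P hP using ex
  have eP : ∀ n, 0 < (τ n).real Set.univ → ∀ f : ℝ → ℝ, ∫ x, f x ∂(P n : Measure ℝ) =
      ((τ n).real Set.univ)⁻¹ * ∫ x, f x ∂(τ n) := by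
    intro n hn f
    rw [hP n hn, integral_smul_measure, ENNReal.toReal_inv, smul_eq_mul]
    rfl
  obtain ⟨G, hG⟩ : ∃ G : ProbabilityMeasure ℝ, (G : Measure ℝ) = gaussianReal 0 v :=
    ⟨⟨gaussianReal 0 v, (inferInstance : IsProbabilityMeasure (gaussianReal 0 v))⟩, rfl⟩
  have hlim : Tendsto P atTop (𝓝 G) := by
    refine ProbabilityMeasure.tendsto_of_tendsto_charFun fun t => ?_
    have e1 : charFun (G : Measure ℝ) t =
        ((Real.exp (-(v * t ^ 2 / 2)) : ℝ) : ℂ) + ((0 : ℝ) : ℂ) * I := by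
      rw [hG, char_cs, (gauss_cs v t).1, (gauss_cs v t).2]
    rw [e1]
    have e2 : ∀ n, charFun (P n : Measure ℝ) t = (cI (P n : Measure ℝ) t : ℂ) +
        (sI (P n : Measure ℝ) t : ℂ) * I := fun n => char_cs _ t
    simp only [e2]
    have c1 : Tendsto (fun n => cI (P n : Measure ℝ) t) atTop
        (𝓝 (Real.exp (-(v * t ^ 2 / 2)))) := by
      have h1 := (m0.inv₀ hW.ne').mul (hc t)
      rw [← mul_assoc, inv_mul_cancel₀ hW.ne', one_mul] at h1
      refine h1.congr' (ev.mono fun n hn => ?_)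
      exact (eP n hn _).symm
    have c2 : Tendsto (fun n => sI (P n : Measure ℝ) t) atTop (𝓝 0) := by
      have h1 := (m0.inv₀ hW.ne').mul (hs t)
      rw [mul_zero] at h1
      refine h1.congr' (ev.mono fun n hn => ?_)
      exact (eP n hn _).symm
    have c1' := (Complex.continuous_ofReal.tendsto _).comp c1
    have c2' := (Complex.continuous_ofReal.tendsto _).comp c2
    exact c1'.add (c2'.mul_const I)
  have h1 := ProbabilityMeasure.tendsto_iff_forall_integral_tendsto.1 hlim g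
  rw [hG] at h1
  have h2 := m0.mul h1
  refine h2.congr' (ev.mono fun n hn => ?_)
  show (τ n).real Set.univ * ∫ x, g x ∂(P n : Measure ℝ) = _
  rw [eP n hn, ← mul_assoc, mul_inv_cancel₀ hn.ne', one_mul]

end

end Pool.Agent.N252.TV
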